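import Mathlib
import Pool.Agent.K4H49.AC.A12

/-! Multiplicative relations in a subgroup of the residue classes: weighted sums over them are bounded by
passing to products of `l` relations. -/

set_option autoImplicit false

namespace Pool.Agent.K4H20.TC
open Finset Pool.Agent.R311.RES Pool.Agent.K4H49.AC
open scoped Classical

/-- the number of factorisations of `n` into `l` factors is at most `l ^ Ω(n)` -/
lemma card_antidiag (l : ℕ) : ∀ n : ℕ, 0 < n →
    (Nat.finMulAntidiag l n).card ≤ l ^ (ArithmeticFunction.cardFactors n) := by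
  intro n
  induction n using induction_on_primes with
  | zero => intro h; exact absurd h (lt_irrefl _)
  | one =>
    intro _
    rw [Nat.finMulAntidiag_one]
    simp
  | prime_mul p m hp ih =>
    intro h
    have hm : 0 < m := Nat.pos_of_mul_pos_left h |> fun h' => by
      rcases Nat.eq_zero_or_pos m with h0 | h0
      · subst h0; simp at h
      · exact h0
    have h1 := ih hm
    rw [ArithmeticFunction.cardFactors_mul hp.ne_zero hm.ne', ArithmeticFunction.cardFactors_apply_prime hp,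
      pow_add, pow_one]
    have h2 : Nat.finMulAntidiag l (p * m) ⊆ (univ : Finset (Fin l)).biUnion
        (fun i => (Nat.finMulAntidiag l m).image (fun t => Function.update t i (p * t i))) := by
      intro t ht
      rw [Nat.mem_finMulAntidiag] at ht
      have h3 : p ∣ ∏ i, t i := by rw [ht.1]; exact dvd_mul_right _ _
      obtain ⟨i, -, hi⟩ := (Prime.dvd_finset_prod_iff hp.prime t).1 h3
      obtain ⟨a, ha⟩ := hi
      rw [mem_biUnion]
      refine ⟨i, mem_univ _, ?_⟩
      rw [mem_image]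
      refine ⟨Function.update t i a, ?_, ?_⟩
      · rw [Nat.mem_finMulAntidiag]
        refine ⟨?_, hm.ne'⟩
        have h4 : ∏ j, t j = t i * ∏ j ∈ univ.erase i, t j := (Finset.mul_prod_erase univ t (mem_univ i)).symm
        have h5 : ∏ j, Function.update t i a j = a * ∏ j ∈ univ.erase i, t j := by
          rw [← Finset.mul_prod_erase univ (Function.update t i a) (mem_univ i), Function.update_self]
          congr 1
          apply Finset.prod_congr rfl
          intro j hj
          rw [Function.update_of_ne (mem_erase.1 hj).1]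
        have h6 : p * (∏ j, Function.update t i a j) = p * m := by
          rw [h5, ← ht.1, h4, ha]; ring
        exact Nat.eq_of_mul_eq_mul_left hp.pos h6
      · rw [Function.update_self, Function.update_idem, ← ha, Function.update_eq_self]
    refine (card_le_card h2).trans ?_
    refine card_biUnion_le.trans ?_
    calc ∑ i : Fin l, ((Nat.finMulAntidiag l m).image (fun t => Function.update t i (p * t i))).card ≤
        ∑ _i : Fin l, l ^ (ArithmeticFunction.cardFactors m) :=
          Finset.sum_le_sum fun i _ => card_image_le.trans h1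
      _ = _ := by rw [Finset.sum_const, card_univ, Fintype.card_fin, smul_eq_mul]

/-- a colouring for which the weight of the properly coloured pairs is large -/
lemma coloring (R : Finset (ℕ × ℕ)) (w : ℕ × ℕ → ℝ) (hcop : ∀ z ∈ R, Nat.Coprime z.1 z.2) :
    ∃ C : Finset ℕ, ∑ z ∈ R, w z ≤ ∑ z ∈ R.filter (fun z => z.1.primeFactors ⊆ C ∧ Disjoint z.2.primeFactors C),
      (2 : ℝ) ^ (z.1.primeFactors.card + z.2.primeFactors.card) * w z := by
  set P : Finset ℕ := R.biUnion (fun z => z.1.primeFactors ∪ z.2.primeFactors) with hP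
  by_contra hcon
  push Not at hcon
  have h1 : ∑ C ∈ P.powerset, ∑ z ∈ R.filter (fun z => z.1.primeFactors ⊆ C ∧ Disjoint z.2.primeFactors C),
      (2 : ℝ) ^ (z.1.primeFactors.card + z.2.primeFactors.card) * w z <
      ∑ _C ∈ P.powerset, ∑ z ∈ R, w z :=
    Finset.sum_lt_sum_of_nonempty ⟨∅, empty_mem_powerset _⟩ fun C _ => hcon C
  rw [Finset.sum_const, card_powerset, nsmul_eq_mul] at h1
  have h2 : ∑ C ∈ P.powerset, ∑ z ∈ R.filter (fun z => z.1.primeFactors ⊆ C ∧ Disjoint z.2.primeFactors C),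
      (2 : ℝ) ^ (z.1.primeFactors.card + z.2.primeFactors.card) * w z =
      ∑ z ∈ R, (2 : ℝ) ^ P.card * w z := by
    simp_rw [Finset.sum_filter]
    rw [Finset.sum_comm]
    apply Finset.sum_congr rfl
    intro z hz
    rw [← Finset.sum_filter, Finset.sum_const, nsmul_eq_mul]
    have hz1 : z.1.primeFactors ⊆ P := fun p hp => mem_biUnion.2 ⟨z, hz, mem_union_left _ hp⟩
    have hz2 : z.2.primeFactors ⊆ P := fun p hp => mem_biUnion.2 ⟨z, hz, mem_union_right _ hp⟩
    have hd : Disjoint z.1.primeFactors z.2.primeFactors := (hcop z hz).disjoint_primeFactors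
    have e1 : P.powerset.filter (fun C => z.1.primeFactors ⊆ C ∧ Disjoint z.2.primeFactors C) =
        Finset.Icc z.1.primeFactors (P \ z.2.primeFactors) := by
      ext C
      rw [mem_filter, mem_powerset, Finset.mem_Icc]
      constructor
      · rintro ⟨a1, a2, a3⟩
        refine ⟨a2, fun p hp => mem_sdiff.2 ⟨a1 hp, fun h => ?_⟩⟩
        exact (Finset.disjoint_left.1 a3) h hp
      · rintro ⟨a1, a2⟩
        refine ⟨fun p hp => (mem_sdiff.1 (a2 hp)).1, a1, ?_⟩
        rw [Finset.disjoint_left]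
        intro p hp hpC
        exact (mem_sdiff.1 (a2 hpC)).2 hp
    have hsub : z.1.primeFactors ⊆ P \ z.2.primeFactors := by
      intro p hp
      rw [mem_sdiff]
      exact ⟨hz1 hp, (Finset.disjoint_left.1 hd) hp⟩
    rw [e1, Finset.card_Icc_finset hsub, card_sdiff_of_subset hz2]
    have hle : z.1.primeFactors.card + z.2.primeFactors.card ≤ P.card := by
      have := card_le_card hsub
      rw [card_sdiff_of_subset hz2] at this
      have := card_le_card hz2
      omega
    push_cast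
    rw [← mul_assoc, ← pow_add]
    congr 2
    omega
  rw [h2, ← Finset.mul_sum] at h1
  push_cast at h1
  exact lt_irrefl _ h1

variable {q : ℕ} [Fact q.Prime]

/-- **Weighted sums over the relations in a subgroup.** -/
theorem rel_sum (G : Subgroup (ZMod q)ˣ) (R : Finset (ℕ × ℕ)) (w : ℕ × ℕ → ℝ) (hw : ∀ z ∈ R, 0 ≤ w z)
    (hpos : ∀ z ∈ R, 0 < z.1 ∧ 0 < z.2) (hcop : ∀ z ∈ R, Nat.Coprime z.1 z.2)
    (hG : ∀ z ∈ R, un q z.1 * (un q z.2)⁻¹ ∈ G)
    (X l : ℕ) (hl : 1 ≤ l) (hX : ∀ z ∈ R, z.1 ≤ X ∧ z.2 ≤ X) (hXq : X ^ l * X ^ l < q)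
    (M : ℝ) (hM0 : 0 ≤ M) (hM : ∀ z ∈ R, w z * (2 * l : ℝ) ^ (ArithmeticFunction.cardFactors z.1 +
      ArithmeticFunction.cardFactors z.2) ≤ M) :
    (∑ z ∈ R, w z) ^ l ≤ (Fintype.card G : ℝ) * M ^ l := by
  obtain ⟨C, hC⟩ := coloring R w hcop
  set S := R.filter (fun z => z.1.primeFactors ⊆ C ∧ Disjoint z.2.primeFactors C) with hS
  set w' : ℕ × ℕ → ℝ := fun z => (2 : ℝ) ^ (z.1.primeFactors.card + z.2.primeFactors.card) * w z with hw'
  have hSR : ∀ z ∈ S, z ∈ R := fun z hz => (mem_filter.1 hz).1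
  have hw'0 : ∀ z ∈ S, 0 ≤ w' z := fun z hz => mul_nonneg (by positivity) (hw z (hSR z hz))
  have hlr : (0 : ℝ) < l := by exact_mod_cast hl
  -- the weights
  have hw'M : ∀ z ∈ S, w' z * (l : ℝ) ^ (ArithmeticFunction.cardFactors z.1 +
      ArithmeticFunction.cardFactors z.2) ≤ M := by
    intro z hz
    refine le_trans ?_ (hM z (hSR z hz))
    rw [mul_pow, hw']
    have h1 : (2 : ℝ) ^ (z.1.primeFactors.card + z.2.primeFactors.card) ≤
        2 ^ (ArithmeticFunction.cardFactors z.1 + ArithmeticFunction.cardFactors z.2) := by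
      apply pow_le_pow_right₀ (by norm_num)
      apply add_le_add
      · rw [ArithmeticFunction.cardFactors_apply]
        exact List.toFinset_card_le _
      · rw [ArithmeticFunction.cardFactors_apply]
        exact List.toFinset_card_le _
    have h2 := hw z (hSR z hz)
    calc (2 : ℝ) ^ (z.1.primeFactors.card + z.2.primeFactors.card) * w z *
        (l : ℝ) ^ (ArithmeticFunction.cardFactors z.1 + ArithmeticFunction.cardFactors z.2) ≤
        2 ^ (ArithmeticFunction.cardFactors z.1 + ArithmeticFunction.cardFactors z.2) * w z *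
        (l : ℝ) ^ (ArithmeticFunction.cardFactors z.1 + ArithmeticFunction.cardFactors z.2) := by
          apply mul_le_mul_of_nonneg_right _ (by positivity)
          exact mul_le_mul_of_nonneg_right h1 h2
      _ = _ := by ring
  have hsum0 : 0 ≤ ∑ z ∈ R, w z := Finset.sum_nonneg hw
  refine (pow_le_pow_left₀ hsum0 hC l).trans ?_
  set P := Fintype.piFinset (fun _ : Fin l => S) with hP
  have e1 : (∑ z ∈ S, w' z) ^ l = ∑ t ∈ P, ∏ i : Fin l, w' (t i) := by
    rw [hP, ← Finset.prod_univ_sum (fun _ : Fin l => S) (fun _ z => w' z), Finset.prod_const,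
      card_univ, Fintype.card_fin]
  rw [e1]
  set Φ : (Fin l → ℕ × ℕ) → (ZMod q)ˣ := fun t => ∏ i, (un q (t i).1 * (un q (t i).2)⁻¹) with hΦ
  have hmaps : ∀ t ∈ P, Φ t ∈ (univ.filter (fun g : (ZMod q)ˣ => g ∈ G)) := by
    intro t ht
    rw [mem_filter]
    refine ⟨mem_univ _, Subgroup.prod_mem _ fun i _ => hG _ (hSR _ (Fintype.mem_piFinset.1 ht i))⟩
  rw [← Finset.sum_fiberwise_of_maps_to hmaps]
  have hcardG : ((univ.filter (fun g : (ZMod q)ˣ => g ∈ G)).card : ℝ) = Fintype.card G := by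
    rw [Fintype.card_subtype]
  rw [← hcardG, ← nsmul_eq_mul, ← Finset.sum_const]
  apply Finset.sum_le_sum
  intro g _
  set F := P.filter (fun t => Φ t = g) with hF
  rcases F.eq_empty_or_nonempty with h0 | ⟨t₀, ht₀⟩
  · rw [h0, Finset.sum_empty]
    exact pow_nonneg hM0 _
  -- sizes
  have hlt : X ^ l < q := by
    rcases Nat.eq_zero_or_pos X with h0 | h0
    · subst h0
      rw [zero_pow (by omega)]
      exact (Nat.Prime.pos Fact.out)
    · exact lt_of_le_of_lt (Nat.le_mul_of_pos_right _ (Nat.pow_pos h0)) hXq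
  have hbd : ∀ t ∈ P, ∀ i, (0 < (t i).1 ∧ (t i).1 ≤ X ∧ (t i).1.Coprime q) ∧
      (0 < (t i).2 ∧ (t i).2 ≤ X ∧ (t i).2.Coprime q) := by
    intro t ht i
    have h1 := hSR _ (Fintype.mem_piFinset.1 ht i)
    have hXX : X < q := by
      have hX0 : 0 < X := lt_of_lt_of_le (hpos _ h1).1 (hX _ h1).1
      calc X = X ^ 1 := (pow_one X).symm
        _ ≤ X ^ l := Nat.pow_le_pow_right hX0 hl
        _ < q := hlt
    exact ⟨⟨(hpos _ h1).1, (hX _ h1).1, cop_of_lt (hpos _ h1).1 (lt_of_le_of_lt (hX _ h1).1 hXX)⟩,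
      ⟨(hpos _ h1).2, (hX _ h1).2, cop_of_lt (hpos _ h1).2 (lt_of_le_of_lt (hX _ h1).2 hXX)⟩⟩
  have hXl : ∏ _i : Fin l, X = X ^ l := by rw [Finset.prod_const, card_univ, Fintype.card_fin]
  have hpr : ∀ t ∈ P, (0 < ∏ i, (t i).1 ∧ ∏ i, (t i).1 ≤ X ^ l) ∧ (0 < ∏ i, (t i).2 ∧ ∏ i, (t i).2 ≤ X ^ l) ∧
      Nat.Coprime (∏ i, (t i).1) (∏ i, (t i).2) ∧
      Φ t = un q (∏ i, (t i).1) * (un q (∏ i, (t i).2))⁻¹ := by
    intro t ht
    refine ⟨⟨Finset.prod_pos fun i _ => (hbd t ht i).1.1, ?_⟩, ⟨Finset.prod_pos fun i _ => (hbd t ht i).2.1, ?_⟩, ?_, ?_⟩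
    · rw [← hXl]; exact Finset.prod_le_prod' fun i _ => (hbd t ht i).1.2.1
    · rw [← hXl]; exact Finset.prod_le_prod' fun i _ => (hbd t ht i).2.2.1
    · apply Nat.Coprime.prod_left
      intro i _
      apply Nat.Coprime.prod_right
      intro i' _
      have hi := (mem_filter.1 (Fintype.mem_piFinset.1 ht i)).2
      have hi' := (mem_filter.1 (Fintype.mem_piFinset.1 ht i')).2
      rw [← Nat.disjoint_primeFactors (hbd t ht i).1.1.ne' (hbd t ht i').2.1.ne']
      rw [Finset.disjoint_left]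
      intro p hp hp'
      exact (Finset.disjoint_left.1 hi'.2) hp' (hi.1 hp)
    · rw [hΦ]
      show ∏ i, (un q (t i).1 * (un q (t i).2)⁻¹) = _
      rw [Finset.prod_mul_distrib, Finset.prod_inv_distrib, un_prod _ _ (fun i _ => (hbd t ht i).1.2.2),
        un_prod _ _ (fun i _ => (hbd t ht i).2.2.2)]
  have hsame : ∀ t ∈ F, ∏ i, (t i).1 = ∏ i, (t₀ i).1 ∧ ∏ i, (t i).2 = ∏ i, (t₀ i).2 := by
    intro t ht
    rw [hF, mem_filter] at ht ht₀
    obtain ⟨⟨a1, a2⟩, ⟨b1, b2⟩, c1, d1⟩ := hpr t ht.1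
    obtain ⟨⟨a1', a2'⟩, ⟨b1', b2'⟩, c1', d1'⟩ := hpr t₀ ht₀.1
    have hg : un q (∏ i, (t i).1) * (un q (∏ i, (t i).2))⁻¹ = un q (∏ i, (t₀ i).1) * (un q (∏ i, (t₀ i).2))⁻¹ := by
      rw [← d1, ← d1', ht.2, ht₀.2]
    rw [mul_inv_eq_iff_eq_mul, mul_right_comm, ← mul_inv_eq_iff_eq_mul, inv_inv] at hg
    have cA := cop_of_lt a1 (lt_of_le_of_lt a2 hlt)
    have cB := cop_of_lt b1 (lt_of_le_of_lt b2 hlt)
    have cA' := cop_of_lt a1' (lt_of_le_of_lt a2' hlt)
    have cB' := cop_of_lt b1' (lt_of_le_of_lt b2' hlt)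
    rw [← un_mul cA cB', ← un_mul cA' cB] at hg
    have h5 := un_inj (Nat.mul_pos a1 b1') (Nat.mul_pos a1' b1)
      (lt_of_le_of_lt (Nat.mul_le_mul a2 b2') hXq) (lt_of_le_of_lt (Nat.mul_le_mul a2' b2) hXq) hg
    -- A B' = A' B
    have h6 : ∏ i, (t i).1 ∣ ∏ i, (t₀ i).1 := by
      apply c1.dvd_of_dvd_mul_right
      exact ⟨_, h5.symm⟩
    have h7 : ∏ i, (t₀ i).1 ∣ ∏ i, (t i).1 := by
      apply c1'.dvd_of_dvd_mul_right
      exact ⟨_, h5⟩
    have h8 := Nat.dvd_antisymm h6 h7
    refine ⟨h8, ?_⟩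
    rw [h8] at h5
    exact (Nat.eq_of_mul_eq_mul_left a1' h5).symm
  have ht₀P := (mem_filter.1 ht₀).1
  set A := ∏ i, (t₀ i).1 with hA
  set B := ∏ i, (t₀ i).2 with hB
  have hcardF : F.card ≤ l ^ (ArithmeticFunction.cardFactors A) * l ^ (ArithmeticFunction.cardFactors B) := by
    have h1 : F.card ≤ (Nat.finMulAntidiag l A ×ˢ Nat.finMulAntidiag l B).card := by
      apply Finset.card_le_card_of_injOn (fun t => ((fun i => (t i).1), (fun i => (t i).2)))
      · intro t ht
        rw [Finset.mem_coe] at ht ⊢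
        rw [mem_product, Nat.mem_finMulAntidiag, Nat.mem_finMulAntidiag]
        exact ⟨⟨(hsame t ht).1, (hpr t₀ ht₀P).1.1.ne'⟩, ⟨(hsame t ht).2, (hpr t₀ ht₀P).2.1.1.ne'⟩⟩
      · intro t _ t' _ htt
        rw [Prod.mk.injEq] at htt
        funext i
        exact Prod.ext (congrFun htt.1 i) (congrFun htt.2 i)
    refine h1.trans ?_
    rw [card_product]
    exact Nat.mul_le_mul (card_antidiag l A (hpr t₀ ht₀P).1.1) (card_antidiag l B (hpr t₀ ht₀P).2.1.1)
  have hterm : ∀ t ∈ F, ∏ i, w' (t i) ≤ M ^ l / (l : ℝ) ^ (ArithmeticFunction.cardFactors A +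
      ArithmeticFunction.cardFactors B) := by
    intro t ht
    have htP := (mem_filter.1 ht).1
    rw [le_div_iff₀ (by positivity)]
    have h1 : (l : ℝ) ^ (ArithmeticFunction.cardFactors A + ArithmeticFunction.cardFactors B) =
        ∏ i : Fin l, (l : ℝ) ^ (ArithmeticFunction.cardFactors (t i).1 + ArithmeticFunction.cardFactors (t i).2) := by
      have h2 : ∀ f : Fin l → ℕ, (∀ i, f i ≠ 0) → ArithmeticFunction.cardFactors (∏ i, f i) =
          ∑ i, ArithmeticFunction.cardFactors (f i) := by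
        intro f hf
        induction (univ : Finset (Fin l)) using Finset.induction_on with
        | empty => simp
        | insert a s ha ih =>
          rw [Finset.prod_insert ha, Finset.sum_insert ha,
            ArithmeticFunction.cardFactors_mul (hf a) (Finset.prod_ne_zero_iff.2 fun i _ => hf i), ih]
      rw [← (hsame t ht).1, ← (hsame t ht).2, h2 _ (fun i => (hbd t htP i).1.1.ne'),
        h2 _ (fun i => (hbd t htP i).2.1.ne'), ← Finset.sum_add_distrib, Finset.prod_pow_eq_pow_sum]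
    rw [h1, ← Finset.prod_mul_distrib]
    calc ∏ i, (w' (t i) * (l : ℝ) ^ (ArithmeticFunction.cardFactors (t i).1 + ArithmeticFunction.cardFactors (t i).2)) ≤
        ∏ _i : Fin l, M := by
          apply Finset.prod_le_prod
          · intro i _
            exact mul_nonneg (hw'0 _ (Fintype.mem_piFinset.1 htP i)) (by positivity)
          · intro i _
            exact hw'M _ (Fintype.mem_piFinset.1 htP i)
      _ = M ^ l := by rw [Finset.prod_const, card_univ, Fintype.card_fin]
  calc ∑ t ∈ F, ∏ i, w' (t i) ≤ ∑ _t ∈ F, M ^ l / (l : ℝ) ^ (ArithmeticFunction.cardFactors A +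
      ArithmeticFunction.cardFactors B) := Finset.sum_le_sum hterm
    _ = (F.card : ℝ) * (M ^ l / (l : ℝ) ^ (ArithmeticFunction.cardFactors A +
      ArithmeticFunction.cardFactors B)) := by rw [Finset.sum_const, nsmul_eq_mul]
    _ ≤ (l : ℝ) ^ (ArithmeticFunction.cardFactors A + ArithmeticFunction.cardFactors B) *
        (M ^ l / (l : ℝ) ^ (ArithmeticFunction.cardFactors A + ArithmeticFunction.cardFactors B)) := by
        apply mul_le_mul_of_nonneg_right _ (by positivity)
        rw [pow_add]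
        exact_mod_cast hcardF
    _ = M ^ l := by field_simp

end Pool.Agent.K4H20.TC
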