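import Mathlib
import Pool.Agent.K4H20.TC.T1

/-! Relations in a subgroup, sorted by size. -/

set_option autoImplicit false

namespace Pool.Agent.K4H20.TC
open Finset Pool.Agent.R311.RES Pool.Agent.K4H49.AC
open scoped Classical

lemma rs_pos {n : ℕ} (hn : 0 < n) : 0 < rs n := inv_pos.2 (Real.sqrt_pos.2 (by exact_mod_cast hn))

/-- the weight of an integer -/
lemma wt_bound (I : Finset ℕ) (m c lam : ℝ) (hm : 0 ≤ m) (hc : 1 ≤ c) : ∀ n : ℕ, 0 < n →
    (∀ p ∈ n.primeFactors, (p ∈ I → c * m * rs p ≤ (p : ℝ) ^ (-lam)) ∧ m * rs p ≤ (p : ℝ) ^ (-lam)) →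
    rs n * m ^ (ArithmeticFunction.cardFactors n) * c ^ (n.primeFactors ∩ I).card ≤ (n : ℝ) ^ (-lam) := by
  intro n
  induction n using induction_on_primes with
  | zero => intro h; exact absurd h (lt_irrefl _)
  | one =>
    intro _ _
    simp [rs]
  | prime_mul p n hp ih =>
    intro h hpr
    have hn : 0 < n := by
      rcases Nat.eq_zero_or_pos n with h0 | h0
      · subst h0; simp at h
      · exact h0
    have hpf : (p * n).primeFactors = insert p n.primeFactors := by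
      rw [Nat.primeFactors_mul hp.ne_zero hn.ne', hp.primeFactors]
      rfl
    have h1 := ih hn (fun r hr => hpr r (by rw [hpf]; exact mem_insert_of_mem hr))
    have h2 := hpr p (by rw [hpf]; exact mem_insert_self _ _)
    rw [ArithmeticFunction.cardFactors_mul hp.ne_zero hn.ne', ArithmeticFunction.cardFactors_apply_prime hp,
      rs_mul, Nat.cast_mul, Real.mul_rpow (Nat.cast_nonneg _) (Nat.cast_nonneg _), pow_add, pow_one]
    have hc0 : (0 : ℝ) ≤ c := by linarith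
    have r1 := rs_nonneg p
    have r2 := rs_nonneg n
    have h3 : m * rs p * c ^ ((p * n).primeFactors ∩ I).card ≤ (p : ℝ) ^ (-lam) * c ^ (n.primeFactors ∩ I).card := by
      by_cases hpI : p ∈ I
      · have h4 : ((p * n).primeFactors ∩ I).card ≤ (n.primeFactors ∩ I).card + 1 := by
          rw [hpf]
          refine (card_le_card (t := insert p (n.primeFactors ∩ I)) ?_).trans (card_insert_le _ _)
          intro r hr
          rw [mem_inter, mem_insert] at hr
          rw [mem_insert, mem_inter]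
          rcases hr with ⟨h5 | h5, h6⟩
          · exact Or.inl h5
          · exact Or.inr ⟨h5, h6⟩
        calc m * rs p * c ^ ((p * n).primeFactors ∩ I).card ≤ m * rs p * c ^ ((n.primeFactors ∩ I).card + 1) := by
              apply mul_le_mul_of_nonneg_left _ (mul_nonneg hm r1)
              exact pow_le_pow_right₀ hc h4
          _ = (c * m * rs p) * c ^ (n.primeFactors ∩ I).card := by rw [pow_succ]; ring
          _ ≤ _ := mul_le_mul_of_nonneg_right (h2.1 hpI) (pow_nonneg hc0 _)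
      · have h4 : ((p * n).primeFactors ∩ I).card ≤ (n.primeFactors ∩ I).card := by
          rw [hpf]
          apply card_le_card
          intro r hr
          rw [mem_inter, mem_insert] at hr
          rw [mem_inter]
          rcases hr with ⟨h5 | h5, h6⟩
          · exact absurd (h5 ▸ h6) hpI
          · exact ⟨h5, h6⟩
        calc m * rs p * c ^ ((p * n).primeFactors ∩ I).card ≤ m * rs p * c ^ (n.primeFactors ∩ I).card := by
              apply mul_le_mul_of_nonneg_left _ (mul_nonneg hm r1)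
              exact pow_le_pow_right₀ hc h4
          _ ≤ _ := mul_le_mul_of_nonneg_right h2.2 (pow_nonneg hc0 _)
    calc rs p * rs n * (m * m ^ ArithmeticFunction.cardFactors n) * c ^ ((p * n).primeFactors ∩ I).card =
        (m * rs p * c ^ ((p * n).primeFactors ∩ I).card) * (rs n * m ^ ArithmeticFunction.cardFactors n) := by ring
      _ ≤ ((p : ℝ) ^ (-lam) * c ^ (n.primeFactors ∩ I).card) * (rs n * m ^ ArithmeticFunction.cardFactors n) :=
          mul_le_mul_of_nonneg_right h3 (mul_nonneg r2 (pow_nonneg hm _))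
      _ = (p : ℝ) ^ (-lam) * (rs n * m ^ ArithmeticFunction.cardFactors n * c ^ (n.primeFactors ∩ I).card) := by ring
      _ ≤ _ := mul_le_mul_of_nonneg_left h1 (Real.rpow_nonneg (Nat.cast_nonneg _) _)

variable {q : ℕ} [Fact q.Prime]

/-- the relations of size about `b ^ s` -/
theorem class_sum (G : Subgroup (ZMod q)ˣ) (γ : ℝ) (hγ : (Fintype.card G : ℝ) ≤ Real.exp γ)
    (R : Finset (ℕ × ℕ)) (w : ℕ × ℕ → ℝ) (hw : ∀ z ∈ R, 0 ≤ w z)
    (hpos : ∀ z ∈ R, 0 < z.1 ∧ 0 < z.2) (hcop : ∀ z ∈ R, Nat.Coprime z.1 z.2)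
    (hG : ∀ z ∈ R, un q z.1 * (un q z.2)⁻¹ ∈ G)
    (b s l : ℕ) (hb : 2 ≤ b) (hs : 1 ≤ s) (hl : 1 ≤ l)
    (hsz : ∀ z ∈ R, b ^ (s - 1) < z.1 * z.2 ∧ z.1 * z.2 ≤ b ^ s) (hq : (b ^ s) ^ l * (b ^ s) ^ l < q)
    (lam : ℝ) (hw2 : ∀ z ∈ R, w z * (2 * l : ℝ) ^ (ArithmeticFunction.cardFactors z.1 +
      ArithmeticFunction.cardFactors z.2) ≤ ((z.1 * z.2 : ℕ) : ℝ) ^ (-lam))
    (g : ℝ) (hg : γ ≤ g * s * l) :
    ∑ z ∈ R, w z ≤ Real.exp (g * s) * max ((b : ℝ) ^ (-lam * ((s : ℝ) - 1))) ((b : ℝ) ^ (-lam * s)) := by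
  have hb0 : (0 : ℝ) < b := by exact_mod_cast (by omega : 0 < b)
  set M := max ((b : ℝ) ^ (-lam * ((s : ℝ) - 1))) ((b : ℝ) ^ (-lam * s)) with hM
  have hM0 : 0 ≤ M := le_max_of_le_left (Real.rpow_nonneg hb0.le _)
  have h1 : ∀ z ∈ R, w z * (2 * l : ℝ) ^ (ArithmeticFunction.cardFactors z.1 +
      ArithmeticFunction.cardFactors z.2) ≤ M := by
    intro z hz
    refine (hw2 z hz).trans ?_
    obtain ⟨a1, a2⟩ := hsz z hz
    have hn : 0 < z.1 * z.2 := Nat.mul_pos (hpos z hz).1 (hpos z hz).2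
    have hn' : (0 : ℝ) < ((z.1 * z.2 : ℕ) : ℝ) := by exact_mod_cast hn
    rcases le_or_gt 0 lam with h2 | h2
    · refine le_trans ?_ (le_max_left _ _)
      have e1 : (b : ℝ) ^ (-lam * ((s : ℝ) - 1)) = ((b ^ (s - 1) : ℕ) : ℝ) ^ (-lam) := by
        rw [Nat.cast_pow, ← Real.rpow_natCast, ← Real.rpow_mul hb0.le, Nat.cast_sub hs, Nat.cast_one, mul_comm]
      rw [e1]
      apply Real.rpow_le_rpow_of_nonpos _ _ (by linarith)
      · exact_mod_cast Nat.pow_pos (by omega : 0 < b)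
      · exact_mod_cast a1.le
    · refine le_trans ?_ (le_max_right _ _)
      have e1 : (b : ℝ) ^ (-lam * (s : ℝ)) = ((b ^ s : ℕ) : ℝ) ^ (-lam) := by
        rw [Nat.cast_pow, ← Real.rpow_natCast, ← Real.rpow_mul hb0.le, mul_comm]
      rw [e1]
      apply Real.rpow_le_rpow hn'.le _ (by linarith)
      exact_mod_cast a2
  have h2 := rel_sum G R w hw hpos hcop hG (b ^ s) l hl (fun z hz => by
    obtain ⟨a1, a2⟩ := hsz z hz
    exact ⟨(Nat.le_mul_of_pos_right _ (hpos z hz).2).trans a2, (Nat.le_mul_of_pos_left _ (hpos z hz).1).trans a2⟩)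
    hq M hM0 h1
  have h3 : (∑ z ∈ R, w z) ^ l ≤ (Real.exp (g * s) * M) ^ l := by
    refine h2.trans ?_
    rw [mul_pow]
    apply mul_le_mul_of_nonneg_right _ (pow_nonneg hM0 _)
    refine hγ.trans ?_
    rw [← Real.exp_nat_mul]
    apply Real.exp_le_exp.2
    calc γ ≤ g * s * l := hg
      _ = _ := by ring
  exact le_of_pow_le_pow_left₀ (by omega) (mul_nonneg (Real.exp_pos _).le hM0) h3

/-- the choice of the number of factors -/
lemma choose_l (b s : ℕ) (hb : 2 ≤ b) (hs : 1 ≤ s) (hbs : (b ^ s) * (b ^ s) < q) :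
    ∃ l : ℕ, 1 ≤ l ∧ (b ^ s) ^ l * (b ^ s) ^ l < q ∧ Real.log q ≤ 4 * Real.log b * (s * l) ∧
      2 * Real.log b * (s * l) ≤ Real.log q := by
  have hq : q.Prime := Fact.out
  have hb1 : 1 < b ^ (2 * s) := Nat.one_lt_pow (by omega) (by omega)
  have hq1 : b ^ (2 * s) ≤ q - 1 := by
    have : b ^ (2 * s) = b ^ s * b ^ s := by rw [← pow_add]; congr 1; ring
    omega
  have hlb : 0 < Real.log b := Real.log_pos (by exact_mod_cast (by omega : 1 < b))
  refine ⟨Nat.log (b ^ (2 * s)) (q - 1), ?_, ?_, ?_, ?_⟩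
  · rw [Nat.le_log_iff_pow_le hb1 (by omega), pow_one]
    exact hq1
  · have h1 : (b ^ (2 * s)) ^ (Nat.log (b ^ (2 * s)) (q - 1)) ≤ q - 1 := Nat.pow_log_le_self _ (by omega)
    have h2 : (b ^ s) ^ (Nat.log (b ^ (2 * s)) (q - 1)) * (b ^ s) ^ (Nat.log (b ^ (2 * s)) (q - 1)) =
        (b ^ (2 * s)) ^ (Nat.log (b ^ (2 * s)) (q - 1)) := by
      rw [← mul_pow, ← pow_add]
      congr 2
      ring
    rw [h2]
    have := hq.pos
    omega
  · set l := Nat.log (b ^ (2 * s)) (q - 1) with hl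
    have hl1 : 1 ≤ l := by
      rw [hl, Nat.le_log_iff_pow_le hb1 (by omega), pow_one]
      exact hq1
    have h1 : q - 1 < (b ^ (2 * s)) ^ (l + 1) := Nat.lt_pow_succ_log_self hb1 _
    have h2 : (q : ℝ) ≤ ((b ^ (2 * s)) ^ (l + 1) : ℕ) := by exact_mod_cast (by omega : q ≤ (b ^ (2 * s)) ^ (l + 1))
    have h3 : Real.log q ≤ ((l : ℝ) + 1) * (2 * s * Real.log b) := by
      have h4 := Real.log_le_log (by exact_mod_cast hq.pos) h2
      rw [Nat.cast_pow, Real.log_pow, Nat.cast_pow, Real.log_pow] at h4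
      push_cast at h4
      exact h4
    have h5 : (1 : ℝ) ≤ l := by exact_mod_cast hl1
    have h6 : (0 : ℝ) ≤ 2 * s * Real.log b := by positivity
    calc Real.log q ≤ ((l : ℝ) + 1) * (2 * s * Real.log b) := h3
      _ ≤ ((l : ℝ) + l) * (2 * s * Real.log b) := mul_le_mul_of_nonneg_right (by linarith) h6
      _ = _ := by ring
  · set l := Nat.log (b ^ (2 * s)) (q - 1) with hl
    have h1 : (b ^ (2 * s)) ^ l ≤ q - 1 := Nat.pow_log_le_self _ (by omega)
    have h2 : ((b ^ (2 * s)) ^ l : ℕ) ≤ (q : ℝ) := by exact_mod_cast h1.trans (by omega)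
    have h3 := Real.log_le_log (by exact_mod_cast Nat.pow_pos (by omega : 0 < b ^ (2 * s))) h2
    rw [Nat.cast_pow, Real.log_pow, Nat.cast_pow, Real.log_pow] at h3
    push_cast at h3
    linarith

lemma geo_sum (S : Finset ℕ) (hS2 : ∀ s ∈ S, 2 ≤ s) {ρ : ℝ} (hρ0 : 0 ≤ ρ) (hρ2 : ρ ≤ 1 / 2) :
    ∑ s ∈ S, ρ ^ (s - 1) ≤ 2 * ρ := by
  obtain ⟨N, hN⟩ : ∃ N, ∀ s ∈ S, s < N := ⟨S.sup id + 1, fun s hs => Nat.lt_succ_of_le (Finset.le_sup (f := id) hs)⟩
  have h21 : ∑ s ∈ S, ρ ^ (s - 1) ≤ ∑ i ∈ range N, ρ * ρ ^ i := by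
    have h22 : ∑ s ∈ S, ρ ^ (s - 1) = ∑ i ∈ S.image (fun s => s - 2), ρ * ρ ^ i := by
      rw [Finset.sum_image]
      · apply Finset.sum_congr rfl
        intro s hs
        have := hS2 s hs
        rw [← pow_succ']
        congr 1; omega
      · intro a ha b hb hab
        have h1 := hS2 a ha
        have h2 := hS2 b hb
        simp only at hab
        omega
    rw [h22]
    apply Finset.sum_le_sum_of_subset_of_nonneg
    · intro i hi
      obtain ⟨s, hs, rfl⟩ := mem_image.1 hi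
      rw [mem_range]
      have := hN s hs
      omega
    · intro _ _ _; positivity
  refine h21.trans ?_
  rw [← Finset.mul_sum]
  have h23 : ∑ i ∈ range N, ρ ^ i ≤ 2 := by
    have h24 : ∑ i ∈ range N, ρ ^ i ≤ ∑ i ∈ range N, (1 / 2 : ℝ) ^ i :=
      Finset.sum_le_sum fun i _ => pow_le_pow_left₀ hρ0 hρ2 i
    refine h24.trans ?_
    rw [geom_sum_eq (by norm_num)]
    have : (0 : ℝ) < (1 / 2) ^ N := by positivity
    have e : ((1 / 2 : ℝ) ^ N - 1) / (1 / 2 - 1) = 2 - 2 * (1 / 2) ^ N := by ring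
    rw [e]
    linarith
  calc ρ * ∑ i ∈ range N, ρ ^ i ≤ ρ * 2 := mul_le_mul_of_nonneg_left h23 hρ0
    _ = 2 * ρ := by ring

/-- the relations in which all primes are large -/
theorem num_total (G : Subgroup (ZMod q)ˣ) (γ : ℝ) (hγ : (Fintype.card G : ℝ) ≤ Real.exp γ)
    (I : Finset ℕ) (y : ℕ) (hy2 : 2 ≤ y) (hI : ∀ p ∈ I, p.Prime ∧ y < p) (R : Finset (ℕ × ℕ))
    (hpos : ∀ z ∈ R, 0 < z.1 ∧ 0 < z.2) (hcop : ∀ z ∈ R, Nat.Coprime z.1 z.2)
    (hG : ∀ z ∈ R, un q z.1 * (un q z.2)⁻¹ ∈ G) (hne : ∀ z ∈ R, 1 < z.1 * z.2)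
    (hRI : ∀ z ∈ R, z.1.primeFactors ⊆ I ∧ z.2.primeFactors ⊆ I)
    (X : ℕ) (hX : ∀ z ∈ R, z.1 * z.2 ≤ X) (hXq : (y * X) * (y * X) < q)
    (c : ℝ) (hc : 1 ≤ c) (hcy : c * (2 * Real.log q) ≤ (y : ℝ) ^ (1 / 4 : ℝ))
    (g : ℝ) (hg0 : 0 ≤ g) (hg : γ * (4 * Real.log y) ≤ g * Real.log q)
    (hg2 : 8 * Real.exp (2 * g) ≤ (y : ℝ) ^ (1 / 4 : ℝ)) :
    ∑ z ∈ R, c ^ (ArithmeticFunction.cardFactors z.1 + ArithmeticFunction.cardFactors z.2) * (rs z.1 * rs z.2) ≤
      1 / 4 := by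
  have hq : q.Prime := Fact.out
  have hq1 : (1 : ℝ) < q := by exact_mod_cast hq.one_lt
  have hLq : 0 < Real.log q := Real.log_pos hq1
  have hy0 : (0 : ℝ) < y := by exact_mod_cast (by omega : 0 < y)
  have hy1 : (1 : ℝ) < y := by exact_mod_cast (by omega : 1 < y)
  have hly : 0 < Real.log y := Real.log_pos hy1
  have hly2 : Real.log 2 ≤ Real.log y := Real.log_le_log (by norm_num) (by exact_mod_cast hy2)
  set w : ℕ × ℕ → ℝ := fun z => c ^ (ArithmeticFunction.cardFactors z.1 + ArithmeticFunction.cardFactors z.2) *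
    (rs z.1 * rs z.2) with hw
  have hw0 : ∀ z, 0 ≤ w z := fun z => by
    have := rs_nonneg z.1
    have := rs_nonneg z.2
    positivity
  -- classes
  set S := R.image (fun z => Nat.clog y (z.1 * z.2)) with hS
  have hmap : ∀ z ∈ R, Nat.clog y (z.1 * z.2) ∈ S := fun z hz => mem_image_of_mem _ hz
  have hS2 : ∀ s ∈ S, 2 ≤ s := by
    intro s hs
    obtain ⟨z, hz, rfl⟩ := mem_image.1 hs
    obtain ⟨p, hp, hpd⟩ := Nat.exists_prime_and_dvd (hne z hz).ne'
    have hn : 0 < z.1 * z.2 := by have := hne z hz; omega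
    have hpI : p ∈ I := by
      rcases (Nat.Prime.dvd_mul hp).1 hpd with h | h
      · exact (hRI z hz).1 (Nat.mem_primeFactors.2 ⟨hp, h, (hpos z hz).1.ne'⟩)
      · exact (hRI z hz).2 (Nat.mem_primeFactors.2 ⟨hp, h, (hpos z hz).2.ne'⟩)
    have h1 : y < z.1 * z.2 := lt_of_lt_of_le (hI p hpI).2 (Nat.le_of_dvd hn hpd)
    by_contra hcon
    have h2 : Nat.clog y (z.1 * z.2) ≤ 1 := by omega
    have h3 := (Nat.clog_le_iff_le_pow (by omega : 1 < y)).1 h2
    rw [pow_one] at h3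
    omega
  set ρ : ℝ := Real.exp g * (y : ℝ) ^ (-(1 / 4) : ℝ) with hρ
  have hρ0 : 0 < ρ := by positivity
  have hclass : ∀ s ∈ S, ∑ z ∈ R.filter (fun z => Nat.clog y (z.1 * z.2) = s), w z ≤ Real.exp g * ρ ^ (s - 1) := by
    intro s hs
    have hs2 := hS2 s hs
    have hsz : ∀ z ∈ R.filter (fun z => Nat.clog y (z.1 * z.2) = s), y ^ (s - 1) < z.1 * z.2 ∧ z.1 * z.2 ≤ y ^ s := by
      intro z hz
      rw [mem_filter] at hz
      constructor
      · rw [← hz.2]
        exact Nat.pow_pred_clog_lt_self (by omega) (hne z hz.1)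
      · rw [← hz.2]
        exact Nat.le_pow_clog (by omega) _
    have hbs : (y ^ s) * (y ^ s) < q := by
      obtain ⟨z, hz, hzs⟩ := mem_image.1 hs
      have h1 := (hsz z (mem_filter.2 ⟨hz, hzs⟩)).1
      have h2 := hX z hz
      have h3 : y ^ s = y * y ^ (s - 1) := by
        rw [← pow_succ']; congr 1; omega
      have h4 : y ^ s ≤ y * X := by
        rw [h3]
        exact Nat.mul_le_mul_left _ (by omega)
      exact lt_of_le_of_lt (Nat.mul_le_mul h4 h4) hXq
    obtain ⟨l, l1, l2, l3, l4⟩ := choose_l (q := q) y s hy2 (by omega) hbs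
    have hlr : (1 : ℝ) ≤ l := by exact_mod_cast l1
    have hsr : (2 : ℝ) ≤ s := by exact_mod_cast hs2
    have h2l : 2 * (l : ℝ) ≤ 2 * Real.log q := by
      have h5 : 2 * Real.log y * (s * l) ≥ 1 * l := by
        have h6 : (1 : ℝ) ≤ 2 * Real.log y * s := by
          have := Real.log_two_gt_d9
          nlinarith
        calc 2 * Real.log y * (s * l) = (2 * Real.log y * s) * l := by ring
          _ ≥ 1 * l := mul_le_mul_of_nonneg_right h6 (by positivity)
      linarith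
    have h7 := class_sum G γ hγ (R.filter (fun z => Nat.clog y (z.1 * z.2) = s)) w (fun z _ => hw0 z)
      (fun z hz => hpos z (mem_filter.1 hz).1) (fun z hz => hcop z (mem_filter.1 hz).1)
      (fun z hz => hG z (mem_filter.1 hz).1) y s l hy2 (by omega) l1 hsz l2 (1 / 4) (by
        intro z hz
        rw [mem_filter] at hz
        have hzp := hpos z hz.1
        have h8 : ∀ n : ℕ, 0 < n → n.primeFactors ⊆ I →
            rs n * (c * (2 * l)) ^ (ArithmeticFunction.cardFactors n) * 1 ^ (n.primeFactors ∩ I).card ≤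
              (n : ℝ) ^ (-(1 / 4) : ℝ) := by
          intro n hn hnI
          apply wt_bound I (c * (2 * l)) 1 (1 / 4) (by positivity) le_rfl n hn
          intro p hp
          have hpI := hI p (hnI hp)
          have hp0 : (0 : ℝ) < p := by exact_mod_cast hpI.1.pos
          have h9 : c * (2 * l) * rs p ≤ (p : ℝ) ^ (-(1 / 4) : ℝ) := by
            have e1 : rs p = (p : ℝ) ^ (-(1 / 4) : ℝ) * (p : ℝ) ^ (-(1 / 4) : ℝ) := by
              rw [← Real.rpow_add hp0]
              unfold rs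
              rw [Real.sqrt_eq_rpow, ← Real.rpow_neg hp0.le]
              norm_num
            have e2 : c * (2 * l) ≤ (p : ℝ) ^ (1 / 4 : ℝ) := by
              calc c * (2 * l) ≤ c * (2 * Real.log q) := mul_le_mul_of_nonneg_left h2l (by linarith)
                _ ≤ (y : ℝ) ^ (1 / 4 : ℝ) := hcy
                _ ≤ (p : ℝ) ^ (1 / 4 : ℝ) := Real.rpow_le_rpow hy0.le (by exact_mod_cast hpI.2.le) (by norm_num)
            rw [e1, ← mul_assoc]
            have e3 : (p : ℝ) ^ (1 / 4 : ℝ) * (p : ℝ) ^ (-(1 / 4) : ℝ) = 1 := by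
              rw [← Real.rpow_add hp0]; norm_num
            calc c * (2 * l) * (p : ℝ) ^ (-(1 / 4) : ℝ) * (p : ℝ) ^ (-(1 / 4) : ℝ) ≤
                ((p : ℝ) ^ (1 / 4 : ℝ) * (p : ℝ) ^ (-(1 / 4) : ℝ)) * (p : ℝ) ^ (-(1 / 4) : ℝ) := by
                  apply mul_le_mul_of_nonneg_right _ (by positivity)
                  exact mul_le_mul_of_nonneg_right e2 (by positivity)
              _ = _ := by rw [e3, one_mul]
          exact ⟨fun _ => by rw [one_mul]; exact h9, h9⟩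
        have h10 := h8 z.1 hzp.1 (hRI z hz.1).1
        have h11 := h8 z.2 hzp.2 (hRI z hz.1).2
        rw [one_pow, mul_one] at h10 h11
        rw [Nat.cast_mul, Real.mul_rpow (Nat.cast_nonneg _) (Nat.cast_nonneg _)]
        have h12 := mul_le_mul h10 h11 (by have := rs_nonneg z.2; positivity) (by positivity)
        calc w z * (2 * l : ℝ) ^ (ArithmeticFunction.cardFactors z.1 + ArithmeticFunction.cardFactors z.2) =
            rs z.1 * (c * (2 * l)) ^ ArithmeticFunction.cardFactors z.1 *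
              (rs z.2 * (c * (2 * l)) ^ ArithmeticFunction.cardFactors z.2) := by
              rw [hw]
              simp only [mul_pow, pow_add]
              ring
          _ ≤ _ := h12) g (by
        have h13 : (0 : ℝ) < 4 * Real.log y := by positivity
        have h14 : γ * (4 * Real.log y) ≤ (g * s * l) * (4 * Real.log y) := by
          refine hg.trans ?_
          calc g * Real.log q ≤ g * (4 * Real.log y * (s * l)) := mul_le_mul_of_nonneg_left l3 hg0
            _ = _ := by ring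
        exact le_of_mul_le_mul_right h14 h13)
    refine h7.trans ?_
    have h15 : max ((y : ℝ) ^ (-(1 / 4 : ℝ) * ((s : ℝ) - 1))) ((y : ℝ) ^ (-(1 / 4 : ℝ) * s)) =
        (y : ℝ) ^ (-(1 / 4 : ℝ) * ((s : ℝ) - 1)) := by
      apply max_eq_left
      apply Real.rpow_le_rpow_of_exponent_le hy1.le
      linarith
    rw [h15]
    have h16 : (y : ℝ) ^ (-(1 / 4 : ℝ) * ((s : ℝ) - 1)) = ((y : ℝ) ^ (-(1 / 4) : ℝ)) ^ (s - 1) := by
      rw [← Real.rpow_natCast, ← Real.rpow_mul hy0.le, Nat.cast_sub (by omega), Nat.cast_one]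
    have h17 : Real.exp (g * s) = Real.exp g * Real.exp g ^ (s - 1) := by
      rw [← pow_succ', ← Real.exp_nat_mul]
      congr 1
      rw [show s - 1 + 1 = s by omega]
      ring
    rw [h16, h17, hρ, mul_pow]
    apply le_of_eq; ring
  -- summation
  have hρs : ρ * (8 * Real.exp g) ≤ 1 := by
    have e1 : (y : ℝ) ^ (1 / 4 : ℝ) * (y : ℝ) ^ (-(1 / 4) : ℝ) = 1 := by
      rw [← Real.rpow_add hy0]; norm_num
    calc ρ * (8 * Real.exp g) = (8 * Real.exp (2 * g)) * (y : ℝ) ^ (-(1 / 4) : ℝ) := by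
          rw [hρ, show (2 : ℝ) * g = g + g by ring, Real.exp_add]; ring
      _ ≤ (y : ℝ) ^ (1 / 4 : ℝ) * (y : ℝ) ^ (-(1 / 4) : ℝ) := mul_le_mul_of_nonneg_right hg2 (by positivity)
      _ = 1 := e1
  have hge : 1 ≤ Real.exp g := Real.one_le_exp hg0
  have hρ2 : ρ ≤ 1 / 2 := by nlinarith
  rw [← Finset.sum_fiberwise_of_maps_to hmap]
  refine (Finset.sum_le_sum hclass).trans ?_
  rw [← Finset.mul_sum]
  have h20 : ∑ s ∈ S, ρ ^ (s - 1) ≤ 2 * ρ := geo_sum S hS2 hρ0.le hρ2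
  calc Real.exp g * ∑ s ∈ S, ρ ^ (s - 1) ≤ Real.exp g * (2 * ρ) := mul_le_mul_of_nonneg_left h20 (by positivity)
    _ = (ρ * (8 * Real.exp g)) / 4 := by ring
    _ ≤ 1 / 4 := by linarith

end Pool.Agent.K4H20.TC
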