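import Mathlib
import Pool.Agent.K4H20.TC.T2

/-! All relations between integers without small prime factors. -/

set_option autoImplicit false

namespace Pool.Agent.K4H20.TC
open Finset Pool.Agent.R311.RES Pool.Agent.K4H49.AC
open scoped Classical

variable {q : ℕ} [Fact q.Prime]

/-- the relations in which all primes exceed `z` -/
theorem den_total (G : Subgroup (ZMod q)ˣ) (γ : ℝ) (hγ : (Fintype.card G : ℝ) ≤ Real.exp γ)
    (I : Finset ℕ) (z y : ℕ) (hz2 : 2 ≤ z) (hI : ∀ p ∈ I, p.Prime ∧ y < p) (R : Finset (ℕ × ℕ))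
    (hpos : ∀ r ∈ R, 0 < r.1 ∧ 0 < r.2) (hcop : ∀ r ∈ R, Nat.Coprime r.1 r.2)
    (hG : ∀ r ∈ R, un q r.1 * (un q r.2)⁻¹ ∈ G) (hne : ∀ r ∈ R, 1 < r.1 * r.2)
    (hRz : ∀ r ∈ R, ∀ p : ℕ, p.Prime → p ∣ r.1 * r.2 → z < p)
    (X : ℕ) (hX : ∀ r ∈ R, r.1 * r.2 ≤ X) (hXq : (z * X) * (z * X) < q)
    (c : ℝ) (hc : 1 ≤ c) (hcy : c * (2 * Real.log q) ≤ (y : ℝ) ^ (1 / 4 : ℝ))
    (g : ℝ) (hg0 : 0 ≤ g) (hg : γ * (4 * Real.log z) ≤ g * Real.log q)
    (hg2 : Real.exp g ≤ (z : ℝ) ^ (1 / 4 : ℝ)) (X0 : ℝ) (hX0 : Real.log q ≤ X0 * (Real.sqrt z * Real.log z)) :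
    ∑ r ∈ R, rs r.1 * rs r.2 * c ^ (r.1.primeFactors ∩ I).card ≤
      ((Nat.clog z X : ℝ) + 1) * Real.exp (g + g * (X0 * Real.exp g) + X0) := by
  have hq : q.Prime := Fact.out
  have hq1 : (1 : ℝ) < q := by exact_mod_cast hq.one_lt
  have hLq : 0 < Real.log q := Real.log_pos hq1
  have hz0 : (0 : ℝ) < z := by exact_mod_cast (by omega : 0 < z)
  have hz1 : (1 : ℝ) < z := by exact_mod_cast (by omega : 1 < z)
  have hlz : 0 < Real.log z := Real.log_pos hz1
  have hlz2 : Real.log 2 ≤ Real.log z := Real.log_le_log (by norm_num) (by exact_mod_cast hz2)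
  have hsz0 : 0 < Real.sqrt z := Real.sqrt_pos.2 hz0
  have hX00 : 0 < X0 := by
    by_contra h
    have : X0 * (Real.sqrt z * Real.log z) ≤ 0 := mul_nonpos_of_nonpos_of_nonneg (not_lt.1 h) (by positivity)
    linarith
  set w : ℕ × ℕ → ℝ := fun r => rs r.1 * rs r.2 * c ^ (r.1.primeFactors ∩ I).card with hw
  have hw0 : ∀ r, 0 ≤ w r := fun r => by
    have := rs_nonneg r.1
    have := rs_nonneg r.2
    positivity
  set E : ℝ := g + g * (X0 * Real.exp g) + X0 with hE
  have hgX : 0 ≤ g * (X0 * Real.exp g) := by positivity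
  set S := R.image (fun r => Nat.clog z (r.1 * r.2)) with hS
  have hmap : ∀ r ∈ R, Nat.clog z (r.1 * r.2) ∈ S := fun r hr => mem_image_of_mem _ hr
  have hS1 : ∀ s ∈ S, 1 ≤ s := by
    intro s hs
    obtain ⟨r, hr, rfl⟩ := mem_image.1 hs
    exact Nat.clog_pos (by omega) (hne r hr)
  have hclass : ∀ s ∈ S, ∑ r ∈ R.filter (fun r => Nat.clog z (r.1 * r.2) = s), w r ≤ Real.exp E := by
    intro s hs
    have hs1 := hS1 s hs
    have hsz : ∀ r ∈ R.filter (fun r => Nat.clog z (r.1 * r.2) = s), z ^ (s - 1) < r.1 * r.2 ∧ r.1 * r.2 ≤ z ^ s := by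
      intro r hr
      rw [mem_filter] at hr
      constructor
      · rw [← hr.2]
        exact Nat.pow_pred_clog_lt_self (by omega) (hne r hr.1)
      · rw [← hr.2]
        exact Nat.le_pow_clog (by omega) _
    have hbs : (z ^ s) * (z ^ s) < q := by
      obtain ⟨r, hr, hrs⟩ := mem_image.1 hs
      have h1 := (hsz r (mem_filter.2 ⟨hr, hrs⟩)).1
      have h2 := hX r hr
      have h3 : z ^ s = z * z ^ (s - 1) := by
        rw [← pow_succ']; congr 1; omega
      have h4 : z ^ s ≤ z * X := by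
        rw [h3]
        exact Nat.mul_le_mul_left _ (by omega)
      exact lt_of_le_of_lt (Nat.mul_le_mul h4 h4) hXq
    obtain ⟨l, l1, l2, l3, l4⟩ := choose_l (q := q) z s hz2 hs1 hbs
    have hlr : (1 : ℝ) ≤ l := by exact_mod_cast l1
    have hsr : (1 : ℝ) ≤ s := by exact_mod_cast hs1
    have hs0 : (0 : ℝ) < s := by linarith
    have h2l : 2 * (l : ℝ) ≤ 2 * Real.log q := by
      have h6 : (1 : ℝ) ≤ 2 * Real.log z * s := by
        have := Real.log_two_gt_d9
        nlinarith
      have h5 : 1 * (l : ℝ) ≤ 2 * Real.log z * (s * l) := by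
        calc 1 * (l : ℝ) ≤ (2 * Real.log z * s) * l := mul_le_mul_of_nonneg_right h6 (by positivity)
          _ = _ := by ring
      linarith
    set β : ℝ := max ((z : ℝ) ^ (-(1 / 4) : ℝ)) (2 * l / Real.sqrt z) with hβ
    have hβ0 : 0 < β := lt_max_of_lt_left (Real.rpow_pos_of_pos hz0 _)
    set lam : ℝ := -(Real.log β / Real.log z) with hlam
    have hzl : (z : ℝ) ^ (-lam) = β := by
      rw [hlam, neg_neg, Real.rpow_def_of_pos hz0, mul_div_cancel₀ _ hlz.ne', Real.exp_log hβ0]
    have hlam4 : lam ≤ 1 / 4 := by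
      have h1 : (z : ℝ) ^ (-(1 / 4) : ℝ) ≤ (z : ℝ) ^ (-lam) := by rw [hzl]; exact le_max_left _ _
      have h2 := (Real.rpow_le_rpow_left_iff hz1).1 h1
      linarith
    have hp1 : ∀ p : ℕ, z < p → 2 * (l : ℝ) * rs p ≤ (p : ℝ) ^ (-lam) := by
      intro p hp
      have hp0 : (0 : ℝ) < p := by exact_mod_cast (by omega : 0 < p)
      have e1 : rs p = (p : ℝ) ^ (-(1 / 2) : ℝ) := by
        unfold rs
        rw [Real.sqrt_eq_rpow, ← Real.rpow_neg hp0.le]
      have e2 : 2 * (l : ℝ) ≤ (z : ℝ) ^ (1 / 2 - lam) := by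
        have h1 : 2 * (l : ℝ) / Real.sqrt z ≤ β := le_max_right _ _
        rw [div_le_iff₀ hsz0] at h1
        calc 2 * (l : ℝ) ≤ β * Real.sqrt z := h1
          _ = (z : ℝ) ^ (1 / 2 - lam) := by
              rw [← hzl, Real.sqrt_eq_rpow, ← Real.rpow_add hz0]; congr 1; ring
      have e3 : (z : ℝ) ^ (1 / 2 - lam) ≤ (p : ℝ) ^ (1 / 2 - lam) :=
        Real.rpow_le_rpow hz0.le (by exact_mod_cast hp.le) (by linarith)
      calc 2 * (l : ℝ) * rs p ≤ (p : ℝ) ^ (1 / 2 - lam) * (p : ℝ) ^ (-(1 / 2) : ℝ) := by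
            rw [e1]
            exact mul_le_mul_of_nonneg_right (e2.trans e3) (by positivity)
        _ = _ := by rw [← Real.rpow_add hp0]; congr 1; ring
    have hp2 : ∀ p ∈ I, c * (2 * (l : ℝ)) * rs p ≤ (p : ℝ) ^ (-lam) := by
      intro p hp
      have hpI := hI p hp
      have hp0 : (0 : ℝ) < p := by exact_mod_cast hpI.1.pos
      have hp1' : (1 : ℝ) ≤ p := by exact_mod_cast hpI.1.one_lt.le
      have e1 : rs p = (p : ℝ) ^ (-(1 / 2) : ℝ) := by
        unfold rs
        rw [Real.sqrt_eq_rpow, ← Real.rpow_neg hp0.le]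
      have e2 : c * (2 * l) ≤ (p : ℝ) ^ (1 / 4 : ℝ) := by
        calc c * (2 * l) ≤ c * (2 * Real.log q) := mul_le_mul_of_nonneg_left h2l (by linarith)
          _ ≤ (y : ℝ) ^ (1 / 4 : ℝ) := hcy
          _ ≤ (p : ℝ) ^ (1 / 4 : ℝ) := Real.rpow_le_rpow (Nat.cast_nonneg _) (by exact_mod_cast hpI.2.le) (by norm_num)
      calc c * (2 * (l : ℝ)) * rs p ≤ (p : ℝ) ^ (1 / 4 : ℝ) * (p : ℝ) ^ (-(1 / 2) : ℝ) := by
            rw [e1]
            exact mul_le_mul_of_nonneg_right e2 (by positivity)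
        _ = (p : ℝ) ^ (-(1 / 4) : ℝ) := by rw [← Real.rpow_add hp0]; congr 1; norm_num
        _ ≤ _ := Real.rpow_le_rpow_of_exponent_le hp1' (by linarith)
    have h7 := class_sum G γ hγ (R.filter (fun r => Nat.clog z (r.1 * r.2) = s)) w (fun r _ => hw0 r)
      (fun r hr => hpos r (mem_filter.1 hr).1) (fun r hr => hcop r (mem_filter.1 hr).1)
      (fun r hr => hG r (mem_filter.1 hr).1) z s l hz2 hs1 l1 hsz l2 lam (by
        intro r hr
        rw [mem_filter] at hr
        have hzp := hpos r hr.1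
        have h8 : ∀ n : ℕ, 0 < n → n ∣ r.1 * r.2 →
            rs n * (2 * (l : ℝ)) ^ (ArithmeticFunction.cardFactors n) * c ^ (n.primeFactors ∩ I).card ≤
              (n : ℝ) ^ (-lam) := by
          intro n hn hnI
          apply wt_bound I (2 * (l : ℝ)) c lam (by positivity) hc n hn
          intro p hp
          have hp' := Nat.mem_primeFactors.1 hp
          have hzp' := hRz r hr.1 p hp'.1 (hp'.2.1.trans hnI)
          exact ⟨fun hpI => hp2 p hpI, hp1 p hzp'⟩
        have h10 := h8 r.1 hzp.1 (dvd_mul_right _ _)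
        have h11 := h8 r.2 hzp.2 (dvd_mul_left _ _)
        have r2 := rs_nonneg r.2
        have r1 := rs_nonneg r.1
        have h11' : rs r.2 * (2 * (l : ℝ)) ^ (ArithmeticFunction.cardFactors r.2) ≤ (r.2 : ℝ) ^ (-lam) := by
          refine le_trans ?_ h11
          exact le_mul_of_one_le_right (by positivity) (one_le_pow₀ hc)
        rw [Nat.cast_mul, Real.mul_rpow (Nat.cast_nonneg _) (Nat.cast_nonneg _)]
        have h12 := mul_le_mul h10 h11' (by positivity) (by positivity)
        calc w r * (2 * l : ℝ) ^ (ArithmeticFunction.cardFactors r.1 + ArithmeticFunction.cardFactors r.2) =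
            rs r.1 * (2 * (l : ℝ)) ^ ArithmeticFunction.cardFactors r.1 * c ^ (r.1.primeFactors ∩ I).card *
              (rs r.2 * (2 * (l : ℝ)) ^ ArithmeticFunction.cardFactors r.2) := by
              rw [hw]
              simp only [pow_add]
              ring
          _ ≤ _ := h12) g (by
        have h13 : (0 : ℝ) < 4 * Real.log z := by positivity
        have h14 : γ * (4 * Real.log z) ≤ (g * s * l) * (4 * Real.log z) := by
          refine hg.trans ?_
          calc g * Real.log q ≤ g * (4 * Real.log z * (s * l)) := mul_le_mul_of_nonneg_left l3 hg0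
            _ = _ := by ring
        exact le_of_mul_le_mul_right h14 h13)
    refine h7.trans ?_
    have e1 : (z : ℝ) ^ (-lam * ((s : ℝ) - 1)) = β ^ (s - 1) := by
      rw [Real.rpow_mul hz0.le, hzl, ← Real.rpow_natCast, Nat.cast_sub hs1, Nat.cast_one]
    have e2 : (z : ℝ) ^ (-lam * (s : ℝ)) = β ^ s := by
      rw [Real.rpow_mul hz0.le, hzl, Real.rpow_natCast]
    rw [e1, e2]
    rcases le_or_gt β (Real.exp (-g)) with hβ1 | hβ1
    · have hβ1' : β ≤ 1 := hβ1.trans (Real.exp_le_one_iff.2 (by linarith))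
      have h20 : max (β ^ (s - 1)) (β ^ s) ≤ Real.exp (-g) ^ (s - 1) := by
        apply max_le
        · exact pow_le_pow_left₀ hβ0.le hβ1 _
        · exact (pow_le_pow_of_le_one hβ0.le hβ1' (by omega)).trans (pow_le_pow_left₀ hβ0.le hβ1 _)
      calc Real.exp (g * s) * max (β ^ (s - 1)) (β ^ s) ≤ Real.exp (g * s) * Real.exp (-g) ^ (s - 1) :=
            mul_le_mul_of_nonneg_left h20 (Real.exp_pos _).le
        _ = Real.exp g := by
            rw [← Real.exp_nat_mul, ← Real.exp_add, Nat.cast_sub hs1, Nat.cast_one]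
            congr 1; ring
        _ ≤ Real.exp E := Real.exp_le_exp.2 (by rw [hE]; linarith)
    · have h21 : Real.exp (-g) < 2 * l / Real.sqrt z := by
        rcases max_choice ((z : ℝ) ^ (-(1 / 4) : ℝ)) (2 * l / Real.sqrt z) with h | h
        · exfalso
          have h22 : β ≤ Real.exp (-g) := by
            rw [hβ, h, Real.rpow_neg hz0.le, Real.exp_neg]
            exact inv_anti₀ (Real.exp_pos _) hg2
          linarith
        · rw [hβ, h] at hβ1
          exact hβ1
      have h23 : 2 * l / Real.sqrt z ≤ X0 / s := by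
        rw [div_le_div_iff₀ hsz0 hs0]
        have h24 : 2 * (l : ℝ) * s * Real.log z ≤ (X0 * Real.sqrt z) * Real.log z := by
          calc 2 * (l : ℝ) * s * Real.log z = 2 * Real.log z * (s * l) := by ring
            _ ≤ Real.log q := l4
            _ ≤ X0 * (Real.sqrt z * Real.log z) := hX0
            _ = _ := by ring
        exact le_of_mul_le_mul_right h24 hlz
      have h25 : (s : ℝ) ≤ X0 * Real.exp g := by
        have h26 : Real.exp (-g) ≤ X0 / s := h21.le.trans h23
        rw [le_div_iff₀ hs0, Real.exp_neg] at h26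
        have h27 : (Real.exp g)⁻¹ * s * Real.exp g ≤ X0 * Real.exp g :=
          mul_le_mul_of_nonneg_right h26 (Real.exp_pos _).le
        have h28 : (Real.exp g)⁻¹ * s * Real.exp g = s := by
          have := (Real.exp_pos g).ne'
          field_simp
        rw [h28] at h27
        exact h27
      have h29 : β ≤ Real.exp (X0 / s) := by
        rw [hβ]
        apply max_le
        · have h30 : (z : ℝ) ^ (-(1 / 4) : ℝ) ≤ 1 := Real.rpow_le_one_of_one_le_of_nonpos hz1.le (by norm_num)
          exact h30.trans (Real.one_le_exp (by positivity))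
        · refine h23.trans ?_
          have := Real.add_one_le_exp (X0 / s)
          linarith
      have h31 : 1 ≤ Real.exp (X0 / s) := Real.one_le_exp (by positivity)
      have h32 : max (β ^ (s - 1)) (β ^ s) ≤ Real.exp (X0 / s) ^ s := by
        apply max_le
        · exact (pow_le_pow_left₀ hβ0.le h29 _).trans (pow_le_pow_right₀ h31 (by omega))
        · exact pow_le_pow_left₀ hβ0.le h29 _
      have h33 : Real.exp (X0 / s) ^ s = Real.exp X0 := by
        rw [← Real.exp_nat_mul]; congr 1; field_simp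
      rw [h33] at h32
      calc Real.exp (g * s) * max (β ^ (s - 1)) (β ^ s) ≤ Real.exp (g * s) * Real.exp X0 :=
            mul_le_mul_of_nonneg_left h32 (Real.exp_pos _).le
        _ = Real.exp (g * s + X0) := (Real.exp_add _ _).symm
        _ ≤ Real.exp E := by
            apply Real.exp_le_exp.2
            have := mul_le_mul_of_nonneg_left h25 hg0
            rw [hE]; linarith
  rw [← Finset.sum_fiberwise_of_maps_to hmap]
  refine (Finset.sum_le_sum hclass).trans ?_
  rw [Finset.sum_const, nsmul_eq_mul]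
  apply mul_le_mul_of_nonneg_right _ (Real.exp_pos _).le
  have h40 : S ⊆ range (Nat.clog z X + 1) := by
    intro s hs
    obtain ⟨r, hr, rfl⟩ := mem_image.1 hs
    rw [mem_range, Nat.lt_succ_iff]
    exact Nat.clog_mono_right _ (hX r hr)
  have h41 := card_le_card h40
  rw [card_range] at h41
  exact_mod_cast h41

end Pool.Agent.K4H20.TC
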