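import Mathlib
import Pool.Agent.K4H20.TC.T3

/-! The mollifier which removes the small primes exactly. -/

set_option autoImplicit false

namespace Pool.Agent.K4H20.TC
open Finset Pool.Agent.R311.RES Pool.Agent.K4H49.AC
open scoped Classical

/-- the primes up to `z` -/
noncomputable def Pz (z : ℕ) : Finset ℕ := (Icc 1 z).filter Nat.Prime

lemma mem_Pz {z p : ℕ} : p ∈ Pz z ↔ p.Prime ∧ p ≤ z := by
  rw [Pz, mem_filter, mem_Icc]
  constructor
  · rintro ⟨⟨_, h1⟩, h2⟩; exact ⟨h2, h1⟩
  · rintro ⟨h1, h2⟩; exact ⟨⟨h1.one_lt.le, h2⟩, h1⟩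

/-- the exact mollifier for the small primes -/
noncomputable def BB (q z : ℕ) (χ : DirichletCharacter ℂ q) : ℂ :=
  ∑ T ∈ (Pz z).powerset, (((-1 : ℝ) ^ T.card * rs (ms T) : ℝ) : ℂ) * χ (ui q T : ZMod q)

lemma rs_ms (T : Finset ℕ) : rs (ms T) = ∏ p ∈ T, rs p := by
  induction T using Finset.induction_on with
  | empty => simp [ms, rs]
  | insert p T hp ih =>
    have h3 : ms (insert p T) = p * ms T := Finset.prod_insert hp
    rw [h3, rs_mul, ih, Finset.prod_insert hp]

lemma sum_rs_ms (P : Finset ℕ) : ∑ T ∈ P.powerset, rs (ms T) = ∏ p ∈ P, (1 + rs p) := by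
  rw [Finset.prod_one_add]
  apply Finset.sum_congr rfl
  intro T _
  exact rs_ms T

lemma BB_norm (q z : ℕ) (χ : DirichletCharacter ℂ q) : ‖BB q z χ‖ ≤ ∏ p ∈ Pz z, (1 + rs p) := by
  rw [← sum_rs_ms]
  unfold BB
  refine (norm_sum_le _ _).trans (Finset.sum_le_sum fun T _ => ?_)
  rw [norm_mul, Complex.norm_real, Real.norm_eq_abs, abs_mul, abs_pow, abs_neg, abs_one, one_pow, one_mul,
    abs_of_nonneg (rs_nonneg _)]
  calc rs (ms T) * ‖χ (ui q T : ZMod q)‖ ≤ rs (ms T) * 1 :=
        mul_le_mul_of_nonneg_left (DirichletCharacter.norm_le_one χ _) (rs_nonneg _)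
    _ = _ := mul_one _

variable {q : ℕ} [Fact q.Prime]

/-- the coefficients of `L` times the mollifiers -/
noncomputable def CB (q : ℕ) (I : Finset ℕ) (z Y : ℕ) (u : (ZMod q)ˣ) : ℂ :=
  ∑ T ∈ (Pz z).powerset, (((-1 : ℝ) ^ T.card * rs (ms T) : ℝ) : ℂ) * CC q (I ∪ Pz z) Y (u * (ui q T)⁻¹)

theorem product_eq' (I : Finset ℕ) (z k k' Y : ℕ) (χ : DirichletCharacter ℂ q) :
    DirichletCharacter.LFunction χ (1 / 2) *
      ((BB q z χ * (MM q (I ∪ Pz z) Y χ * RR q I k χ)) * (starRingEnd ℂ) (RR q I k' χ)) =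
    Wf (WW q I k k' (CB q I z Y)) χ := by
  have h0 : DirichletCharacter.LFunction χ (1 / 2) = Wf (hzv q) χ := by
    rw [L_half]
    unfold Wf
    apply Finset.sum_congr rfl
    intro u _
    ring
  have h1 : MM q (I ∪ Pz z) Y χ * Wf (hzv q) χ = Wf (CC q (I ∪ Pz z) Y) χ := by
    unfold MM
    rw [conv_mul (AA (I ∪ Pz z) Y) (fun a => ((((ArithmeticFunction.moebius a : ℤ) : ℝ) * rs a : ℝ) : ℂ)) (un q)]
    rfl
  have h1' : BB q z χ * Wf (CC q (I ∪ Pz z) Y) χ = Wf (CB q I z Y) χ := by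
    unfold BB
    rw [conv_mul (Pz z).powerset (fun T => (((-1 : ℝ) ^ T.card * rs (ms T) : ℝ) : ℂ)) (ui q)]
    rfl
  have h2 : RR q I k χ * Wf (CB q I z Y) χ =
      Wf (fun g => ∑ S ∈ powersetCard k I, ((rs (ms S) : ℝ) : ℂ) * CB q I z Y (g * (ui q S)⁻¹)) χ := by
    unfold RR
    rw [conv_mul (powersetCard k I) (fun S => ((rs (ms S) : ℝ) : ℂ)) (ui q)]
  have h3 := conv_conj (powersetCard k' I) (fun S => rs (ms S)) (ui q)
    (fun g => ∑ S ∈ powersetCard k I, ((rs (ms S) : ℝ) : ℂ) * CB q I z Y (g * (ui q S)⁻¹)) χ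
  calc _ = (starRingEnd ℂ) (RR q I k' χ) * (RR q I k χ * (BB q z χ * (MM q (I ∪ Pz z) Y χ * Wf (hzv q) χ))) := by
        rw [h0]; ring
    _ = _ := by
        rw [h1, h1', h2]
        exact h3

/-- **The coefficients of `L` times the mollifiers.** -/
theorem CB_approx (I : Finset ℕ) (z Y : ℕ) (hI : ∀ p ∈ I, p.Prime ∧ z < p)
    (hzY : ∀ T ⊆ Pz z, ms T * Y < q) (hY1 : 1 ≤ Y) (e0 : ℝ)
    (he : ∀ v : ℕ, Y < v → v < q → (v.divisors.card : ℝ) * rs v + 4 * Y * rs q ≤ e0)
    (he' : 4 * Y * rs q ≤ e0) (u : (ZMod q)ˣ) :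
    ‖CB q I z Y u - ((CS q I Y u : ℝ) : ℂ)‖ ≤ (2 ^ (Pz z).card + 1) * e0 := by
  have hq : q.Prime := Fact.out
  have : NeZero q := ⟨hq.pos.ne'⟩
  have he00 : 0 ≤ e0 := by
    have := rs_nonneg q
    refine le_trans ?_ he'
    positivity
  set v := (u : ZMod q).val with hv
  have hv0 : 0 < v := val_pos u
  have hvq : v < q := ZMod.val_lt _
  have hTp : ∀ T ⊆ Pz z, ∀ p ∈ T, p.Prime := fun T hT p hp => (mem_Pz.1 (hT hp)).1
  have hYq : Y < q := by
    have := hzY ∅ (empty_subset _)
    simpa [ms] using this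
  have hI' : ∀ p ∈ I ∪ Pz z, p.Prime := by
    intro p hp
    rcases mem_union.1 hp with h | h
    · exact (hI p h).1
    · exact (mem_Pz.1 h).1
  have hmsq : ∀ T ⊆ Pz z, ms T < q := fun T hT =>
    lt_of_le_of_lt (Nat.le_mul_of_pos_right _ hY1) (hzY T hT)
  have hee : ∀ u' : (ZMod q)ˣ, ‖CC q (I ∪ Pz z) Y u' - ((CS q (I ∪ Pz z) Y u' : ℝ) : ℂ)‖ ≤ e0 := by
    intro u'
    refine (CC_approx (I ∪ Pz z) hI' Y hYq u').trans ?_
    by_cases h : Y < (u' : ZMod q).val
    · rw [if_pos h]
      exact he _ h (ZMod.val_lt _)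
    · rw [if_neg h, zero_add]
      exact he'
  -- first step
  set S2 : ℝ := ∑ T ∈ (Pz z).powerset, (-1 : ℝ) ^ T.card * rs (ms T) * CS q (I ∪ Pz z) Y (u * (ui q T)⁻¹) with hS2
  have b1 : ‖CB q I z Y u - ((S2 : ℝ) : ℂ)‖ ≤ 2 ^ (Pz z).card * e0 := by
    unfold CB
    rw [hS2, Complex.ofReal_sum, ← Finset.sum_sub_distrib]
    refine (norm_sum_le _ _).trans ?_
    have e : ∀ T ∈ (Pz z).powerset, ‖(((-1 : ℝ) ^ T.card * rs (ms T) : ℝ) : ℂ) * CC q (I ∪ Pz z) Y (u * (ui q T)⁻¹) -
        (((-1 : ℝ) ^ T.card * rs (ms T) * CS q (I ∪ Pz z) Y (u * (ui q T)⁻¹) : ℝ) : ℂ)‖ ≤ e0 := by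
      intro T _
      rw [Complex.ofReal_mul ((-1 : ℝ) ^ T.card * rs (ms T)), ← mul_sub, norm_mul, Complex.norm_real,
        Real.norm_eq_abs, abs_mul, abs_pow, abs_neg, abs_one, one_pow, one_mul, abs_of_nonneg (rs_nonneg _)]
      calc _ ≤ 1 * e0 := mul_le_mul (rs_le_one _) (hee _) (norm_nonneg _) zero_le_one
        _ = _ := one_mul _
    refine (Finset.sum_le_sum e).trans ?_
    rw [Finset.sum_const, nsmul_eq_mul, card_powerset]
    push_cast
    exact le_rfl
  -- the terms
  have hterm : ∀ T ∈ (Pz z).powerset, (-1 : ℝ) ^ T.card * rs (ms T) * CS q (I ∪ Pz z) Y (u * (ui q T)⁻¹) =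
      if ms T ∣ v ∧ v ≤ ms T * Y ∧ v.primeFactors ⊆ I ∪ Pz z then (-1 : ℝ) ^ T.card * rs v else 0 := by
    intro T hT
    rw [mem_powerset] at hT
    have pT := ms_pos (hTp T hT)
    obtain ⟨d1, d2⟩ := div_val u pT (hmsq T hT)
    have hui : (u * (ui q T)⁻¹) = (u * (un q (ms T))⁻¹) := rfl
    by_cases hd : ms T ∣ v
    · have d3 := d1 hd
      rw [← hui] at d3
      set v' := ((u * (ui q T)⁻¹ : (ZMod q)ˣ) : ZMod q).val with hv'
      have hv'0 : 0 < v' := val_pos _
      have hc1 : v' ≤ Y ↔ v ≤ ms T * Y := by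
        rw [hv, ← d3]
        constructor
        · intro h; exact Nat.mul_le_mul_left _ h
        · intro h; exact Nat.le_of_mul_le_mul_left h pT
      have hc2 : v'.primeFactors ⊆ I ∪ Pz z ↔ v.primeFactors ⊆ I ∪ Pz z := by
        rw [hv, ← d3, Nat.primeFactors_mul pT.ne' hv'0.ne', ms_pf (hTp T hT)]
        constructor
        · intro h
          exact union_subset (fun p hp => mem_union_right _ (hT hp)) h
        · intro h
          exact subset_union_right.trans h
      unfold CS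
      rw [← hv']
      by_cases hc : v ≤ ms T * Y ∧ v.primeFactors ⊆ I ∪ Pz z
      · rw [if_pos ⟨hc1.2 hc.1, hc2.2 hc.2⟩, if_pos ⟨hd, hc.1, hc.2⟩, mul_assoc, ← rs_mul, d3]
      · rw [if_neg (fun h => hc ⟨hc1.1 h.1, hc2.1 h.2⟩), if_neg (fun h => hc ⟨h.2.1, h.2.2⟩), mul_zero]
    · have d3 := d2 hd
      rw [← hui] at d3
      rw [if_neg (fun h => hd h.1)]
      have h4 : ¬ ((u * (ui q T)⁻¹ : (ZMod q)ˣ) : ZMod q).val ≤ Y := by
        intro h
        have h5 := Nat.mul_le_mul_left (ms T) h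
        have h6 := hzY T hT
        omega
      unfold CS
      rw [if_neg (fun h => h4 h.1), mul_zero]
  rw [Finset.sum_congr rfl hterm] at hS2
  have b3 : |S2 - CS q I Y u| ≤ e0 := by
    by_cases hvY : v ≤ Y
    · have e1 : S2 = CS q I Y u := by
        have e2 : S2 = ∑ T ∈ (Pz z ∩ v.primeFactors).powerset,
            (if v.primeFactors ⊆ I ∪ Pz z then (-1 : ℝ) ^ T.card * rs v else 0) := by
          rw [hS2]
          have hsub : (Pz z ∩ v.primeFactors).powerset ⊆ (Pz z).powerset :=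
            powerset_mono.2 inter_subset_left
          rw [← Finset.sum_subset hsub]
          · apply Finset.sum_congr rfl
            intro T hT
            rw [mem_powerset] at hT
            have hT1 : T ⊆ Pz z := hT.trans inter_subset_left
            have hd : ms T ∣ v := by
              rw [ms_dvd_iff (hTp T hT1)]
              intro p hp
              exact (Nat.mem_primeFactors.1 (mem_inter.1 (hT hp)).2).2.1
            have hle : v ≤ ms T * Y := hvY.trans (Nat.le_mul_of_pos_left _ (ms_pos (hTp T hT1)))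
            by_cases hc : v.primeFactors ⊆ I ∪ Pz z
            · rw [if_pos ⟨hd, hle, hc⟩, if_pos hc]
            · rw [if_neg (fun h => hc h.2.2), if_neg hc]
          · intro T hT hT'
            rw [mem_powerset] at hT
            rw [if_neg]
            rintro ⟨hd, -, -⟩
            apply hT'
            rw [mem_powerset]
            intro p hp
            rw [mem_inter]
            exact ⟨hT hp, Nat.mem_primeFactors.2 ⟨hTp T hT p hp,
              ((ms_dvd_iff (hTp T hT) v).1 hd) p hp, hv0.ne'⟩⟩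
        rw [e2]
        unfold CS
        rw [← hv]
        by_cases hc : v.primeFactors ⊆ I ∪ Pz z
        · simp only [if_pos hc]
          rw [← Finset.sum_mul]
          have e3 : ∑ T ∈ (Pz z ∩ v.primeFactors).powerset, (-1 : ℝ) ^ T.card =
              if Pz z ∩ v.primeFactors = ∅ then 1 else 0 := by
            have := Finset.sum_powerset_neg_one_pow_card (x := Pz z ∩ v.primeFactors)
            have h' : ((∑ T ∈ (Pz z ∩ v.primeFactors).powerset, (-1 : ℤ) ^ T.card : ℤ) : ℝ) =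
                ((if Pz z ∩ v.primeFactors = ∅ then 1 else 0 : ℤ) : ℝ) := by rw [this]
            push_cast at h'
            exact h'
          rw [e3]
          by_cases h0 : Pz z ∩ v.primeFactors = ∅
          · rw [if_pos h0, one_mul, if_pos]
            refine ⟨hvY, fun p hp => ?_⟩
            rcases mem_union.1 (hc hp) with h | h
            · exact h
            · exfalso
              have : p ∈ Pz z ∩ v.primeFactors := mem_inter.2 ⟨h, hp⟩
              rw [h0] at this
              exact absurd this (notMem_empty _)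
          · rw [if_neg h0, zero_mul, if_neg]
            rintro ⟨-, h⟩
            obtain ⟨p, hp⟩ := nonempty_iff_ne_empty.2 h0
            rw [mem_inter] at hp
            have h1 := (hI p (h hp.2)).2
            have h2 := (mem_Pz.1 hp.1).2
            omega
        · simp only [if_neg hc]
          rw [Finset.sum_const_zero, if_neg]
          rintro ⟨-, h⟩
          exact hc (h.trans subset_union_left)
      rw [e1, sub_self, abs_zero]
      exact he00
    · have e1 : CS q I Y u = 0 := by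
        unfold CS
        rw [if_neg (fun h => hvY h.1)]
      rw [e1, sub_zero, hS2]
      refine (Finset.abs_sum_le_sum_abs _ _).trans ?_
      have e : ∀ T ∈ (Pz z).powerset, |(if ms T ∣ v ∧ v ≤ ms T * Y ∧ v.primeFactors ⊆ I ∪ Pz z then
          (-1 : ℝ) ^ T.card * rs v else 0)| ≤ if ms T ∣ v then rs v else 0 := by
        intro T _
        by_cases h : ms T ∣ v
        · rw [if_pos h]
          split_ifs
          · rw [abs_mul, abs_pow, abs_neg, abs_one, one_pow, one_mul, abs_of_nonneg (rs_nonneg _)]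
          · rw [abs_zero]; exact rs_nonneg _
        · rw [if_neg h, if_neg (fun h' => h h'.1), abs_zero]
      refine (Finset.sum_le_sum e).trans ?_
      rw [← Finset.sum_filter, Finset.sum_const, nsmul_eq_mul]
      have h1 : ((Pz z).powerset.filter (fun T => ms T ∣ v)).card ≤ v.divisors.card := by
        apply Finset.card_le_card_of_injOn ms
        · intro T hT
          rw [Finset.mem_coe, mem_filter] at hT
          rw [Finset.mem_coe, Nat.mem_divisors]
          exact ⟨hT.2, hv0.ne'⟩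
        · intro T hT T' hT' h
          rw [Finset.mem_coe, mem_filter, mem_powerset] at hT hT'
          exact ms_inj (hTp T hT.1) (hTp T' hT'.1) h
      have h2 : (((Pz z).powerset.filter (fun T => ms T ∣ v)).card : ℝ) ≤ v.divisors.card := by exact_mod_cast h1
      have h3 := he v (by omega) hvq
      have h4 : 0 ≤ 4 * (Y : ℝ) * rs q := by
        have := rs_nonneg q
        positivity
      have h5 := mul_le_mul_of_nonneg_right h2 (rs_nonneg v)
      linarith
  have b4 : ‖((S2 : ℝ) : ℂ) - ((CS q I Y u : ℝ) : ℂ)‖ ≤ e0 := by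
    rw [← Complex.ofReal_sub, Complex.norm_real, Real.norm_eq_abs]
    exact b3
  have b5 : ‖CB q I z Y u - ((CS q I Y u : ℝ) : ℂ)‖ ≤ ‖CB q I z Y u - ((S2 : ℝ) : ℂ)‖ +
      ‖((S2 : ℝ) : ℂ) - ((CS q I Y u : ℝ) : ℂ)‖ := norm_sub_le_norm_sub_add_norm_sub _ _ _
  linarith

end Pool.Agent.K4H20.TC
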