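import Mathlib
import Pool.Agent.K4H20.TC.T4

/-! The numerator: the coefficients at the elements of the subgroup different from `1`. -/

set_option autoImplicit false

namespace Pool.Agent.K4H20.TC
open Finset Pool.Agent.K4H49.AC
open Pool.Agent.R311.RES hiding EE
open scoped Classical

variable {q : ℕ} [Fact q.Prime]

/-- **The size of a coefficient.** -/
theorem fiber' (I : Finset ℕ) (hI : ∀ p ∈ I, p.Prime) (k k' Y B B' : ℕ)
    (hB : ∀ S ∈ powersetCard k I, ms S ≤ B) (hB' : ∀ S ∈ powersetCard k' I, ms S ≤ B')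
    (hq : Y * B * B' < q) (g : (ZMod q)ˣ) (hg : WS q I k k' Y g ≠ 0) :
    ∃ u : ℕ, ∃ V : Finset ℕ, 0 < u ∧ u ≤ Y * B ∧ u.primeFactors ⊆ I ∧ V ⊆ I ∧ V.card ≤ k' ∧
      un q u = g * ui q V ∧ Nat.Coprime u (ms V) ∧
      WS q I k k' Y g ≤ rs u * rs (ms V) *
        (((ArithmeticFunction.cardFactors u + (k' - V.card)).choose k : ℕ) : ℝ) * EE I (k' - V.card) := by
  have : NeZero q := ⟨(Nat.Prime.pos Fact.out).ne'⟩
  -- a pair of sets with a nonzero term
  obtain ⟨S₀', hS₀', h1⟩ := Finset.exists_ne_zero_of_sum_ne_zero hg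
  obtain ⟨S₀, hS₀, h2⟩ := Finset.exists_ne_zero_of_sum_ne_zero h1
  have h3 : CS q I Y (g * ui q S₀' * (ui q S₀)⁻¹) ≠ 0 := by
    intro h; rw [h] at h2; simp at h2
  -- the general facts on a nonzero term
  have key : ∀ S' ∈ powersetCard k' I, ∀ S ∈ powersetCard k I, CS q I Y (g * ui q S' * (ui q S)⁻¹) ≠ 0 →
      ∃ n : ℕ, 0 < n ∧ n ≤ Y ∧ n.primeFactors ⊆ I ∧ CS q I Y (g * ui q S' * (ui q S)⁻¹) = rs n ∧
        un q n * ui q S = g * ui q S' ∧ n < q := by
    intro S' _ S _ h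
    unfold CS at h
    by_cases hc : ((g * ui q S' * (ui q S)⁻¹ : (ZMod q)ˣ) : ZMod q).val ≤ Y ∧
      ((g * ui q S' * (ui q S)⁻¹ : (ZMod q)ˣ) : ZMod q).val.primeFactors ⊆ I
    · refine ⟨((g * ui q S' * (ui q S)⁻¹ : (ZMod q)ˣ) : ZMod q).val, val_pos _, hc.1, hc.2, ?_, ?_, ZMod.val_lt _⟩
      · unfold CS
        rw [if_pos hc]
      · rw [un_self, inv_mul_cancel_right]
    · rw [if_neg hc] at h
      exact absurd rfl h
  have hpS : ∀ S ∈ powersetCard k I, ∀ p ∈ S, p.Prime := fun S hS p hp => hI p ((mem_powersetCard.1 hS).1 hp)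
  have hpS' : ∀ S ∈ powersetCard k' I, ∀ p ∈ S, p.Prime := fun S hS p hp => hI p ((mem_powersetCard.1 hS).1 hp)
  obtain ⟨n₀, n₀0, n₀Y, n₀I, -, n₀g, -⟩ := key S₀' hS₀' S₀ hS₀ h3
  have pS₀ := ms_pos (hpS S₀ hS₀)
  have pS₀' := ms_pos (hpS' S₀' hS₀')
  have x0 : 0 < n₀ * ms S₀ := Nat.mul_pos n₀0 pS₀
  obtain ⟨d, hd0, hd1, hd2, hd3, hd4, hd5, -⟩ := red_frac x0 pS₀'
  set u := n₀ * ms S₀ / Nat.gcd (n₀ * ms S₀) (ms S₀') with hu
  set v := ms S₀' / Nat.gcd (n₀ * ms S₀) (ms S₀') with hv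
  obtain ⟨hV1, hV2⟩ := dvd_ms_eq (hpS' S₀' hS₀') (t := v) ⟨d, hd2.symm⟩
  set V := v.primeFactors with hV
  have hVI : V ⊆ I := hV1.trans (mem_powersetCard.1 hS₀').1
  have hVp : ∀ p ∈ V, p.Prime := fun p hp => hI p (hVI hp)
  -- bounds
  have b1 : n₀ * ms S₀ ≤ Y * B := Nat.mul_le_mul n₀Y (hB S₀ hS₀)
  have hB'0 : 0 < B' := lt_of_lt_of_le pS₀' (hB' S₀' hS₀')
  have hYB : Y * B < q := lt_of_le_of_lt (Nat.le_mul_of_pos_right _ hB'0) hq
  have hYB0 : 0 < Y * B := lt_of_lt_of_le x0 b1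
  have hB'q : B' < q := lt_of_le_of_lt (Nat.le_mul_of_pos_left _ hYB0) hq
  have hBq : B < q := by
    have hY0 : 0 < Y := Nat.pos_of_ne_zero (by rintro rfl; simp at hYB0)
    exact lt_of_le_of_lt (Nat.le_mul_of_pos_left _ hY0) hYB
  have hcS : ∀ S ∈ powersetCard k I, (ms S).Coprime q := fun S hS =>
    cop_of_lt (ms_pos (hpS S hS)) (lt_of_le_of_lt (hB S hS) hBq)
  have hcS' : ∀ S ∈ powersetCard k' I, (ms S).Coprime q := fun S hS =>
    cop_of_lt (ms_pos (hpS' S hS)) (lt_of_le_of_lt (hB' S hS) hB'q)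
  have hule : u ≤ n₀ * ms S₀ := by rw [← hd1]; exact Nat.le_mul_of_pos_right _ hd0
  have huq : u < q := lt_of_le_of_lt (hule.trans b1) hYB
  have hvle : v ≤ ms S₀' := by rw [← hd2]; exact Nat.le_mul_of_pos_right _ hd0
  have hvq : v < q := lt_of_le_of_lt (hvle.trans (hB' _ hS₀')) hB'q
  have hdle : d ≤ ms S₀' := by rw [← hd2]; exact Nat.le_mul_of_pos_left _ hd5
  have hdq : d < q := lt_of_le_of_lt (hdle.trans (hB' _ hS₀')) hB'q
  have cu := cop_of_lt hd4 huq
  have cv := cop_of_lt hd5 hvq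
  have cd := cop_of_lt hd0 hdq
  have cn₀ : n₀.Coprime q := by
    have : n₀ ≤ n₀ * ms S₀ := Nat.le_mul_of_pos_right _ pS₀
    exact cop_of_lt n₀0 (by omega)
  have hug : un q u = g * un q v := by
    have e1 : un q (n₀ * ms S₀) = un q n₀ * un q (ms S₀) := un_mul cn₀ (hcS S₀ hS₀)
    have e2 : un q (n₀ * ms S₀) = g * un q (ms S₀') := by rw [e1]; exact n₀g
    rw [← hd1, ← hd2, un_mul cu cd, un_mul cv cd, ← mul_assoc] at e2
    exact mul_right_cancel e2
  have hV2' : un q v = ui q V := by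
    unfold ui
    rw [hV2]
  refine ⟨u, V, hd4, hule.trans b1, ?_, hVI, ?_, by rw [hug, hV2'], by rw [hV2]; exact hd3, ?_⟩
  · intro p hp
    have hp' := Nat.mem_primeFactors.1 hp
    have : p ∣ n₀ * ms S₀ := hp'.2.1.trans ⟨d, hd1.symm⟩
    rcases (Nat.Prime.dvd_mul hp'.1).1 this with h | h
    · exact n₀I (Nat.mem_primeFactors.2 ⟨hp'.1, h, n₀0.ne'⟩)
    · exact (mem_powersetCard.1 hS₀).1 ((prime_dvd_ms (hpS S₀ hS₀) hp'.1).1 h)
  · rw [← (mem_powersetCard.1 hS₀').2]
    exact card_le_card hV1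
  -- the main bound
  have term : ∀ S' ∈ powersetCard k' I, ∀ S ∈ powersetCard k I, CS q I Y (g * ui q S' * (ui q S)⁻¹) ≠ 0 →
      V ⊆ S' ∧ S ⊆ (u * ms (S' \ V)).primeFactors ∧
        rs (ms S') * (rs (ms S) * CS q I Y (g * ui q S' * (ui q S)⁻¹)) =
          rs u * rs (ms V) * (1 / (ms (S' \ V) : ℝ)) := by
    intro S' hS' S hS hne
    obtain ⟨n, n0, nY, nI, e1, e2, nq⟩ := key S' hS' S hS hne
    have pS := ms_pos (hpS S hS)
    have pS' := ms_pos (hpS' S' hS')
    have cn := cop_of_lt n0 nq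
    have f1 : un q (n * ms S * ms S₀') = un q (n₀ * ms S₀ * ms S') := by
      rw [un_mul (cop_mul cn (hcS S hS)) (hcS' _ hS₀'), un_mul cn (hcS S hS),
        un_mul (cop_mul cn₀ (hcS S₀ hS₀)) (hcS' _ hS'), un_mul cn₀ (hcS S₀ hS₀)]
      have g1 : un q n * un q (ms S) = g * un q (ms S') := e2
      have g2 : un q n₀ * un q (ms S₀) = g * un q (ms S₀') := n₀g
      rw [g1, g2, mul_assoc, mul_assoc, mul_comm (un q (ms S'))]
    have f2 : n * ms S * ms S₀' = n₀ * ms S₀ * ms S' := by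
      apply un_inj _ _ _ _ f1
      · exact Nat.mul_pos (Nat.mul_pos n0 pS) pS₀'
      · exact Nat.mul_pos x0 pS'
      · exact lt_of_le_of_lt (Nat.mul_le_mul (Nat.mul_le_mul nY (hB S hS)) (hB' _ hS₀')) hq
      · exact lt_of_le_of_lt (Nat.mul_le_mul b1 (hB' _ hS')) hq
    have f3 : n * ms S * v = u * ms S' := by
      have : (n * ms S * v) * d = (u * ms S') * d := by
        calc (n * ms S * v) * d = n * ms S * (v * d) := by ring
          _ = (u * d) * ms S' := by rw [hd2, hd1, f2]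
          _ = _ := by ring
      exact Nat.eq_of_mul_eq_mul_right hd0 this
    have f4 : v ∣ ms S' := by
      have : v ∣ u * ms S' := ⟨n * ms S, by rw [← f3]; ring⟩
      exact hd3.symm.dvd_of_dvd_mul_left this
    have f5 : V ⊆ S' := by
      intro p hp
      exact (prime_dvd_ms (hpS' S' hS') (hVp p hp)).1 ((Nat.mem_primeFactors.1 hp).2.1.trans f4)
    have f6 : ms S' = v * ms (S' \ V) := by
      have := ms_disj (S := S' \ V) (T := V) sdiff_disjoint
      rw [sdiff_union_of_subset f5, hV2] at this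
      rw [this, mul_comm]
    have f7 : n * ms S = u * ms (S' \ V) := by
      rw [f6] at f3
      have : (n * ms S) * v = (u * ms (S' \ V)) * v := by rw [f3]; ring
      exact Nat.eq_of_mul_eq_mul_right hd5 this
    refine ⟨f5, ?_, ?_⟩
    · intro p hp
      have hz : 0 < ms (S' \ V) := ms_pos fun p hp => hpS' S' hS' p (mem_sdiff.1 hp).1
      rw [Nat.mem_primeFactors]
      refine ⟨hpS S hS p hp, ?_, (Nat.mul_pos hd4 hz).ne'⟩
      rw [← f7]
      exact Dvd.dvd.mul_left ((prime_dvd_ms (hpS S hS) (hpS S hS p hp)).2 hp) n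
    · rw [e1, ← rs_mul, mul_comm (ms S) n, f7, f6, hV2, rs_mul, rs_mul, ← rs_sq]
      ring
  have hcard : ∀ S' ∈ powersetCard k' I, V ⊆ S' →
      ((u * ms (S' \ V)).primeFactors).card ≤ ArithmeticFunction.cardFactors u + (k' - V.card) := by
    intro S' hS' hVS
    have hz : 0 < ms (S' \ V) := ms_pos fun p hp => hpS' S' hS' p (mem_sdiff.1 hp).1
    rw [Nat.primeFactors_mul hd4.ne' hz.ne']
    refine (card_union_le _ _).trans ?_
    apply add_le_add
    · rw [ArithmeticFunction.cardFactors_apply]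
      exact List.toFinset_card_le _
    · rw [ms_pf (fun p hp => hpS' S' hS' p (mem_sdiff.1 hp).1), card_sdiff_of_subset hVS,
        (mem_powersetCard.1 hS').2]
  have inner : ∀ S' ∈ powersetCard k' I, ∑ S ∈ powersetCard k I,
      rs (ms S') * (rs (ms S) * CS q I Y (g * ui q S' * (ui q S)⁻¹)) ≤
      if V ⊆ S' then rs u * rs (ms V) * (1 / (ms (S' \ V) : ℝ)) *
        (((ArithmeticFunction.cardFactors u + (k' - V.card)).choose k : ℕ) : ℝ) else 0 := by
    intro S' hS'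
    by_cases hVS : V ⊆ S'
    · rw [if_pos hVS]
      have e1 : ∑ S ∈ powersetCard k I,
          rs (ms S') * (rs (ms S) * CS q I Y (g * ui q S' * (ui q S)⁻¹)) ≤
          ∑ S ∈ powersetCard k (u * ms (S' \ V)).primeFactors, rs u * rs (ms V) * (1 / (ms (S' \ V) : ℝ)) := by
        rw [← Finset.sum_filter_ne_zero]
        have e2 : ∀ S ∈ (powersetCard k I).filter (fun S =>
            rs (ms S') * (rs (ms S) * CS q I Y (g * ui q S' * (ui q S)⁻¹)) ≠ 0),
            rs (ms S') * (rs (ms S) * CS q I Y (g * ui q S' * (ui q S)⁻¹)) =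
              rs u * rs (ms V) * (1 / (ms (S' \ V) : ℝ)) := by
          intro S hS
          rw [mem_filter] at hS
          have hne : CS q I Y (g * ui q S' * (ui q S)⁻¹) ≠ 0 := by
            intro h; apply hS.2; rw [h]; ring
          exact (term S' hS' S hS.1 hne).2.2
        rw [Finset.sum_congr rfl e2]
        apply Finset.sum_le_sum_of_subset_of_nonneg
        · intro S hS
          rw [mem_filter] at hS
          have hne : CS q I Y (g * ui q S' * (ui q S)⁻¹) ≠ 0 := by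
            intro h; apply hS.2; rw [h]; ring
          rw [mem_powersetCard]
          exact ⟨(term S' hS' S hS.1 hne).2.1, (mem_powersetCard.1 hS.1).2⟩
        · intro _ _ _
          have := rs_nonneg u
          have := rs_nonneg (ms V)
          positivity
      refine e1.trans ?_
      rw [Finset.sum_const, card_powersetCard, nsmul_eq_mul, mul_comm]
      apply mul_le_mul_of_nonneg_left
      · exact_mod_cast Nat.choose_le_choose k (hcard S' hS' hVS)
      · have := rs_nonneg u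
        have := rs_nonneg (ms V)
        positivity
    · rw [if_neg hVS]
      apply le_of_eq
      apply Finset.sum_eq_zero
      intro S hS
      by_contra hne
      have hne' : CS q I Y (g * ui q S' * (ui q S)⁻¹) ≠ 0 := by
        intro h; apply hne; rw [h]; ring
      exact hVS (term S' hS' S hS hne').1
  unfold WS
  refine (Finset.sum_le_sum inner).trans ?_
  rw [← Finset.sum_filter]
  have e3 : ∑ S' ∈ (powersetCard k' I).filter (fun S' => V ⊆ S'), rs u * rs (ms V) * (1 / (ms (S' \ V) : ℝ)) *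
        (((ArithmeticFunction.cardFactors u + (k' - V.card)).choose k : ℕ) : ℝ) =
      rs u * rs (ms V) * (((ArithmeticFunction.cardFactors u + (k' - V.card)).choose k : ℕ) : ℝ) *
        ∑ S' ∈ (powersetCard k' I).filter (fun S' => V ⊆ S'), 1 / (ms (S' \ V) : ℝ) := by
    rw [Finset.mul_sum]
    apply Finset.sum_congr rfl
    intro S' _
    ring
  rw [e3]
  apply mul_le_mul_of_nonneg_left
  · unfold EE
    have e4 : ∑ S' ∈ (powersetCard k' I).filter (fun S' => V ⊆ S'), 1 / (ms (S' \ V) : ℝ) =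
        ∑ Z ∈ ((powersetCard k' I).filter (fun S' => V ⊆ S')).image (fun S' => S' \ V), 1 / (ms Z : ℝ) := by
      rw [Finset.sum_image]
      intro S hS T hT hST
      simp only [coe_filter, Set.mem_setOf_eq] at hS hT
      have : S \ V = T \ V := hST
      rw [← sdiff_union_of_subset hS.2, ← sdiff_union_of_subset hT.2, this]
    rw [e4]
    apply Finset.sum_le_sum_of_subset_of_nonneg
    · intro Z hZ
      rw [mem_image] at hZ
      obtain ⟨S', hS', rfl⟩ := hZ
      rw [mem_filter, mem_powersetCard] at hS'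
      rw [mem_powersetCard]
      refine ⟨sdiff_subset.trans hS'.1.1, ?_⟩
      rw [card_sdiff_of_subset hS'.2, hS'.1.2]
    · intro _ _ _
      positivity
  · have := rs_nonneg u
    have := rs_nonneg (ms V)
    positivity


/-- **The numerator.** -/
theorem num_sum (G : Subgroup (ZMod q)ˣ) (γ : ℝ) (hγ : (Fintype.card G : ℝ) ≤ Real.exp γ)
    (I : Finset ℕ) (y k k' Y B B' : ℕ) (hy2 : 2 ≤ y) (hI : ∀ p ∈ I, p.Prime ∧ y < p)
    (hk : k ≤ k') (hk'0 : 0 < k') (hy : 36 * k' ≤ y) (hs18 : 1 / 18 ≤ ∑ p ∈ I, 1 / (p : ℝ))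
    (hB : ∀ S ∈ powersetCard k I, ms S ≤ B) (hB' : ∀ S ∈ powersetCard k' I, ms S ≤ B')
    (hsub : ∀ V ⊆ I, V.card ≤ k' → ms V ≤ B')
    (hXq : (y * (Y * B * B')) * (y * (Y * B * B')) < q)
    (hcy : (36 * (k' : ℝ)) * (2 * Real.log q) ≤ (y : ℝ) ^ (1 / 4 : ℝ))
    (g₀ : ℝ) (hg0 : 0 ≤ g₀) (hg : γ * (4 * Real.log y) ≤ g₀ * Real.log q)
    (hg2 : 8 * Real.exp (2 * g₀) ≤ (y : ℝ) ^ (1 / 4 : ℝ)) :
    ∑ g ∈ univ.filter (fun g : (ZMod q)ˣ => g ∈ G ∧ g ≠ 1), WS q I k k' Y g ≤
      (1 / 4) * (((k'.choose k : ℕ) : ℝ) * EE I k') := by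
  have hIp : ∀ p ∈ I, p.Prime := fun p hp => (hI p hp).1
  have hIy : ∀ p ∈ I, y < p := fun p hp => (hI p hp).2
  set c : ℝ := 36 * (k' : ℝ) with hc
  have hk'r : (1 : ℝ) ≤ k' := by exact_mod_cast hk'0
  have hc1 : 1 ≤ c := by rw [hc]; linarith
  set t : ℝ := ((k'.choose k : ℕ) : ℝ) * EE I k' with ht
  have ht0 : 0 ≤ t := mul_nonneg (Nat.cast_nonneg _) (EE_nonneg I k')
  set F := (univ.filter (fun g : (ZMod q)ˣ => g ∈ G ∧ g ≠ 1)).filter (fun g => WS q I k k' Y g ≠ 0) with hF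
  have hsumF : ∑ g ∈ univ.filter (fun g : (ZMod q)ˣ => g ∈ G ∧ g ≠ 1), WS q I k k' Y g = ∑ g ∈ F, WS q I k k' Y g := by
    rw [hF, Finset.sum_filter_ne_zero]
  rw [hsumF]
  have hyX : Y * B * B' < q := by
    have hq0 : 0 < q := (Nat.Prime.pos Fact.out)
    rcases Nat.eq_zero_or_pos (Y * B * B') with h0 | h0
    · rw [h0]; exact hq0
    · calc Y * B * B' ≤ y * (Y * B * B') := Nat.le_mul_of_pos_left _ (by omega)
        _ ≤ (y * (Y * B * B')) * (y * (Y * B * B')) := Nat.le_mul_of_pos_left _ (Nat.mul_pos (by omega) h0)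
        _ < q := hXq
  choose! uu VV f1 f2 f3 f4 f5 f6 f7 f8 using fun (g : (ZMod q)ˣ) (hg : WS q I k k' Y g ≠ 0) =>
    fiber' I hIp k k' Y B B' hB hB' hyX g hg
  have hFw : ∀ g ∈ F, WS q I k k' Y g ≠ 0 := fun g hg => (mem_filter.1 hg).2
  have hVp : ∀ g ∈ F, ∀ p ∈ VV g, p.Prime := fun g hg p hp => hIp p (f4 g (hFw g hg) hp)
  set W : ℕ × ℕ → ℝ := fun z => c ^ (ArithmeticFunction.cardFactors z.1 + ArithmeticFunction.cardFactors z.2) *
    (rs z.1 * rs z.2) with hW
  have hbd : ∀ g ∈ F, WS q I k k' Y g ≤ W (uu g, ms (VV g)) * t := by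
    intro g hg
    have hgw := hFw g hg
    refine (f8 g hgw).trans ?_
    have h1 := choose_ratio k' k (ArithmeticFunction.cardFactors (uu g)) (VV g).card hk
    have h2 := EE_down I y hIy k' hy hk'0 hs18 (VV g).card (f5 g hgw)
    have h3 : ((k : ℝ) + 1) ^ (ArithmeticFunction.cardFactors (uu g)) ≤ c ^ (ArithmeticFunction.cardFactors (uu g)) := by
      apply pow_le_pow_left₀ (by positivity)
      have : (k : ℝ) ≤ k' := by exact_mod_cast hk
      rw [hc]; linarith
    have r1 := rs_nonneg (uu g)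
    have r2 := rs_nonneg (ms (VV g))
    have e0 := EE_nonneg I k'
    have h4 : (((ArithmeticFunction.cardFactors (uu g) + (k' - (VV g).card)).choose k : ℕ) : ℝ) ≤
        c ^ (ArithmeticFunction.cardFactors (uu g)) * ((k'.choose k : ℕ) : ℝ) :=
      h1.trans (mul_le_mul_of_nonneg_right h3 (Nat.cast_nonneg _))
    calc rs (uu g) * rs (ms (VV g)) * (((ArithmeticFunction.cardFactors (uu g) + (k' - (VV g).card)).choose k : ℕ) : ℝ) *
        EE I (k' - (VV g).card) ≤ rs (uu g) * rs (ms (VV g)) *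
          (c ^ (ArithmeticFunction.cardFactors (uu g)) * ((k'.choose k : ℕ) : ℝ)) * (c ^ (VV g).card * EE I k') := by
          apply mul_le_mul _ h2 (EE_nonneg _ _) (by positivity)
          exact mul_le_mul_of_nonneg_left h4 (mul_nonneg r1 r2)
      _ = W (uu g, ms (VV g)) * t := by
          rw [hW, ht]
          simp only [cardFactors_ms (VV g) (hVp g hg), pow_add]
          ring
  refine (Finset.sum_le_sum hbd).trans ?_
  rw [← Finset.sum_mul]
  apply mul_le_mul_of_nonneg_right _ ht0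
  have hinj : ∀ g ∈ F, ∀ g' ∈ F, (uu g, ms (VV g)) = (uu g', ms (VV g')) → g = g' := by
    intro g hg g' hg' h
    rw [Prod.mk.injEq] at h
    have e1 := f6 g (hFw g hg)
    have e2 := f6 g' (hFw g' hg')
    have e3 : ui q (VV g) = ui q (VV g') := by unfold ui; rw [h.2]
    rw [h.1, e2, e3] at e1
    exact (mul_right_cancel e1).symm
  rw [← Finset.sum_image (f := W) (g := fun g => (uu g, ms (VV g))) (fun g hg g' hg' h => hinj g hg g' hg' h)]
  apply num_total G γ hγ I y hy2 hI (F.image (fun g => (uu g, ms (VV g)))) ?_ ?_ ?_ ?_ ?_ (Y * B * B') ?_ hXq c hc1 hcy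
    g₀ hg0 hg hg2
  · intro z hz
    obtain ⟨g, hg, rfl⟩ := mem_image.1 hz
    exact ⟨f1 g (hFw g hg), ms_pos (hVp g hg)⟩
  · intro z hz
    obtain ⟨g, hg, rfl⟩ := mem_image.1 hz
    exact f7 g (hFw g hg)
  · intro z hz
    obtain ⟨g, hg, rfl⟩ := mem_image.1 hz
    have e1 := f6 g (hFw g hg)
    show un q (uu g) * (un q (ms (VV g)))⁻¹ ∈ G
    rw [e1]
    have : g * ui q (VV g) * (un q (ms (VV g)))⁻¹ = g := by
      unfold ui; rw [mul_inv_cancel_right]
    rw [this]
    exact (mem_filter.1 (mem_filter.1 hg).1).2.1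
  · intro z hz
    obtain ⟨g, hg, rfl⟩ := mem_image.1 hz
    have p1 := f1 g (hFw g hg)
    have p2 := ms_pos (hVp g hg)
    show 1 < uu g * ms (VV g)
    by_contra hcon
    have hone : uu g * ms (VV g) = 1 := by
      have := Nat.mul_pos p1 p2
      omega
    have h1 : uu g = 1 := Nat.eq_one_of_mul_eq_one_right hone
    have h2 : ms (VV g) = 1 := Nat.eq_one_of_mul_eq_one_left hone
    have e1 := f6 g (hFw g hg)
    apply (mem_filter.1 (mem_filter.1 hg).1).2.2
    have e2 : un q 1 = g * un q 1 := by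
      have e3 : ui q (VV g) = un q 1 := by unfold ui; rw [h2]
      rw [h1, e3] at e1
      exact e1
    have := mul_right_cancel ((one_mul (un q 1)).trans e2)
    exact this.symm
  · intro z hz
    obtain ⟨g, hg, rfl⟩ := mem_image.1 hz
    refine ⟨f3 g (hFw g hg), ?_⟩
    show (ms (VV g)).primeFactors ⊆ I
    rw [ms_pf (hVp g hg)]
    exact f4 g (hFw g hg)
  · intro z hz
    obtain ⟨g, hg, rfl⟩ := mem_image.1 hz
    show uu g * ms (VV g) ≤ Y * B * B'
    exact Nat.mul_le_mul (f2 g (hFw g hg)) (hsub _ (f4 g (hFw g hg)) (f5 g (hFw g hg)))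

end Pool.Agent.K4H20.TC
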