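import Mathlib
import Pool.Agent.K4H20.TC.T5

/-! The second moment of the resonator times the mollifier over a coset. -/

set_option autoImplicit false

namespace Pool.Agent.K4H20.TC
open Finset Pool.Agent.K4H49.AC
open Pool.Agent.R311.RES hiding EE
open scoped Classical

lemma ms_dvd_self {S V : Finset ℕ} (h : V ⊆ S) : ms S = ms V * ms (S \ V) := by
  have := ms_disj (S := S \ V) (T := V) sdiff_disjoint
  rw [sdiff_union_of_subset h] at this
  rw [this, mul_comm]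

/-- unique factorisation in the form needed -/
lemma n_inj (I : Finset ℕ) (hI : ∀ p ∈ I, p.Prime) {a b : ℕ} {S T : Finset ℕ} (ha : ∀ p ∈ I, ¬ p ∣ a)
    (hb : ∀ p ∈ I, ¬ p ∣ b) (hS : S ⊆ I) (hT : T ⊆ I) (h : a * ms S = b * ms T) : a = b ∧ S = T := by
  have hSp : ∀ p ∈ S, p.Prime := fun p hp => hI p (hS hp)
  have hTp : ∀ p ∈ T, p.Prime := fun p hp => hI p (hT hp)
  have h3 : S = T := by
    apply Finset.Subset.antisymm
    · intro p hp
      have hpd : p ∣ b * ms T := by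
        rw [← h]; exact Dvd.dvd.mul_left ((prime_dvd_ms hSp (hSp p hp)).2 hp) a
      rcases (Nat.Prime.dvd_mul (hSp p hp)).1 hpd with h4 | h4
      · exact absurd h4 (hb p (hS hp))
      · exact (prime_dvd_ms hTp (hSp p hp)).1 h4
    · intro p hp
      have hpd : p ∣ a * ms S := by
        rw [h]; exact Dvd.dvd.mul_left ((prime_dvd_ms hTp (hTp p hp)).2 hp) b
      rcases (Nat.Prime.dvd_mul (hTp p hp)).1 hpd with h4 | h4
      · exact absurd h4 (ha p (hT hp))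
      · exact (prime_dvd_ms hSp (hTp p hp)).1 h4
  subst h3
  exact ⟨Nat.eq_of_mul_eq_mul_right (ms_pos hSp) h, rfl⟩

/-- the structure of a divisor -/
lemma struct (I : Finset ℕ) (hI : ∀ p ∈ I, p.Prime) {a A g : ℕ} {S : Finset ℕ} (ha0 : 0 < a)
    (ha : ∀ p ∈ I, ¬ p ∣ a) (hS : S ⊆ I) (h : A * g = a * ms S) (hA : 0 < A) :
    (A.primeFactors ∩ I) ⊆ S ∧ ∃ t A' : ℕ, 0 < t ∧ A = ms (A.primeFactors ∩ I) * A' ∧ a = A' * t ∧
      g = t * ms (S \ (A.primeFactors ∩ I)) := by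
  have hSp : ∀ p ∈ S, p.Prime := fun p hp => hI p (hS hp)
  set V := A.primeFactors ∩ I with hV
  have hVp : ∀ p ∈ V, p.Prime := fun p hp => hI p (mem_inter.1 hp).2
  have hVS : V ⊆ S := by
    intro p hp
    have hp' := mem_inter.1 hp
    have h1 : p ∣ a * ms S := by
      rw [← h]; exact Dvd.dvd.mul_right (Nat.mem_primeFactors.1 hp'.1).2.1 g
    rcases (Nat.Prime.dvd_mul (hVp p hp)).1 h1 with h2 | h2
    · exact absurd h2 (ha p hp'.2)
    · exact (prime_dvd_ms hSp (hVp p hp)).1 h2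
  refine ⟨hVS, ?_⟩
  have hVA : ms V ∣ A := by
    rw [ms_dvd_iff hVp]
    intro p hp
    exact (Nat.mem_primeFactors.1 (mem_inter.1 hp).1).2.1
  obtain ⟨A', hA'⟩ := hVA
  have pV := ms_pos hVp
  have hdisj := ms_dvd_self hVS
  have hSV : ∀ p ∈ S \ V, p.Prime := fun p hp => hSp p (mem_sdiff.1 hp).1
  have e1 : A' * g = a * ms (S \ V) := by
    have : ms V * (A' * g) = ms V * (a * ms (S \ V)) := by
      calc ms V * (A' * g) = (ms V * A') * g := by ring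
        _ = a * ms S := by rw [← hA', h]
        _ = a * (ms V * ms (S \ V)) := by rw [hdisj]
        _ = _ := by ring
    exact Nat.eq_of_mul_eq_mul_left pV this
  have hA'0 : 0 < A' := by
    rcases Nat.eq_zero_or_pos A' with h0 | h0
    · subst h0; rw [mul_zero] at hA'; omega
    · exact h0
  have hcop : Nat.Coprime A' (ms (S \ V)) := by
    rw [← Nat.disjoint_primeFactors hA'0.ne' (ms_pos hSV).ne', ms_pf hSV, Finset.disjoint_left]
    intro p hp hpS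
    have hp1 := Nat.mem_primeFactors.1 hp
    have hpA : p ∈ V := by
      rw [hV, mem_inter]
      refine ⟨Nat.mem_primeFactors.2 ⟨hp1.1, ?_, hA.ne'⟩, hS (mem_sdiff.1 hpS).1⟩
      rw [hA']
      exact Dvd.dvd.mul_left hp1.2.1 _
    exact (mem_sdiff.1 hpS).2 hpA
  have hdvd : A' ∣ a := by
    apply hcop.dvd_of_dvd_mul_right
    exact ⟨g, e1.symm⟩
  obtain ⟨t, ht⟩ := hdvd
  have ht0 : 0 < t := by
    rcases Nat.eq_zero_or_pos t with h0 | h0
    · subst h0; rw [mul_zero] at ht; omega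
    · exact h0
  refine ⟨t, A', ht0, hA', ht, ?_⟩
  rw [ht, mul_assoc] at e1
  exact Nat.eq_of_mul_eq_mul_left hA'0 e1

variable {q : ℕ} [Fact q.Prime]

/-- the index set of the product -/
noncomputable def JJ (I : Finset ℕ) (z k Y : ℕ) : Finset (ℕ × Finset ℕ) :=
  AA (I ∪ Pz z) Y ×ˢ powersetCard k I

/-- the integer belonging to an index -/
def nn (x : ℕ × Finset ℕ) : ℕ := x.1 * ms x.2

/-- the pairs of indices whose quotient is in the subgroup -/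
noncomputable def PRS (q : ℕ) [Fact q.Prime] (G : Subgroup (ZMod q)ˣ) (I : Finset ℕ) (z k Y : ℕ) :
    Finset ((ℕ × Finset ℕ) × (ℕ × Finset ℕ)) :=
  (JJ I z k Y ×ˢ JJ I z k Y).filter (fun w => un q (nn w.1) * (un q (nn w.2))⁻¹ ∈ G)

/-- the reduced fraction of a pair -/
def red (w : (ℕ × Finset ℕ) × (ℕ × Finset ℕ)) : ℕ × ℕ :=
  (nn w.1 / Nat.gcd (nn w.1) (nn w.2), nn w.2 / Nat.gcd (nn w.1) (nn w.2))

lemma mem_JJ {I : Finset ℕ} {z k Y : ℕ} {x : ℕ × Finset ℕ} : x ∈ JJ I z k Y ↔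
    ((1 ≤ x.1 ∧ x.1 ≤ Y) ∧ ∀ p ∈ I ∪ Pz z, ¬ p ∣ x.1) ∧ (x.2 ⊆ I ∧ x.2.card = k) := by
  rw [JJ, mem_product, AA, mem_filter, mem_Icc, mem_powersetCard]

/-- **Pairs with quotient in the subgroup.** -/
theorem pair_sum (G : Subgroup (ZMod q)ˣ) (I : Finset ℕ) (z y k Y B : ℕ) (hI : ∀ p ∈ I, p.Prime ∧ y < p)
    (hy : 36 * k ≤ y) (hk0 : 0 < k) (hs18 : 1 / 18 ≤ ∑ p ∈ I, 1 / (p : ℝ))
    (hB : ∀ S ∈ powersetCard k I, ms S ≤ B) (hYB : Y * B < q)
    (Λ : ℝ) (hΛ : ∑ a ∈ Icc 1 Y, 1 / (a : ℝ) ≤ Λ) :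
    ∃ R : Finset (ℕ × ℕ), (∀ r ∈ R, 0 < r.1 ∧ 0 < r.2) ∧ (∀ r ∈ R, Nat.Coprime r.1 r.2) ∧
      (∀ r ∈ R, un q r.1 * (un q r.2)⁻¹ ∈ G) ∧ (∀ r ∈ R, 1 < r.1 * r.2) ∧
      (∀ r ∈ R, ∀ p : ℕ, p.Prime → p ∣ r.1 * r.2 → min y z < p) ∧ (∀ r ∈ R, r.1 * r.2 ≤ (Y * B) * (Y * B)) ∧
      ∑ w ∈ PRS q G I z k Y, rs (nn w.1) * rs (nn w.2) ≤
        Λ * EE I k * (1 + ∑ r ∈ R, rs r.1 * rs r.2 * (36 * (k : ℝ)) ^ (r.1.primeFactors ∩ I).card) := by
  have hIp : ∀ p ∈ I, p.Prime := fun p hp => (hI p hp).1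
  have hIy : ∀ p ∈ I, y < p := fun p hp => (hI p hp).2
  have hkr : (1 : ℝ) ≤ k := by exact_mod_cast hk0
  have hnn : ∀ x ∈ JJ I z k Y, 0 < nn x ∧ nn x ≤ Y * B := by
    intro x hx
    rw [mem_JJ] at hx
    refine ⟨Nat.mul_pos hx.1.1.1 (ms_pos fun p hp => hIp p (hx.2.1 hp)), ?_⟩
    exact Nat.mul_le_mul hx.1.1.2 (hB _ (mem_powersetCard.2 hx.2))
  have hΛ0 : 0 ≤ Λ := le_trans (Finset.sum_nonneg fun _ _ => by positivity) hΛ
  have hE0 := EE_nonneg I k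
  -- the image
  set Q := (PRS q G I z k Y).image red with hQ
  have hmem : ∀ w ∈ PRS q G I z k Y, w.1 ∈ JJ I z k Y ∧ w.2 ∈ JJ I z k Y ∧ un q (nn w.1) * (un q (nn w.2))⁻¹ ∈ G := by
    intro w hw
    rw [PRS, mem_filter, mem_product] at hw
    exact ⟨hw.1.1, hw.1.2, hw.2⟩
  have hred : ∀ w ∈ PRS q G I z k Y, ∃ g, 0 < g ∧ (red w).1 * g = nn w.1 ∧ (red w).2 * g = nn w.2 ∧
      Nat.Coprime (red w).1 (red w).2 ∧ 0 < (red w).1 ∧ 0 < (red w).2 := by
    intro w hw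
    obtain ⟨h1, h2, -⟩ := hmem w hw
    obtain ⟨g, a1, a2, a3, a4, a5, a6, -⟩ := red_frac (hnn _ h1).1 (hnn _ h2).1
    exact ⟨g, a1, a2, a3, a4, a5, a6⟩
  -- a fibre
  have hfib : ∀ r ∈ Q, ∑ w ∈ (PRS q G I z k Y).filter (fun w => red w = r), rs (nn w.1) * rs (nn w.2) ≤
      Λ * EE I k * (rs r.1 * rs r.2 * (36 * (k : ℝ)) ^ (r.1.primeFactors ∩ I).card) := by
    intro r hr
    set V := r.1.primeFactors ∩ I with hV
    set F := (PRS q G I z k Y).filter (fun w => red w = r) with hF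
    have hFm : ∀ w ∈ F, ∃ g t A' : ℕ, 0 < g ∧ r.1 * g = nn w.1 ∧ r.2 * g = nn w.2 ∧ 0 < t ∧ V ⊆ w.1.2 ∧
        r.1 = ms V * A' ∧ w.1.1 = A' * t ∧ g = t * ms (w.1.2 \ V) := by
      intro w hw
      rw [hF, mem_filter] at hw
      obtain ⟨g, a1, a2, a3, a4, a5, a6⟩ := hred w hw.1
      rw [hw.2] at a2 a3 a5
      obtain ⟨h1, h2, -⟩ := hmem w hw.1
      rw [mem_JJ] at h1
      obtain ⟨b1, t, A', b2, b3, b4, b5⟩ := struct I hIp h1.1.1.1 (fun p hp => h1.1.2 p (mem_union_left _ hp))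
        h1.2.1 a2 a5
      exact ⟨g, t, A', a1, a2, a3, b2, b1, b3, b4, b5⟩
    set φ : (ℕ × Finset ℕ) × (ℕ × Finset ℕ) → ℕ × Finset ℕ := fun w => (w.1.1 / (r.1 / ms V), w.1.2 \ V) with hφ
    have hVp : ∀ p ∈ V, p.Prime := fun p hp => hIp p (mem_inter.1 hp).2
    have pV := ms_pos hVp
    have hr1 : 0 < r.1 := by
      obtain ⟨w, hw, rfl⟩ := mem_image.1 hr
      obtain ⟨g, a1, a2, a3, a4, a5, a6⟩ := hred w hw
      exact a5
    have hφv : ∀ w ∈ F, ∃ g A' : ℕ, 0 < g ∧ r.1 * g = nn w.1 ∧ r.2 * g = nn w.2 ∧ 0 < (φ w).1 ∧ V ⊆ w.1.2 ∧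
        r.1 / ms V = A' ∧ w.1.1 = A' * (φ w).1 ∧ g = (φ w).1 * ms (φ w).2 := by
      intro w hw
      obtain ⟨g, t, A', a1, a2, a3, a4, a5, a6, a7, a8⟩ := hFm w hw
      have hA'0 : 0 < A' := by
        rcases Nat.eq_zero_or_pos A' with h0 | h0
        · subst h0; rw [mul_zero] at a6; omega
        · exact h0
      have e1 : r.1 / ms V = A' := by rw [a6, Nat.mul_div_cancel_left _ pV]
      have e2 : (φ w).1 = t := by
        show w.1.1 / (r.1 / ms V) = t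
        rw [e1, a7, Nat.mul_div_cancel_left _ hA'0]
      refine ⟨g, A', a1, a2, a3, by rw [e2]; exact a4, a5, e1, by rw [e2]; exact a7, ?_⟩
      rw [e2]
      exact a8
    have hterm : ∀ w ∈ F, rs (nn w.1) * rs (nn w.2) = rs r.1 * rs r.2 * (1 / ((φ w).1 : ℝ) * (1 / (ms (φ w).2 : ℝ))) := by
      intro w hw
      obtain ⟨g, A', a1, a2, a3, a4, a5, a6, a7, a8⟩ := hφv w hw
      rw [← a2, ← a3, rs_mul, rs_mul]
      have e1 : rs g * rs g = 1 / ((φ w).1 : ℝ) * (1 / (ms (φ w).2 : ℝ)) := by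
        rw [← pow_two, rs_sq, a8, Nat.cast_mul, one_div_mul_one_div]
      calc rs r.1 * rs g * (rs r.2 * rs g) = rs r.1 * rs r.2 * (rs g * rs g) := by ring
        _ = _ := by rw [e1]
    rw [Finset.sum_congr rfl hterm, ← Finset.mul_sum]
    have hinj : ∀ w ∈ F, ∀ w' ∈ F, φ w = φ w' → w = w' := by
      intro w hw w' hw' h
      obtain ⟨g, A', a1, a2, a3, a4, a5, a6, a7, a8⟩ := hφv w hw
      obtain ⟨g', A'', b1, b2, b3, b4, b5, b6, b7, b8⟩ := hφv w' hw'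
      have hg : g = g' := by rw [a8, b8, h]
      subst hg
      have e1 : nn w.1 = nn w'.1 := by rw [← a2, ← b2]
      have e2 : nn w.2 = nn w'.2 := by rw [← a3, ← b3]
      obtain ⟨m1, m2, -⟩ := hmem w (mem_filter.1 hw).1
      obtain ⟨n1, n2, -⟩ := hmem w' (mem_filter.1 hw').1
      rw [mem_JJ] at m1 m2 n1 n2
      obtain ⟨c1, c2⟩ := n_inj I hIp (fun p hp => m1.1.2 p (mem_union_left _ hp))
        (fun p hp => n1.1.2 p (mem_union_left _ hp)) m1.2.1 n1.2.1 e1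
      obtain ⟨c3, c4⟩ := n_inj I hIp (fun p hp => m2.1.2 p (mem_union_left _ hp))
        (fun p hp => n2.1.2 p (mem_union_left _ hp)) m2.2.1 n2.2.1 e2
      exact Prod.ext (Prod.ext c1 c2) (Prod.ext c3 c4)
    have hsum : ∑ w ∈ F, 1 / ((φ w).1 : ℝ) * (1 / (ms (φ w).2 : ℝ)) ≤ Λ * EE I (k - V.card) := by
      rw [← Finset.sum_image (f := fun x : ℕ × Finset ℕ => 1 / (x.1 : ℝ) * (1 / (ms x.2 : ℝ)))
        (fun w hw w' hw' h => hinj w hw w' hw' h)]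
      have hsub : F.image φ ⊆ Icc 1 Y ×ˢ powersetCard (k - V.card) I := by
        intro x hx
        obtain ⟨w, hw, rfl⟩ := mem_image.1 hx
        obtain ⟨g, A', a1, a2, a3, a4, a5, a6, a7, a8⟩ := hφv w hw
        obtain ⟨m1, m2, -⟩ := hmem w (mem_filter.1 hw).1
        rw [mem_JJ] at m1
        rw [mem_product, mem_Icc, mem_powersetCard]
        refine ⟨⟨a4, ?_⟩, ?_, ?_⟩
        · exact (Nat.div_le_self _ _).trans m1.1.1.2
        · exact sdiff_subset.trans m1.2.1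
        · show (w.1.2 \ V).card = k - V.card
          rw [card_sdiff_of_subset a5, m1.2.2]
      refine (Finset.sum_le_sum_of_subset_of_nonneg hsub (fun _ _ _ => by positivity)).trans ?_
      have e9 : ∑ x ∈ Icc 1 Y ×ˢ powersetCard (k - V.card) I, 1 / (x.1 : ℝ) * (1 / (ms x.2 : ℝ)) =
          (∑ a ∈ Icc 1 Y, 1 / (a : ℝ)) * EE I (k - V.card) := by
        unfold EE
        rw [Finset.sum_mul_sum, Finset.sum_product]
      rw [e9]
      exact mul_le_mul_of_nonneg_right hΛ (EE_nonneg _ _)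
    have hVk : V.card ≤ k := by
      obtain ⟨w, hw, hwr⟩ := mem_image.1 hr
      have hwF : w ∈ F := mem_filter.2 ⟨hw, hwr⟩
      obtain ⟨g, A', a1, a2, a3, a4, a5, a6, a7, a8⟩ := hφv w hwF
      obtain ⟨m1, m2, -⟩ := hmem w hw
      rw [mem_JJ] at m1
      rw [← m1.2.2]
      exact card_le_card a5
    have hdown := EE_down I y hIy k hy hk0 hs18 V.card hVk
    have r1 := rs_nonneg r.1
    have r2 := rs_nonneg r.2
    calc rs r.1 * rs r.2 * ∑ w ∈ F, 1 / ((φ w).1 : ℝ) * (1 / (ms (φ w).2 : ℝ)) ≤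
        rs r.1 * rs r.2 * (Λ * EE I (k - V.card)) := mul_le_mul_of_nonneg_left hsum (mul_nonneg r1 r2)
      _ ≤ rs r.1 * rs r.2 * (Λ * ((36 * (k : ℝ)) ^ V.card * EE I k)) :=
          mul_le_mul_of_nonneg_left (mul_le_mul_of_nonneg_left hdown hΛ0) (mul_nonneg r1 r2)
      _ = _ := by ring
  have hmaps : ∀ w ∈ PRS q G I z k Y, red w ∈ Q := fun w hw => mem_image_of_mem _ hw
  refine ⟨Q.erase (1, 1), ?_, ?_, ?_, ?_, ?_, ?_, ?_⟩
  · intro r hr
    obtain ⟨w, hw, rfl⟩ := mem_image.1 (mem_of_mem_erase hr)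
    obtain ⟨g, a1, a2, a3, a4, a5, a6⟩ := hred w hw
    exact ⟨a5, a6⟩
  · intro r hr
    obtain ⟨w, hw, rfl⟩ := mem_image.1 (mem_of_mem_erase hr)
    obtain ⟨g, a1, a2, a3, a4, a5, a6⟩ := hred w hw
    exact a4
  · intro r hr
    obtain ⟨w, hw, rfl⟩ := mem_image.1 (mem_of_mem_erase hr)
    obtain ⟨g, a1, a2, a3, a4, a5, a6⟩ := hred w hw
    obtain ⟨m1, m2, m3⟩ := hmem w hw
    have l1 : nn w.1 < q := lt_of_le_of_lt (hnn _ m1).2 hYB
    have l2 : nn w.2 < q := lt_of_le_of_lt (hnn _ m2).2 hYB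
    have l3 : (red w).1 < q := lt_of_le_of_lt (by rw [← a2]; exact Nat.le_mul_of_pos_right _ a1) l1
    have l4 : (red w).2 < q := lt_of_le_of_lt (by rw [← a3]; exact Nat.le_mul_of_pos_right _ a1) l2
    have l5 : g < q := lt_of_le_of_lt (by rw [← a2]; exact Nat.le_mul_of_pos_left _ a5) l1
    rw [← a2, ← a3, un_mul (cop_of_lt a5 l3) (cop_of_lt a1 l5), un_mul (cop_of_lt a6 l4) (cop_of_lt a1 l5),
      mul_inv, mul_mul_mul_comm, mul_inv_cancel, mul_one] at m3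
    exact m3
  · intro r hr
    obtain ⟨w, hw, hwr⟩ := mem_image.1 (mem_of_mem_erase hr)
    obtain ⟨g, a1, a2, a3, a4, a5, a6⟩ := hred w hw
    rw [hwr] at a5 a6
    by_contra hcon
    have hone : r.1 * r.2 = 1 := by
      have := Nat.mul_pos a5 a6
      omega
    exact (mem_erase.1 hr).1 (Prod.ext (Nat.eq_one_of_mul_eq_one_right hone) (Nat.eq_one_of_mul_eq_one_left hone))
  · intro r hr p hp hpd
    obtain ⟨w, hw, rfl⟩ := mem_image.1 (mem_of_mem_erase hr)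
    obtain ⟨g, a1, a2, a3, a4, a5, a6⟩ := hred w hw
    obtain ⟨m1, m2, -⟩ := hmem w hw
    have key : ∀ x ∈ JJ I z k Y, p ∣ nn x → min y z < p := by
      intro x hx hpx
      rw [mem_JJ] at hx
      rcases (Nat.Prime.dvd_mul hp).1 hpx with h | h
      · refine lt_of_le_of_lt (min_le_right _ _) ?_
        by_contra hcon
        exact hx.1.2 p (mem_union_right _ (mem_Pz.2 ⟨hp, by omega⟩)) h
      · refine lt_of_le_of_lt (min_le_left _ _) ?_
        exact hIy p (hx.2.1 ((prime_dvd_ms (fun r hr => hIp r (hx.2.1 hr)) hp).1 h))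
    rcases (Nat.Prime.dvd_mul hp).1 hpd with h | h
    · exact key _ m1 (by rw [← a2]; exact Dvd.dvd.mul_right h g)
    · exact key _ m2 (by rw [← a3]; exact Dvd.dvd.mul_right h g)
  · intro r hr
    obtain ⟨w, hw, rfl⟩ := mem_image.1 (mem_of_mem_erase hr)
    obtain ⟨g, a1, a2, a3, a4, a5, a6⟩ := hred w hw
    obtain ⟨m1, m2, -⟩ := hmem w hw
    apply Nat.mul_le_mul
    · exact le_trans (by rw [← a2]; exact Nat.le_mul_of_pos_right _ a1) (hnn _ m1).2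
    · exact le_trans (by rw [← a3]; exact Nat.le_mul_of_pos_right _ a1) (hnn _ m2).2
  · rw [← Finset.sum_fiberwise_of_maps_to hmaps]
    refine (Finset.sum_le_sum hfib).trans ?_
    rw [← Finset.mul_sum]
    apply mul_le_mul_of_nonneg_left _ (mul_nonneg hΛ0 hE0)
    have hone : rs 1 * rs 1 * (36 * (k : ℝ)) ^ ((1 : ℕ).primeFactors ∩ I).card = 1 := by
      simp [rs]
    have hnn2 : ∀ r : ℕ × ℕ, 0 ≤ rs r.1 * rs r.2 * (36 * (k : ℝ)) ^ (r.1.primeFactors ∩ I).card := by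
      intro r
      have := rs_nonneg r.1
      have := rs_nonneg r.2
      positivity
    by_cases h1 : ((1, 1) : ℕ × ℕ) ∈ Q
    · rw [← Finset.add_sum_erase Q _ h1, hone]
    · rw [Finset.erase_eq_of_notMem h1]
      linarith

/-- **The second moment over a coset.** -/
theorem second (H : Subgroup (DirichletCharacter ℂ q)) (χ₀ : DirichletCharacter ℂ q) (I : Finset ℕ) (z k Y B : ℕ)
    (hI : ∀ p ∈ I, p.Prime) (hB : ∀ S ∈ powersetCard k I, ms S ≤ B) (hYB : Y * B < q) :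
    ∑ ψ : H, ‖MM q (I ∪ Pz z) Y (χ₀ * (ψ : DirichletCharacter ℂ q)) * RR q I k (χ₀ * (ψ : DirichletCharacter ℂ q))‖ ^ 2 ≤
      (Fintype.card H : ℝ) * ∑ w ∈ PRS q (ann H) I z k Y, rs (nn w.1) * rs (nn w.2) := by
  set J := JJ I z k Y with hJ
  set w0 : ℕ × Finset ℕ → ℝ := fun x => ((ArithmeticFunction.moebius x.1 : ℤ) : ℝ) * rs x.1 * rs (ms x.2) with hw0
  set π : ℕ × Finset ℕ → (ZMod q)ˣ := fun x => un q x.1 * ui q x.2 with hπ
  have h1 : ∀ χ : DirichletCharacter ℂ q, MM q (I ∪ Pz z) Y χ * RR q I k χ = R3 J w0 π χ := by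
    intro χ
    unfold MM RR R3
    rw [hJ, JJ, Finset.sum_mul_sum, Finset.sum_product]
    apply Finset.sum_congr rfl
    intro a _
    apply Finset.sum_congr rfl
    intro S _
    rw [hπ, hw0]
    simp only [Units.val_mul, map_mul]
    push_cast
    ring
  rw [Finset.sum_congr rfl (fun ψ _ => by rw [h1])]
  have h2 := coset_moment_w H χ₀ J w0 π 1
  have h3 : ∑ ψ : H, ((‖R3 J w0 π (χ₀ * (ψ : DirichletCharacter ℂ q))‖ ^ 2 : ℝ) : ℂ) *
        (χ₀ * (ψ : DirichletCharacter ℂ q)) ((1 : (ZMod q)ˣ) : ZMod q) =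
      ((∑ ψ : H, ‖R3 J w0 π (χ₀ * (ψ : DirichletCharacter ℂ q))‖ ^ 2 : ℝ) : ℂ) := by
    rw [Complex.ofReal_sum]
    apply Finset.sum_congr rfl
    intro χ _
    rw [Units.val_one, map_one, mul_one]
  rw [h3] at h2
  have h4 : ∑ ψ : H, ‖R3 J w0 π (χ₀ * (ψ : DirichletCharacter ℂ q))‖ ^ 2 =
      ‖((∑ ψ : H, ‖R3 J w0 π (χ₀ * (ψ : DirichletCharacter ℂ q))‖ ^ 2 : ℝ) : ℂ)‖ := by
    rw [Complex.norm_real, Real.norm_of_nonneg (Finset.sum_nonneg fun _ _ => by positivity)]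
  rw [h4, h2, norm_mul, Complex.norm_natCast]
  apply mul_le_mul_of_nonneg_left _ (Nat.cast_nonneg _)
  refine (norm_sum_le _ _).trans ?_
  have hsz : ∀ x ∈ J, π x = un q (nn x) ∧ |w0 x| ≤ rs (nn x) := by
    intro x hx
    rw [hJ, mem_JJ] at hx
    have p2 : 0 < ms x.2 := ms_pos fun p hp => hI p (hx.2.1 hp)
    have hle : nn x ≤ Y * B := Nat.mul_le_mul hx.1.1.2 (hB _ (mem_powersetCard.2 hx.2))
    have l1 : x.1 < q := lt_of_le_of_lt (le_trans (Nat.le_mul_of_pos_right _ p2) hle) hYB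
    have l2 : ms x.2 < q := lt_of_le_of_lt (le_trans (Nat.le_mul_of_pos_left _ hx.1.1.1) hle) hYB
    constructor
    · show un q x.1 * un q (ms x.2) = un q (x.1 * ms x.2)
      rw [un_mul (cop_of_lt hx.1.1.1 l1) (cop_of_lt p2 l2)]
    · show |((ArithmeticFunction.moebius x.1 : ℤ) : ℝ) * rs x.1 * rs (ms x.2)| ≤ rs (x.1 * ms x.2)
      rw [rs_mul, mul_assoc, abs_mul, abs_of_nonneg (mul_nonneg (rs_nonneg _) (rs_nonneg _))]
      have : |((ArithmeticFunction.moebius x.1 : ℤ) : ℝ)| ≤ 1 := by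
        exact_mod_cast ArithmeticFunction.abs_moebius_le_one (n := x.1)
      calc _ ≤ 1 * (rs x.1 * rs (ms x.2)) :=
            mul_le_mul_of_nonneg_right this (mul_nonneg (rs_nonneg _) (rs_nonneg _))
        _ = _ := one_mul _
  have hset : prs H J π 1 = PRS q (ann H) I z k Y := by
    unfold prs PRS
    apply Finset.filter_congr
    intro w hw
    rw [mem_product] at hw
    rw [one_mul, (hsz _ hw.1).1, (hsz _ hw.2).1]
  rw [hset]
  apply Finset.sum_le_sum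
  intro w hw
  rw [PRS, mem_filter, mem_product] at hw
  rw [norm_mul, Complex.norm_real, Real.norm_eq_abs, abs_mul]
  have h5 := (hsz _ hw.1.1).2
  have h6 := (hsz _ hw.1.2).2
  calc |w0 w.1| * |w0 w.2| * _ ≤ |w0 w.1| * |w0 w.2| * 1 :=
        mul_le_mul_of_nonneg_left (DirichletCharacter.norm_le_one χ₀ _) (by positivity)
    _ = |w0 w.1| * |w0 w.2| := mul_one _
    _ ≤ _ := mul_le_mul h5 h6 (abs_nonneg _) (rs_nonneg _)

end Pool.Agent.K4H20.TC
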