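import Mathlib
import Pool.Agent.K4H20.TC.T6

/-! The bound for one coset with parameters. -/

set_option autoImplicit false

namespace Pool.Agent.K4H20.TC
open Finset Pool.Agent.K4H49.AC
open Pool.Agent.R311.RES hiding EE
open scoped Classical

variable {q : ℕ} [Fact q.Prime]

lemma MM_one (I : Finset ℕ) (hI : ∀ p ∈ I, p.Prime) (χ : DirichletCharacter ℂ q) : MM q I 1 χ = 1 := by
  unfold MM
  have h1 : AA I 1 = {1} := by
    ext a
    rw [AA, mem_filter, mem_Icc, mem_singleton]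
    constructor
    · rintro ⟨⟨h1, h2⟩, _⟩; omega
    · rintro rfl
      exact ⟨⟨le_rfl, le_rfl⟩, fun p hp h => (hI p hp).one_lt.ne' (Nat.dvd_one.1 h)⟩
  rw [h1, Finset.sum_singleton]
  have h2 : ((un q 1 : (ZMod q)ˣ) : ZMod q) = 1 := by
    rw [un_val (Nat.coprime_one_left q), Nat.cast_one]
  rw [h2, map_one χ]
  simp [rs]

/-- the second moment with its bound -/
theorem second_bd (H : Subgroup (DirichletCharacter ℂ q)) (χ₀ : DirichletCharacter ℂ q) (I : Finset ℕ)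
    (z y k Y B X : ℕ) (γ : ℝ) (hγ : (Fintype.card (ann H) : ℝ) ≤ Real.exp γ)
    (hI : ∀ p ∈ I, p.Prime ∧ y < p) (hz2 : 2 ≤ z) (hzy : z ≤ y)
    (hy : 36 * k ≤ y) (hk0 : 0 < k) (hs18 : 1 / 18 ≤ ∑ p ∈ I, 1 / (p : ℝ))
    (hB : ∀ S ∈ powersetCard k I, ms S ≤ B) (hYB : Y * B < q) (hX : (Y * B) * (Y * B) ≤ X)
    (hXq : (z * X) * (z * X) < q) (Λ : ℝ) (hΛ : ∑ a ∈ Icc 1 Y, 1 / (a : ℝ) ≤ Λ)
    (hcy : (36 * (k : ℝ)) * (2 * Real.log q) ≤ (y : ℝ) ^ (1 / 4 : ℝ))
    (g : ℝ) (hg0 : 0 ≤ g) (hg : γ * (4 * Real.log z) ≤ g * Real.log q)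
    (hg2 : Real.exp g ≤ (z : ℝ) ^ (1 / 4 : ℝ)) (X0 : ℝ) (hX0 : Real.log q ≤ X0 * (Real.sqrt z * Real.log z)) :
    ∑ ψ : H, ‖MM q (I ∪ Pz z) Y (χ₀ * (ψ : DirichletCharacter ℂ q)) * RR q I k (χ₀ * (ψ : DirichletCharacter ℂ q))‖ ^ 2 ≤
      (Fintype.card H : ℝ) * (Λ * EE I k * (1 + ((Nat.clog z X : ℝ) + 1) * Real.exp (g + g * (X0 * Real.exp g) + X0))) := by
  refine (second H χ₀ I z k Y B (fun p hp => (hI p hp).1) hB hYB).trans ?_
  apply mul_le_mul_of_nonneg_left _ (Nat.cast_nonneg _)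
  obtain ⟨R, h1, h2, h3, h4, h5, h6, h7⟩ := pair_sum (ann H) I z y k Y B hI hy hk0 hs18 hB hYB Λ hΛ
  refine h7.trans ?_
  have hΛ0 : 0 ≤ Λ := le_trans (Finset.sum_nonneg fun _ _ => by positivity) hΛ
  apply mul_le_mul_of_nonneg_left _ (mul_nonneg hΛ0 (EE_nonneg I k))
  have hk1 : (1 : ℝ) ≤ k := by exact_mod_cast hk0
  have := den_total (ann H) γ hγ I z y hz2 hI R h1 h2 h3 h4
    (fun r hr p hp hpd => by have := h5 r hr p hp hpd; rwa [min_eq_right hzy] at this) X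
    (fun r hr => (h6 r hr).trans hX) hXq (36 * (k : ℝ)) (by linarith) hcy g hg0 hg hg2 X0 hX0
  linarith

/-- **One coset.** -/
theorem one_coset (H : Subgroup (DirichletCharacter ℂ q)) (χ₀ : DirichletCharacter ℂ q) (I : Finset ℕ)
    (z y k j Y : ℕ) (γ : ℝ) (hγ : (Fintype.card (ann H) : ℝ) ≤ Real.exp γ)
    (hI : ∀ p ∈ I, p.Prime ∧ y < p ∧ p ≤ y ^ 2) (hz2 : 2 ≤ z) (hzy : z ≤ y)
    (hj : 1 ≤ j) (hjk : 576 * j ^ 2 ≤ k) (hy : 36 * (k + j) ≤ y) (hs18 : 1 / 18 ≤ ∑ p ∈ I, 1 / (p : ℝ))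
    (hY : y ^ (2 * j) ≤ Y) (hsize : (y * ((Y * y ^ (2 * (k + j))) * (Y * y ^ (2 * (k + j))))) *
      (y * ((Y * y ^ (2 * (k + j))) * (Y * y ^ (2 * (k + j))))) < q)
    (hzY : ∀ T ⊆ Pz z, ms T * Y < q) (Λ : ℝ) (hΛ1 : 1 ≤ Λ) (hΛ : ∑ a ∈ Icc 1 Y, 1 / (a : ℝ) ≤ Λ)
    (hcy : (36 * ((k + j : ℕ) : ℝ)) * (2 * Real.log q) ≤ (y : ℝ) ^ (1 / 4 : ℝ))
    (g₀ : ℝ) (hg00 : 0 ≤ g₀) (hg0 : γ * (4 * Real.log y) ≤ g₀ * Real.log q)
    (hg02 : 8 * Real.exp (2 * g₀) ≤ (y : ℝ) ^ (1 / 4 : ℝ))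
    (g : ℝ) (hg1 : 0 ≤ g) (hg : γ * (4 * Real.log z) ≤ g * Real.log q)
    (hg2 : Real.exp g ≤ (z : ℝ) ^ (1 / 4 : ℝ)) (X0 : ℝ) (hX0 : Real.log q ≤ X0 * (Real.sqrt z * Real.log z))
    (D : ℝ) (hD : 1 + ((Nat.clog z ((Y * y ^ (2 * (k + j))) * (Y * y ^ (2 * (k + j)))) : ℝ) + 1) *
      Real.exp (g + g * (X0 * Real.exp g) + X0) ≤ D)
    (b : ℝ) (hb : ∏ p ∈ Pz z, (1 + rs p) ≤ b) (e0 : ℝ)
    (he : ∀ v : ℕ, Y < v → v < q → (v.divisors.card : ℝ) * rs v + 4 * Y * rs q ≤ e0)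
    (he' : 4 * Y * rs q ≤ e0)
    (herr : Real.exp γ * ((y : ℝ) ^ (5 * (k + j)) * ((2 ^ (Pz z).card + 1) * e0)) ≤ 1 / 4) :
    ∃ ψ ∈ H, Real.exp j / (4 * b * (D * Real.sqrt Λ)) ≤ ‖DirichletCharacter.LFunction (χ₀ * ψ) (1 / 2)‖ := by
  have hqp : q.Prime := Fact.out
  have hIp : ∀ p ∈ I, p.Prime := fun p hp => (hI p hp).1
  have hIy : ∀ p ∈ I, y < p := fun p hp => (hI p hp).2.1
  have hIpy : ∀ p ∈ I, p.Prime ∧ y < p := fun p hp => ⟨hIp p hp, hIy p hp⟩
  have hk1 : 1 ≤ k := by nlinarith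
  have hk'0 : 0 < k + j := by omega
  have hy0 : 0 < y := by omega
  have hyr : (1 : ℝ) ≤ y := by exact_mod_cast hy0
  have hyr0 : (0 : ℝ) < y := by linarith
  have hΛ0 : 0 < Λ := by linarith
  obtain ⟨Epos', Epos, Elow, Equo⟩ := quotient_low I y k j hj hjk hIy hy hs18
  -- sizes
  have hms : ∀ r : ℕ, ∀ S ⊆ I, S.card = r → ms S ≤ y ^ (2 * r) := by
    intro r S hS hc
    rw [pow_mul, ← hc, ← Finset.prod_const]
    exact Finset.prod_le_prod' fun p hp => (hI p (hS hp)).2.2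
  have hms' : ∀ r : ℕ, ∀ S ∈ powersetCard r I, ms S ≤ y ^ (2 * r) := by
    intro r S hS
    rw [mem_powersetCard] at hS
    exact hms r S hS.1 hS.2
  set B' := y ^ (2 * (k + j)) with hB'
  have hB'0 : 0 < B' := Nat.pow_pos hy0
  have hYpos : 0 < Y := lt_of_lt_of_le (Nat.pow_pos hy0) hY
  have hBB' : y ^ (2 * k) ≤ B' := Nat.pow_le_pow_right hy0 (by omega)
  have hYB'0 : 0 < Y * B' := Nat.mul_pos hYpos hB'0
  set X := (Y * B') * (Y * B') with hX
  have hX00 : 0 < X := Nat.mul_pos hYB'0 hYB'0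
  have hYBX : Y * B' ≤ X := Nat.le_mul_of_pos_right _ hYB'0
  have hXq1 : y * X < q := lt_of_le_of_lt (Nat.le_mul_of_pos_right _ (Nat.mul_pos hy0 hX00)) hsize
  have hXq2 : X < q := lt_of_le_of_lt (Nat.le_mul_of_pos_left _ hy0) hXq1
  have hYB'q : Y * B' < q := lt_of_le_of_lt hYBX hXq2
  have hYBq : Y * y ^ (2 * k) < q := lt_of_le_of_lt (Nat.mul_le_mul_left _ hBB') hYB'q
  have hYq : Y < q := lt_of_le_of_lt (Nat.le_mul_of_pos_right _ hB'0) hYB'q
  have hB'q : B' < q := lt_of_le_of_lt (Nat.le_mul_of_pos_left _ hYpos) hYB'q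
  set N : ℝ := ((powersetCard (k + j) I ×ˢ powersetCard k I).card : ℝ) with hN
  have hN' : N ≤ (y : ℝ) ^ (4 * (k + j)) := by
    have hcardI : I.card ≤ y ^ 2 := by
      have : I ⊆ Icc 1 (y ^ 2) := by
        intro p hp
        rw [mem_Icc]
        exact ⟨(hIp p hp).one_lt.le, (hI p hp).2.2⟩
      have := card_le_card this
      rwa [Nat.card_Icc, Nat.add_sub_cancel] at this
    rw [hN, card_product, card_powersetCard, card_powersetCard]
    have h1 : ∀ r : ℕ, I.card.choose r ≤ y ^ (2 * r) := by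
      intro r
      refine (Nat.choose_le_pow _ _).trans ?_
      rw [pow_mul]
      exact Nat.pow_le_pow_left hcardI r
    have h2 : I.card.choose (k + j) * I.card.choose k ≤ y ^ (4 * (k + j)) := by
      calc I.card.choose (k + j) * I.card.choose k ≤ y ^ (2 * (k + j)) * y ^ (2 * k) := Nat.mul_le_mul (h1 _) (h1 _)
        _ = y ^ (2 * (k + j) + 2 * k) := (pow_add _ _ _).symm
        _ ≤ _ := Nat.pow_le_pow_right hy0 (by omega)
    exact_mod_cast h2
  set err : ℝ := N * ((2 ^ (Pz z).card + 1) * e0) with herr0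
  have he00 : 0 ≤ e0 := le_trans (by have := rs_nonneg q; positivity) he'
  have herr00 : 0 ≤ err := by positivity
  set t₀ : ℝ := (((k + j).choose k : ℕ) : ℝ) * EE I (k + j) with ht₀
  have hC1 : (1 : ℝ) ≤ (((k + j).choose k : ℕ) : ℝ) := by
    exact_mod_cast Nat.choose_pos (by omega : k ≤ k + j)
  have ht₀0 : 0 < t₀ := by positivity
  set t₁ : ℝ := WS q I k (k + j) Y 1 with ht₁
  have ht01 : t₀ ≤ t₁ := by
    refine main_low I hIp k (k + j) Y (by omega) hYq ?_ ?_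
    · intro T hT hTc
      rw [Nat.add_sub_cancel_left] at hTc
      exact (hms j T hT hTc).trans hY
    · intro S hS
      exact lt_of_le_of_lt (hms' _ S hS) hB'q
  -- the coefficients
  set W := WW q I k (k + j) (CB q I z Y) with hW
  have hWS : ∀ g' : (ZMod q)ˣ, ‖W g' - ((WS q I k (k + j) Y g' : ℝ) : ℂ)‖ ≤ err := by
    intro g'
    have e1 : W g' - ((WS q I k (k + j) Y g' : ℝ) : ℂ) =
        ∑ x ∈ powersetCard (k + j) I ×ˢ powersetCard k I, ((rs (ms x.1) * rs (ms x.2) : ℝ) : ℂ) *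
          (CB q I z Y (g' * ui q x.1 * (ui q x.2)⁻¹) - ((CS q I Y (g' * ui q x.1 * (ui q x.2)⁻¹) : ℝ) : ℂ)) := by
      rw [hW]
      unfold WW WS
      rw [Finset.sum_product, Complex.ofReal_sum, ← Finset.sum_sub_distrib]
      apply Finset.sum_congr rfl
      intro S' _
      rw [Complex.ofReal_sum, Finset.mul_sum, ← Finset.sum_sub_distrib]
      apply Finset.sum_congr rfl
      intro S _
      push_cast
      ring
    rw [e1]
    refine (norm_sum_le _ _).trans ?_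
    have e2 : ∀ x ∈ powersetCard (k + j) I ×ˢ powersetCard k I, ‖((rs (ms x.1) * rs (ms x.2) : ℝ) : ℂ) *
          (CB q I z Y (g' * ui q x.1 * (ui q x.2)⁻¹) - ((CS q I Y (g' * ui q x.1 * (ui q x.2)⁻¹) : ℝ) : ℂ))‖ ≤
        (2 ^ (Pz z).card + 1) * e0 := by
      intro x _
      rw [norm_mul, Complex.norm_real, Real.norm_eq_abs, abs_of_nonneg (mul_nonneg (rs_nonneg _) (rs_nonneg _))]
      have h1 := CB_approx I z Y (fun p hp => ⟨hIp p hp, lt_of_le_of_lt hzy (hIy p hp)⟩) hzY hYpos e0 he he'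
        (g' * ui q x.1 * (ui q x.2)⁻¹)
      have h2 : rs (ms x.1) * rs (ms x.2) ≤ 1 := by
        have := mul_le_mul (rs_le_one (ms x.1)) (rs_le_one (ms x.2)) (rs_nonneg _) zero_le_one
        linarith
      calc _ ≤ 1 * ((2 ^ (Pz z).card + 1) * e0) := mul_le_mul h2 h1 (norm_nonneg _) zero_le_one
        _ = _ := one_mul _
    refine (Finset.sum_le_sum e2).trans ?_
    rw [Finset.sum_const, nsmul_eq_mul]
  -- the numerator
  have hnum := num_sum (ann H) γ hγ I y k (k + j) Y (y ^ (2 * k)) B' (by omega) hIpy (by omega) hk'0 hy hs18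
    (hms' k) (hms' (k + j)) (by
      intro V hV hVc
      exact (hms V.card V hV rfl).trans (Nat.pow_le_pow_right hy0 (by omega)))
    (by
      have h1 : Y * y ^ (2 * k) * B' ≤ X := by
        calc Y * y ^ (2 * k) * B' ≤ (Y * B') * B' := Nat.mul_le_mul_right _ (Nat.mul_le_mul_left _ hBB')
          _ ≤ (Y * B') * (Y * B') := Nat.mul_le_mul_left _ (Nat.le_mul_of_pos_left _ hYpos)
      exact lt_of_le_of_lt (Nat.mul_le_mul (Nat.mul_le_mul_left _ h1) (Nat.mul_le_mul_left _ h1)) hsize)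
    hcy g₀ hg00 hg0 hg02
  have hcardH : (0 : ℝ) < Fintype.card H := by
    have : 0 < Fintype.card H := Fintype.card_pos
    exact_mod_cast this
  have hlow : (Fintype.card H : ℝ) * (t₀ / 2) ≤ ‖∑ ψ : H, Wf W (χ₀ * (ψ : DirichletCharacter ℂ q))‖ := by
    rw [coset_sum]
    unfold Wf
    have e1 : ∑ g' : (ZMod q)ˣ, (Fintype.card H : ℂ) * (if g' ∈ ann H then W g' else 0) * χ₀ (g' : ZMod q) =
        (Fintype.card H : ℂ) * (W 1 + ∑ g' ∈ univ.filter (fun g' : (ZMod q)ˣ => g' ∈ ann H ∧ g' ≠ 1),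
          W g' * χ₀ (g' : ZMod q)) := by
      have e2 : ∑ g' : (ZMod q)ˣ, (Fintype.card H : ℂ) * (if g' ∈ ann H then W g' else 0) * χ₀ (g' : ZMod q) =
          (Fintype.card H : ℂ) * ∑ g' ∈ univ.filter (fun g' : (ZMod q)ˣ => g' ∈ ann H), W g' * χ₀ (g' : ZMod q) := by
        rw [Finset.sum_filter, Finset.mul_sum]
        apply Finset.sum_congr rfl
        intro g' _
        by_cases h : g' ∈ ann H
        · rw [if_pos h, if_pos h]; ring
        · rw [if_neg h, if_neg h]; ring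
      rw [e2]
      congr 1
      have h1m : (1 : (ZMod q)ˣ) ∈ univ.filter (fun g' : (ZMod q)ˣ => g' ∈ ann H) :=
        mem_filter.2 ⟨mem_univ _, (ann H).one_mem⟩
      rw [← Finset.add_sum_erase _ _ h1m, Units.val_one, map_one, mul_one]
      congr 1
      apply Finset.sum_congr _ (fun _ _ => rfl)
      ext g'
      rw [mem_erase, mem_filter, mem_filter]
      tauto
    rw [e1, norm_mul, Complex.norm_natCast]
    apply mul_le_mul_of_nonneg_left _ hcardH.le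
    have h1 : t₁ - err ≤ ‖W 1‖ := by
      have h2 := hWS 1
      have h3 : ‖((t₁ : ℝ) : ℂ)‖ ≤ ‖W 1‖ + ‖W 1 - ((t₁ : ℝ) : ℂ)‖ := by
        have := norm_sub_le (W 1) (W 1 - ((t₁ : ℝ) : ℂ))
        rwa [sub_sub_cancel] at this
      rw [Complex.norm_real, Real.norm_of_nonneg (ht₀0.le.trans ht01)] at h3
      linarith
    have h4 : ‖∑ g' ∈ univ.filter (fun g' : (ZMod q)ˣ => g' ∈ ann H ∧ g' ≠ 1), W g' * χ₀ (g' : ZMod q)‖ ≤
        (1 / 4) * t₀ + ((univ.filter (fun g' : (ZMod q)ˣ => g' ∈ ann H ∧ g' ≠ 1)).card : ℝ) * err := by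
      refine (norm_sum_le _ _).trans ?_
      have h5 : ∀ g' ∈ univ.filter (fun g' : (ZMod q)ˣ => g' ∈ ann H ∧ g' ≠ 1), ‖W g' * χ₀ (g' : ZMod q)‖ ≤
          WS q I k (k + j) Y g' + err := by
        intro g' _
        rw [norm_mul]
        have h6 : ‖W g'‖ ≤ WS q I k (k + j) Y g' + err := by
          have h7 := hWS g'
          have h8 := norm_add_le (W g' - ((WS q I k (k + j) Y g' : ℝ) : ℂ)) ((WS q I k (k + j) Y g' : ℝ) : ℂ)
          rw [sub_add_cancel, Complex.norm_real, Real.norm_of_nonneg] at h8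
          · linarith
          · unfold WS
            exact Finset.sum_nonneg fun S' _ => Finset.sum_nonneg fun S _ =>
              mul_nonneg (rs_nonneg _) (mul_nonneg (rs_nonneg _) (CS_nonneg _ _ _))
        calc ‖W g'‖ * ‖χ₀ (g' : ZMod q)‖ ≤ ‖W g'‖ * 1 :=
              mul_le_mul_of_nonneg_left (DirichletCharacter.norm_le_one χ₀ _) (norm_nonneg _)
          _ ≤ _ := by rw [mul_one]; exact h6
      refine (Finset.sum_le_sum h5).trans ?_
      rw [Finset.sum_add_distrib, Finset.sum_const, nsmul_eq_mul]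
      linarith
    have h9 : ((univ.filter (fun g' : (ZMod q)ˣ => g' ∈ ann H ∧ g' ≠ 1)).card : ℝ) + 1 ≤ Real.exp γ := by
      refine le_trans ?_ hγ
      have h10 : (univ.filter (fun g' : (ZMod q)ˣ => g' ∈ ann H ∧ g' ≠ 1)).card + 1 ≤
          (univ.filter (fun g' : (ZMod q)ˣ => g' ∈ ann H)).card := by
        have h1m : (1 : (ZMod q)ˣ) ∈ univ.filter (fun g' : (ZMod q)ˣ => g' ∈ ann H) :=
          mem_filter.2 ⟨mem_univ _, (ann H).one_mem⟩
        rw [← Finset.card_erase_add_one h1m]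
        apply Nat.succ_le_succ
        apply card_le_card
        intro g'
        rw [mem_erase, mem_filter, mem_filter]
        tauto
      have h11 : Fintype.card (ann H) = (univ.filter (fun g' : (ZMod q)ˣ => g' ∈ ann H)).card := by
        rw [Fintype.card_subtype]
      rw [h11]
      exact_mod_cast h10
    have h12 : Real.exp γ * err ≤ t₀ / 4 := by
      have h13 : (y : ℝ) ^ (-((k + j : ℕ) : ℝ)) ≤ t₀ := by
        refine Elow.trans ?_
        calc EE I (k + j) = 1 * EE I (k + j) := (one_mul _).symm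
          _ ≤ t₀ := mul_le_mul_of_nonneg_right hC1 Epos'.le
      have h14 : (y : ℝ) ^ (-((k + j : ℕ) : ℝ)) * (y : ℝ) ^ (k + j) = 1 := by
        rw [Real.rpow_neg hyr0.le, Real.rpow_natCast, inv_mul_cancel₀ (by positivity)]
      have h15 : Real.exp γ * err * (y : ℝ) ^ (k + j) ≤ 1 / 4 := by
        refine le_trans ?_ herr
        rw [herr0]
        calc Real.exp γ * (N * ((2 ^ (Pz z).card + 1) * e0)) * (y : ℝ) ^ (k + j) =
            Real.exp γ * ((N * (y : ℝ) ^ (k + j)) * ((2 ^ (Pz z).card + 1) * e0)) := by ring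
          _ ≤ Real.exp γ * (((y : ℝ) ^ (4 * (k + j)) * (y : ℝ) ^ (k + j)) * ((2 ^ (Pz z).card + 1) * e0)) := by
              apply mul_le_mul_of_nonneg_left _ (Real.exp_pos _).le
              apply mul_le_mul_of_nonneg_right _ (by positivity)
              exact mul_le_mul_of_nonneg_right hN' (by positivity)
          _ = _ := by
              rw [← pow_add]
              congr 3
              ring
      have hexp0 : 0 ≤ Real.exp γ * err := mul_nonneg (Real.exp_pos _).le herr00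
      calc Real.exp γ * err = (Real.exp γ * err * (y : ℝ) ^ (k + j)) * (y : ℝ) ^ (-((k + j : ℕ) : ℝ)) := by
            rw [mul_assoc (Real.exp γ * err), mul_comm ((y : ℝ) ^ (k + j)), h14, mul_one]
        _ ≤ (1 / 4) * t₀ := mul_le_mul h15 h13 (by positivity) (by norm_num)
        _ = _ := by ring
    have h16 : (((univ.filter (fun g' : (ZMod q)ˣ => g' ∈ ann H ∧ g' ≠ 1)).card : ℝ) + 1) * err ≤ t₀ / 4 :=
      (mul_le_mul_of_nonneg_right h9 herr00).trans h12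
    have h17 := norm_sub_le_norm_add (W 1) (∑ g' ∈ univ.filter (fun g' : (ZMod q)ˣ => g' ∈ ann H ∧ g' ≠ 1),
      W g' * χ₀ (g' : ZMod q))
    linarith
  -- the denominator
  by_contra hcon
  push Not at hcon
  set V : ℝ := Real.exp j / (4 * b * (D * Real.sqrt Λ)) with hV
  have hb0 : 0 < b := by
    refine lt_of_lt_of_le ?_ hb
    exact Finset.prod_pos fun p _ => by have := rs_nonneg p; linarith
  have hE0 : 0 < Real.exp (g + g * (X0 * Real.exp g) + X0) := Real.exp_pos _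
  have hD0 : 1 ≤ D := by
    refine le_trans ?_ hD
    have : 0 ≤ ((Nat.clog z X : ℝ) + 1) * Real.exp (g + g * (X0 * Real.exp g) + X0) := by positivity
    linarith
  have hsqΛ : 0 < Real.sqrt Λ := Real.sqrt_pos.2 hΛ0
  have hV0 : 0 < V := by positivity
  have hkj : ((k + j : ℕ) : ℝ) = k + j := by push_cast; ring
  have hlogq : 0 ≤ Real.log q := Real.log_natCast_nonneg q
  have s1 := second_bd H χ₀ I z y k Y (y ^ (2 * k)) X γ hγ hIpy hz2 hzy (by omega) (by omega) hs18 (hms' k) hYBq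
    (Nat.mul_le_mul (Nat.mul_le_mul_left _ hBB') (Nat.mul_le_mul_left _ hBB'))
    (lt_of_le_of_lt (Nat.mul_le_mul (Nat.mul_le_mul_right _ hzy) (Nat.mul_le_mul_right _ hzy)) hsize) Λ hΛ
    (by
      refine le_trans ?_ hcy
      apply mul_le_mul_of_nonneg_right _ (by positivity)
      rw [hkj]
      have : (0 : ℝ) ≤ j := Nat.cast_nonneg _
      linarith) g hg1 hg hg2 X0 hX0
  have s2 := second_bd H χ₀ I z y (k + j) 1 B' X γ hγ hIpy hz2 hzy hy hk'0 hs18 (hms' (k + j))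
    (by rw [one_mul]; exact hB'q)
    (Nat.mul_le_mul (Nat.mul_le_mul_right _ hYpos) (Nat.mul_le_mul_right _ hYpos))
    (lt_of_le_of_lt (Nat.mul_le_mul (Nat.mul_le_mul_right _ hzy) (Nat.mul_le_mul_right _ hzy)) hsize) 1 (by simp)
    hcy g hg1 hg hg2 X0 hX0
  have hMM1 : ∀ χ : DirichletCharacter ℂ q, MM q (I ∪ Pz z) 1 χ = 1 := fun χ => MM_one _ (by
    intro p hp
    rcases mem_union.1 hp with h | h
    · exact hIp p h
    · exact (mem_Pz.1 h).1) χ
  simp only [hMM1, one_mul] at s2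
  have hup : ‖∑ ψ : H, Wf W (χ₀ * (ψ : DirichletCharacter ℂ q))‖ ≤
      V * b * ((Fintype.card H : ℝ) * (D * Real.sqrt Λ * Real.sqrt (EE I k * EE I (k + j)))) := by
    have h1 : ∀ ψ : H, ‖Wf W (χ₀ * (ψ : DirichletCharacter ℂ q))‖ ≤ V * b *
        (‖MM q (I ∪ Pz z) Y (χ₀ * (ψ : DirichletCharacter ℂ q)) * RR q I k (χ₀ * (ψ : DirichletCharacter ℂ q))‖ *
          ‖RR q I (k + j) (χ₀ * (ψ : DirichletCharacter ℂ q))‖) := by
      intro ψ
      rw [hW, ← product_eq' I z k (k + j) Y, norm_mul, norm_mul, norm_mul, RCLike.norm_conj]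
      have h2 := (hcon ψ ψ.2).le
      have h3 := (BB_norm q z (χ₀ * (ψ : DirichletCharacter ℂ q))).trans hb
      have h4 := mul_le_mul h2 h3 (norm_nonneg _) hV0.le
      calc ‖DirichletCharacter.LFunction (χ₀ * (ψ : DirichletCharacter ℂ q)) (1 / 2)‖ *
          (‖BB q z (χ₀ * (ψ : DirichletCharacter ℂ q))‖ *
            ‖MM q (I ∪ Pz z) Y (χ₀ * (ψ : DirichletCharacter ℂ q)) * RR q I k (χ₀ * (ψ : DirichletCharacter ℂ q))‖ *
            ‖RR q I (k + j) (χ₀ * (ψ : DirichletCharacter ℂ q))‖) =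
          (‖DirichletCharacter.LFunction (χ₀ * (ψ : DirichletCharacter ℂ q)) (1 / 2)‖ *
            ‖BB q z (χ₀ * (ψ : DirichletCharacter ℂ q))‖) *
            (‖MM q (I ∪ Pz z) Y (χ₀ * (ψ : DirichletCharacter ℂ q)) * RR q I k (χ₀ * (ψ : DirichletCharacter ℂ q))‖ *
            ‖RR q I (k + j) (χ₀ * (ψ : DirichletCharacter ℂ q))‖) := by ring
        _ ≤ _ := mul_le_mul_of_nonneg_right h4 (by positivity)
    refine (norm_sum_le _ _).trans ?_
    refine (Finset.sum_le_sum fun ψ _ => h1 ψ).trans ?_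
    rw [← Finset.mul_sum]
    apply mul_le_mul_of_nonneg_left _ (by positivity)
    refine (Real.sum_mul_le_sqrt_mul_sqrt _ _ _).trans ?_
    have hDD : ∀ x : ℝ, 0 ≤ x → (Fintype.card H : ℝ) * (x * (1 + ((Nat.clog z X : ℝ) + 1) *
        Real.exp (g + g * (X0 * Real.exp g) + X0))) ≤ (Fintype.card H : ℝ) * (x * D) := fun x hx =>
      mul_le_mul_of_nonneg_left (mul_le_mul_of_nonneg_left hD hx) hcardH.le
    have s1' := s1.trans (hDD (Λ * EE I k) (by positivity))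
    have s2' := s2.trans (hDD (EE I (k + j)) Epos'.le)
    calc _ ≤ Real.sqrt ((Fintype.card H : ℝ) * (Λ * EE I k * D)) * Real.sqrt ((Fintype.card H : ℝ) * (EE I (k + j) * D)) :=
          mul_le_mul (Real.sqrt_le_sqrt s1') (Real.sqrt_le_sqrt s2') (Real.sqrt_nonneg _) (Real.sqrt_nonneg _)
      _ = Real.sqrt (((Fintype.card H : ℝ) * D) ^ 2 * (Λ * (EE I k * EE I (k + j)))) := by
          rw [← Real.sqrt_mul (by positivity)]
          congr 1; ring
      _ = _ := by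
          rw [Real.sqrt_mul (by positivity), Real.sqrt_sq (by positivity), Real.sqrt_mul hΛ0.le]
          ring
  have hfin := hlow.trans hup
  have e1 : V * b * ((Fintype.card H : ℝ) * (D * Real.sqrt Λ * Real.sqrt (EE I k * EE I (k + j)))) =
      (Fintype.card H : ℝ) * ((Real.exp j * Real.sqrt (EE I k * EE I (k + j))) / 4) := by
    rw [hV]
    have : D ≠ 0 := by linarith
    field_simp
  rw [e1] at hfin
  have h2 := le_of_mul_le_mul_left hfin hcardH
  linarith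

end Pool.Agent.K4H20.TC
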