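import Mathlib
import Pool.Agent.K4H20.TC.T7
import Pool.Agent.R311.RES.C9

/-! Auxiliary bounds for the choice of the parameters. -/

set_option autoImplicit false

namespace Pool.Agent.K4H20.TC
open Finset Pool.Agent.K4H49.AC Filter Topology
open Pool.Agent.R311.RES hiding EE
open scoped Classical

lemma ms_le_four (z : ℕ) {T : Finset ℕ} (hT : T ⊆ Pz z) : ms T ≤ 4 ^ z := by
  refine le_trans ?_ (primorial_le_four_pow z)
  unfold primorial ms
  apply Finset.prod_le_prod_of_subset_of_one_le'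
  · intro p hp
    have := mem_Pz.1 (hT hp)
    rw [mem_filter, mem_range]
    exact ⟨by omega, this.1⟩
  · intro p hp _
    rw [mem_filter] at hp
    exact hp.2.one_lt.le

lemma card_Pz (z : ℕ) : (Pz z).card ≤ z := by
  unfold Pz
  refine (card_filter_le _ _).trans ?_
  rw [Nat.card_Icc]
  omega

lemma card_large (z : ℕ) (w : ℝ) (hw : 1 < w) :
    (((Pz z).filter (fun p : ℕ => w < (p : ℝ))).card : ℝ) * Real.log w ≤ z * Real.log 4 := by
  set S := (Pz z).filter (fun p : ℕ => w < (p : ℝ)) with hS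
  have h1 : w ^ S.card ≤ (ms S : ℝ) := by
    unfold ms
    rw [Nat.cast_prod, ← Finset.prod_const]
    apply Finset.prod_le_prod
    · intro _ _; linarith
    · intro p hp
      rw [hS, mem_filter] at hp
      exact hp.2.le
  have h2 : ms S ≤ 4 ^ z := ms_le_four z (filter_subset _ _)
  have h3 : w ^ S.card ≤ (4 : ℝ) ^ z := h1.trans (by exact_mod_cast h2)
  have h4 := Real.log_le_log (by positivity) h3
  rw [Real.log_pow, Real.log_pow] at h4
  exact h4

lemma rs_rpow (p : ℕ) : rs p = (p : ℝ) ^ (-(1 / 2 : ℝ)) := by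
  unfold rs
  rw [Real.sqrt_eq_rpow, ← Real.rpow_neg (Nat.cast_nonneg _)]

/-- the size of the exact mollifier -/
lemma prod_bd (z : ℕ) (z0 l : ℝ) (hz0 : 1 < z0) (hl : 0 < l) (hlz : l / 2 ≤ Real.log z0) (hz : (z : ℝ) ≤ z0 * l) :
    ∏ p ∈ Pz z, (1 + rs p) ≤ Real.exp (5 * Real.sqrt z0) := by
  have h0 : (0 : ℝ) < z0 := by linarith
  have h1 := card_large z z0 hz0
  have hlog4 : Real.log 4 ≤ 1.4 := by
    have : (4 : ℝ) = 2 ^ 2 := by norm_num
    rw [this, Real.log_pow]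
    have := Real.log_two_lt_d9
    push_cast; linarith
  have h2 : (((Pz z).filter (fun p : ℕ => z0 < (p : ℝ))).card : ℝ) ≤ 3 * z0 := by
    have h3 : (((Pz z).filter (fun p : ℕ => z0 < (p : ℝ))).card : ℝ) * (l / 2) ≤ (3 * z0) * (l / 2) := by
      calc (((Pz z).filter (fun p : ℕ => z0 < (p : ℝ))).card : ℝ) * (l / 2) ≤
          (((Pz z).filter (fun p : ℕ => z0 < (p : ℝ))).card : ℝ) * Real.log z0 :=
            mul_le_mul_of_nonneg_left hlz (Nat.cast_nonneg _)
        _ ≤ z * Real.log 4 := h1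
        _ ≤ (z0 * l) * 1.4 := mul_le_mul hz hlog4 (Real.log_nonneg (by norm_num)) (by positivity)
        _ ≤ _ := by nlinarith [mul_pos h0 hl]
    exact le_of_mul_le_mul_right h3 (by positivity)
  have h4 := prod_B_le (Pz z) (fun p hp => (mem_Pz.1 hp).1) z0 (3 * z0) h0 h2
  have h5 : ∏ p ∈ Pz z, (1 + rs p) = ∏ p ∈ Pz z, (1 + (p : ℝ) ^ (-(1 / 2 : ℝ))) := by
    apply Finset.prod_congr rfl
    intro p _
    rw [rs_rpow]
  rw [h5]
  refine h4.trans (Real.exp_le_exp.2 ?_)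
  have h6 : 3 * z0 / Real.sqrt z0 = 3 * Real.sqrt z0 := by
    have h7 : Real.sqrt z0 ≠ 0 := (Real.sqrt_pos.2 h0).ne'
    rw [div_eq_iff h7, mul_assoc, Real.mul_self_sqrt h0.le]
  rw [h6]
  linarith

/-- the conditions on `x = log q` -/
structure Bg (δ c₂ c₃ C x : ℝ) : Prop where
  x1 : 1000000 ≤ x
  m : 4608 ≤ c₂ * (x / Real.log x)
  d1 : Real.sqrt x ≤ δ * x / Real.log x
  d2 : 2 * Real.log x ^ 4 ≤ δ * x
  E : Real.log (Real.log x) + 8 / Real.sqrt δ * (Real.sqrt x / Real.log x * Real.log x ^ (1 / 4 : ℝ)) ≤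
    c₃ / 8 * Real.sqrt (x / Real.log x)
  fin : 4 + 4 * Real.log x ≤ c₃ / 8 * Real.sqrt (x / Real.log x)
  err : 16 * C + 32 ≤ Real.exp (x / 64)

lemma log_pow_small (C a : ℝ) (n : ℕ) (ha : 0 < a) : ∀ᶠ x : ℝ in atTop, C * Real.log x ^ n ≤ x ^ a := by
  have h1 : Tendsto (fun x : ℝ => Real.log x ^ n / x ^ a) atTop (𝓝 0) := by
    have := isLittleO_log_rpow_rpow_atTop (n : ℝ) ha
    have h2 := this.tendsto_div_nhds_zero
    refine h2.congr' ?_
    filter_upwards [eventually_gt_atTop (1 : ℝ)] with x hx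
    rw [Real.rpow_natCast]
  have h3 := h1.const_mul C
  rw [mul_zero] at h3
  filter_upwards [h3.eventually_le_const (show (0 : ℝ) < 1 by norm_num), eventually_gt_atTop (1 : ℝ)] with x h4 h5
  have hx : 0 < x ^ a := Real.rpow_pos_of_pos (by linarith) _
  rw [← mul_div_assoc, div_le_one hx] at h4
  exact h4

lemma Bg_ev (δ c₂ c₃ C : ℝ) (hδ : 0 < δ) (hc₂ : 0 < c₂) (hc₃ : 0 < c₃) : ∀ᶠ x : ℝ in atTop, Bg δ c₂ c₃ C x := by
  have hl : Tendsto (fun x : ℝ => Real.log x) atTop atTop := Real.tendsto_log_atTop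
  have hl4 : Tendsto (fun x : ℝ => Real.log x ^ (1 / 4 : ℝ)) atTop atTop :=
    (tendsto_rpow_atTop (by norm_num)).comp hl
  have hsδ : 0 < Real.sqrt δ := Real.sqrt_pos.2 hδ
  have hexp : Tendsto (fun x : ℝ => Real.exp (x / 64)) atTop atTop :=
    Real.tendsto_exp_atTop.comp (tendsto_id.atTop_div_const (by norm_num))
  filter_upwards [eventually_ge_atTop (1000000 : ℝ), log_pow_small (4608 / c₂) (1 / 2) 1 (by norm_num),
    log_pow_small (1 / δ) (1 / 2) 1 (by norm_num), log_pow_small (2 / δ) (1 / 2) 4 (by norm_num),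
    hl4.eventually_ge_atTop (128 / (c₃ * Real.sqrt δ)), log_pow_small (128 / c₃) (1 / 8) 2 (by norm_num),
    hexp.eventually_ge_atTop (16 * C + 32), hl.eventually_ge_atTop 1] with x a1 a2 a3 a4 a5 a6 a7 a8
  have hx0 : 0 < x := by linarith
  have hx1 : 1 ≤ x := by linarith
  have hL0 : 0 < Real.log x := by linarith
  have hsx : x ^ (1 / 2 : ℝ) = Real.sqrt x := (Real.sqrt_eq_rpow x).symm
  have hsx0 : 0 < Real.sqrt x := Real.sqrt_pos.2 hx0
  have hss : Real.sqrt x * Real.sqrt x = x := Real.mul_self_sqrt hx0.le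
  rw [hsx] at a2 a3 a4
  rw [pow_one] at a2 a3
  have hsx1 : 1 ≤ Real.sqrt x := Real.one_le_sqrt.2 hx1
  -- √(x / log x) ≥ x ^ (1/4)
  have hq : Real.log x ^ 2 ≤ x ^ (1 / 8 : ℝ) * (c₃ / 128) := by
    rw [div_mul_eq_mul_div, div_le_iff₀ hc₃] at a6
    linarith
  have hs4 : x ^ (1 / 4 : ℝ) ≤ Real.sqrt (x / Real.log x) := by
    rw [Real.le_sqrt (Real.rpow_nonneg hx0.le _) (by positivity), le_div_iff₀ hL0]
    have e1 : (x ^ (1 / 4 : ℝ)) ^ 2 = Real.sqrt x := by
      rw [← Real.rpow_natCast, ← Real.rpow_mul hx0.le, Real.sqrt_eq_rpow]; norm_num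
    have e2 : Real.log x ≤ Real.sqrt x := by
      have := Real.log_le_rpow_div hx0.le (show (0 : ℝ) < 1 / 4 by norm_num)
      have h3 : x ^ (1 / 4 : ℝ) / (1 / 4) ≤ Real.sqrt x := by
        have h4 : (4 : ℝ) ≤ x ^ (1 / 4 : ℝ) := by
          have h5 : (256 : ℝ) ^ (1 / 4 : ℝ) = 4 := by
            rw [show (256 : ℝ) = 4 ^ (4 : ℕ) by norm_num, ← Real.rpow_natCast, ← Real.rpow_mul (by norm_num)]
            norm_num
          exact h5.symm.le.trans (Real.rpow_le_rpow (by norm_num) (by linarith) (by norm_num))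
        have h6 : Real.sqrt x = x ^ (1 / 4 : ℝ) * x ^ (1 / 4 : ℝ) := by
          rw [← Real.rpow_add hx0, Real.sqrt_eq_rpow]; norm_num
        rw [h6]
        have h7 : (0 : ℝ) ≤ x ^ (1 / 4 : ℝ) := by linarith
        nlinarith
      linarith
    rw [e1]
    calc Real.sqrt x * Real.log x ≤ Real.sqrt x * Real.sqrt x := mul_le_mul_of_nonneg_left e2 hsx0.le
      _ = x := hss
  have hx18 : x ^ (1 / 8 : ℝ) ≤ x ^ (1 / 4 : ℝ) := Real.rpow_le_rpow_of_exponent_le hx1 (by norm_num)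
  have hLL : Real.log x ≤ Real.log x ^ 2 := by nlinarith
  have hlog2 : Real.log x ≤ c₃ / 128 * Real.sqrt (x / Real.log x) := by
    calc Real.log x ≤ x ^ (1 / 8 : ℝ) * (c₃ / 128) := hLL.trans hq
      _ ≤ Real.sqrt (x / Real.log x) * (c₃ / 128) := mul_le_mul_of_nonneg_right (hx18.trans hs4) (by positivity)
      _ = _ := by ring
  refine ⟨a1, ?_, ?_, ?_, ?_, ?_, a7⟩
  · rw [← mul_div_assoc, le_div_iff₀ hL0]
    rw [div_mul_eq_mul_div, div_le_iff₀ hc₂] at a2
    have h1 : Real.sqrt x ≤ x := by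
      calc Real.sqrt x = Real.sqrt x * 1 := (mul_one _).symm
        _ ≤ Real.sqrt x * Real.sqrt x := mul_le_mul_of_nonneg_left hsx1 hsx0.le
        _ = x := hss
    nlinarith
  · rw [le_div_iff₀ hL0]
    rw [div_mul_eq_mul_div, one_mul, div_le_iff₀ hδ] at a3
    calc Real.sqrt x * Real.log x ≤ Real.sqrt x * (Real.sqrt x * δ) := mul_le_mul_of_nonneg_left a3 hsx0.le
      _ = δ * (Real.sqrt x * Real.sqrt x) := by ring
      _ = δ * x := by rw [hss]
  · rw [div_mul_eq_mul_div, div_le_iff₀ hδ] at a4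
    have h1 : Real.sqrt x ≤ x := by
      calc Real.sqrt x = Real.sqrt x * 1 := (mul_one _).symm
        _ ≤ Real.sqrt x * Real.sqrt x := mul_le_mul_of_nonneg_left hsx1 hsx0.le
        _ = x := hss
    calc 2 * Real.log x ^ 4 ≤ Real.sqrt x * δ := a4
      _ ≤ x * δ := mul_le_mul_of_nonneg_right h1 hδ.le
      _ = _ := by ring
  · have h1 : Real.log (Real.log x) ≤ Real.log x := by
      have := Real.log_le_sub_one_of_pos hL0
      linarith
    have h2 : Real.sqrt (x / Real.log x) = Real.sqrt x / Real.log x ^ (1 / 2 : ℝ) := by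
      rw [Real.sqrt_div hx0.le, Real.sqrt_eq_rpow (Real.log x)]
    have hL4 : 0 < Real.log x ^ (1 / 4 : ℝ) := Real.rpow_pos_of_pos hL0 _
    have h3 : Real.sqrt x / Real.log x * Real.log x ^ (1 / 4 : ℝ) = Real.sqrt (x / Real.log x) / Real.log x ^ (1 / 4 : ℝ) := by
      rw [h2]
      have e1 : Real.log x = Real.log x ^ (1 / 2 : ℝ) * (Real.log x ^ (1 / 4 : ℝ) * Real.log x ^ (1 / 4 : ℝ)) := by
        rw [← Real.rpow_add hL0, ← Real.rpow_add hL0]; norm_num
      have hL2 : 0 < Real.log x ^ (1 / 2 : ℝ) := Real.rpow_pos_of_pos hL0 _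
      rw [div_mul_eq_mul_div, div_div, div_eq_div_iff hL0.ne' (by positivity)]
      calc Real.sqrt x * Real.log x ^ (1 / 4 : ℝ) * (Real.log x ^ (1 / 2 : ℝ) * Real.log x ^ (1 / 4 : ℝ)) =
          Real.sqrt x * (Real.log x ^ (1 / 2 : ℝ) * (Real.log x ^ (1 / 4 : ℝ) * Real.log x ^ (1 / 4 : ℝ))) := by ring
        _ = _ := by rw [← e1]
    rw [h3]
    have hS0 : 0 ≤ Real.sqrt (x / Real.log x) := Real.sqrt_nonneg _
    have h4 : 8 / Real.sqrt δ * (Real.sqrt (x / Real.log x) / Real.log x ^ (1 / 4 : ℝ)) ≤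
        c₃ / 16 * Real.sqrt (x / Real.log x) := by
      have h5 : 128 ≤ Real.log x ^ (1 / 4 : ℝ) * (c₃ * Real.sqrt δ) := by
        rw [div_le_iff₀ (by positivity)] at a5
        exact a5
      have h6 : 8 / Real.sqrt δ / Real.log x ^ (1 / 4 : ℝ) ≤ c₃ / 16 := by
        rw [div_div, div_le_div_iff₀ (by positivity) (by norm_num)]
        linarith
      calc 8 / Real.sqrt δ * (Real.sqrt (x / Real.log x) / Real.log x ^ (1 / 4 : ℝ)) =
          (8 / Real.sqrt δ / Real.log x ^ (1 / 4 : ℝ)) * Real.sqrt (x / Real.log x) := by ring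
        _ ≤ _ := mul_le_mul_of_nonneg_right h6 hS0
    have : 0 ≤ c₃ * Real.sqrt (x / Real.log x) := by positivity
    linarith
  · have : 0 ≤ c₃ * Real.sqrt (x / Real.log x) := by positivity
    linarith

end Pool.Agent.K4H20.TC
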