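import Mathlib
import Pool.Agent.K4H20.TC.T8
import Pool.Agent.K4H49.AC.A11
import Pool.Agent.H353R2.Z2

/-! The choice of the parameters. -/

set_option autoImplicit false

namespace Pool.Agent.K4H20.TC
open Finset Pool.Agent.K4H49.AC Filter Topology
open Pool.Agent.R311.RES hiding EE
open scoped Classical

lemma exp13 : Real.exp 13 ≤ 1000000 := by
  have h1 : Real.exp 13 = Real.exp 1 ^ 13 := by rw [← Real.exp_nat_mul]; norm_num
  have h2 := Real.exp_one_lt_d9
  rw [h1]
  calc Real.exp 1 ^ 13 ≤ (2.7182818286 : ℝ) ^ 13 := pow_le_pow_left₀ (Real.exp_pos _).le h2.le _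
    _ ≤ 1000000 := by norm_num

lemma clog_bd {b X q : ℕ} (hb : 2 ≤ b) (hX : X ≤ q) (hq : 2 ≤ q) : (Nat.clog b X : ℝ) ≤ 2 * Real.log q + 1 := by
  have h1 : Nat.clog b X ≤ Nat.clog 2 q := (Nat.clog_anti_left (by norm_num) hb).trans (Nat.clog_mono_right 2 hX)
  have h2 : 2 ^ (Nat.clog 2 q).pred < q := Nat.pow_pred_clog_lt_self (by norm_num) (by omega)
  have h3 : 1 ≤ Nat.clog 2 q := Nat.clog_pos (by norm_num) hq
  have h4 : (((Nat.clog 2 q).pred : ℕ) : ℝ) * Real.log 2 ≤ Real.log q := by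
    rw [← Real.log_pow]
    apply Real.log_le_log (by positivity)
    exact_mod_cast h2.le
  have h5 : (((Nat.clog 2 q).pred : ℕ) : ℝ) = (Nat.clog 2 q : ℝ) - 1 := by
    rw [Nat.pred_eq_sub_one, Nat.cast_sub h3, Nat.cast_one]
  rw [h5] at h4
  have h6 := Real.log_two_gt_d9
  have h7 : (Nat.clog b X : ℝ) ≤ Nat.clog 2 q := by exact_mod_cast h1
  have h8 : (1 : ℝ) ≤ Nat.clog 2 q := by exact_mod_cast h3
  nlinarith

lemma final_step {x l s c c₃ : ℝ} {j : ℕ} (b1 : 1000000 ≤ x) (hxl : x = Real.exp l) (hs0 : 0 ≤ s)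
    (hcc₃ : c ≤ c₃ / 2) (b6 : 4 + 4 * l ≤ c₃ / 8 * s) (hjlow : c₃ * s ≤ j) :
    Real.exp (c * s) * (4 * Real.exp (c₃ / 4 * s) * ((2 * x + 3) * Real.exp (c₃ / 8 * s) * Real.sqrt (1 + x))) ≤
      Real.exp j := by
  have hx0 : 0 < x := by linarith
  have h1 : 4 * (2 * x + 3) * Real.sqrt (1 + x) ≤ Real.exp (4 + 4 * l) := by
    have h2 : Real.sqrt (1 + x) ≤ x := by
      rw [Real.sqrt_le_left hx0.le]; nlinarith
    have h3 : Real.exp (4 + 4 * l) = Real.exp 4 * x ^ 4 := by
      rw [Real.exp_add, hxl, ← Real.exp_nat_mul]; norm_num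
    have h4 : (5 : ℝ) ≤ Real.exp 4 := by
      have := Real.add_one_le_exp (4 : ℝ)
      linarith
    rw [h3]
    have h6 : 4 * (2 * x + 3) * x ≤ 5 * x ^ 4 := by
      have h7 : 2 * x + 3 ≤ x * x := by nlinarith
      have h8 : x * x * x ≤ x ^ 4 := by
        have : x * x * x * 1 ≤ x * x * x * x := mul_le_mul_of_nonneg_left (by linarith) (by positivity)
        nlinarith
      have h9 : (2 * x + 3) * x ≤ x * x * x := mul_le_mul_of_nonneg_right h7 hx0.le
      have h10 : 0 ≤ x ^ 4 := by positivity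
      linarith
    calc 4 * (2 * x + 3) * Real.sqrt (1 + x) ≤ 4 * (2 * x + 3) * x := mul_le_mul_of_nonneg_left h2 (by positivity)
      _ ≤ 5 * x ^ 4 := h6
      _ ≤ _ := mul_le_mul_of_nonneg_right h4 (by positivity)
  calc Real.exp (c * s) * (4 * Real.exp (c₃ / 4 * s) * ((2 * x + 3) * Real.exp (c₃ / 8 * s) * Real.sqrt (1 + x))) =
      (Real.exp (c * s) * Real.exp (c₃ / 4 * s) * Real.exp (c₃ / 8 * s)) * (4 * (2 * x + 3) * Real.sqrt (1 + x)) := by ring
    _ ≤ (Real.exp (c * s) * Real.exp (c₃ / 4 * s) * Real.exp (c₃ / 8 * s)) * Real.exp (4 + 4 * l) :=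
        mul_le_mul_of_nonneg_left h1 (by positivity)
    _ = Real.exp (c * s + c₃ / 4 * s + c₃ / 8 * s + (4 + 4 * l)) := by
        rw [← Real.exp_add, ← Real.exp_add, ← Real.exp_add]
    _ ≤ Real.exp j := by
        apply Real.exp_le_exp.2
        have := mul_le_mul_of_nonneg_right hcc₃ hs0
        linarith

theorem core : ∃ c : ℝ, 0 < c ∧ ∃ q₀ : ℕ, ∀ (q : ℕ) [Fact q.Prime], q₀ ≤ q →
    ∀ (H : Subgroup (DirichletCharacter ℂ q)) (χ₀ : DirichletCharacter ℂ q),
      (Fintype.card (ann H) : ℝ) ≤ Real.exp (c * Real.log q * Real.log (Real.log (Real.log q)) /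
        Real.log (Real.log q)) →
      ∃ ψ ∈ H, Real.exp (c * Real.sqrt (Real.log q / Real.log (Real.log q))) ≤
        ‖DirichletCharacter.LFunction (χ₀ * ψ) (1 / 2)‖ := by
  obtain ⟨θ, hθ⟩ : ∃ θ : ℝ, θ = 1 / 2000 := ⟨_, rfl⟩
  have hθ0 : 0 < θ := by rw [hθ]; norm_num
  obtain ⟨c₂, hc₂⟩ : ∃ c₂ : ℝ, c₂ = θ / 13 := ⟨_, rfl⟩
  have hc₂0 : 0 < c₂ := by rw [hc₂]; positivity
  obtain ⟨c₃, hc₃⟩ : ∃ c₃ : ℝ, c₃ = Real.sqrt (c₂ / 2) / 48 := ⟨_, rfl⟩
  have hc₃0 : 0 < c₃ := by rw [hc₃]; positivity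
  obtain ⟨δ, hδ⟩ : ∃ δ : ℝ, δ = min (1 / 200) ((c₃ / 20) ^ 2) := ⟨_, rfl⟩
  have hδ0 : 0 < δ := by rw [hδ]; exact lt_min (by norm_num) (by positivity)
  have hδ1 : δ ≤ 1 / 200 := by rw [hδ]; exact min_le_left _ _
  have hδ2 : Real.sqrt δ ≤ c₃ / 20 := by
    rw [Real.sqrt_le_left (by positivity), hδ]; exact min_le_right _ _
  have hsδ0 : 0 < Real.sqrt δ := Real.sqrt_pos.2 hδ0
  obtain ⟨C, hC0, hC⟩ := _root_.H353.divisor_bound_real (1 / 400) (by norm_num)
  obtain ⟨c, hc⟩ : ∃ c : ℝ, c = min (1 / 200) (c₃ / 2) := ⟨_, rfl⟩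
  have hc0 : 0 < c := by rw [hc]; exact lt_min (by norm_num) (by positivity)
  have hc200 : c ≤ 1 / 200 := by rw [hc]; exact min_le_left _ _
  have hcc₃ : c ≤ c₃ / 2 := by rw [hc]; exact min_le_right _ _
  have hev := (Real.tendsto_log_atTop.comp tendsto_natCast_atTop_atTop).eventually (Bg_ev δ c₂ c₃ C hδ0 hc₂0 hc₃0)
  obtain ⟨q₀, hq₀⟩ := eventually_atTop.1 hev
  refine ⟨c, hc0, q₀, ?_⟩
  intro q _ hqq H χ₀ hG
  have hqp : q.Prime := Fact.out
  have hbig := hq₀ q hqq
  simp only [Function.comp_apply] at hbig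
  obtain ⟨x, hx⟩ : ∃ x : ℝ, x = Real.log q := ⟨_, rfl⟩
  rw [← hx] at hbig hG ⊢
  obtain ⟨b1, b2, b3, b4, b5, b6, b7⟩ := hbig
  have hx0 : 0 < x := by linarith
  have hq0 : (0 : ℝ) < q := by exact_mod_cast hqp.pos
  have hqx : (q : ℝ) = Real.exp x := by rw [hx]; exact (Real.exp_log hq0).symm
  obtain ⟨l, hl⟩ : ∃ l : ℝ, l = Real.log x := ⟨_, rfl⟩
  rw [← hl] at b2 b3 b4 b5 b6 hG ⊢
  have hxl : x = Real.exp l := by rw [hl]; exact (Real.exp_log hx0).symm
  have hl13 : 13 ≤ l := by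
    rw [hl, Real.le_log_iff_exp_le hx0]
    exact exp13.trans b1
  have hl0 : 0 < l := by linarith
  obtain ⟨m3, hm3⟩ : ∃ m3 : ℝ, m3 = Real.log l := ⟨_, rfl⟩
  rw [← hm3] at b5 hG
  have hlm : l = Real.exp m3 := by rw [hm3]; exact (Real.exp_log hl0).symm
  have hm32 : 2 ≤ m3 := by
    rw [hm3, Real.le_log_iff_exp_le hl0]
    have := aux_exp2
    linarith
  have hm3l : m3 ≤ l / 2 := by
    have h1 : Real.log l = Real.log (l / 2) + Real.log 2 := by
      rw [← Real.log_mul (by positivity) (by norm_num)]; congr 1; ring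
    have h2 := Real.log_le_sub_one_of_pos (show 0 < l / 2 by positivity)
    have h3 := Real.log_two_lt_d9
    rw [hm3, h1]; linarith
  have hsx0 : 0 < Real.sqrt x := Real.sqrt_pos.2 hx0
  have hss : Real.sqrt x * Real.sqrt x = x := Real.mul_self_sqrt hx0.le
  have hsx1000 : 1000 ≤ Real.sqrt x := by
    rw [Real.le_sqrt (by norm_num) hx0.le]; linarith
  have hlx : l ≤ x / 500 := by
    have h1 := Real.log_le_rpow_div hx0.le (show (0 : ℝ) < 1 / 2 by norm_num)
    rw [← Real.sqrt_eq_rpow, ← hl] at h1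
    have h2 : 1000 * Real.sqrt x ≤ x := by
      calc 1000 * Real.sqrt x ≤ Real.sqrt x * Real.sqrt x := mul_le_mul_of_nonneg_right hsx1000 hsx0.le
        _ = x := hss
    linarith
  -- the size of the primes
  obtain ⟨y, hy⟩ : ∃ y : ℕ, y = ⌈Real.exp (12 * l)⌉₊ := ⟨_, rfl⟩
  have hy1 : Real.exp (12 * l) ≤ y := by rw [hy]; exact Nat.le_ceil _
  have hexp1 : 1 ≤ Real.exp (12 * l) := Real.one_le_exp (by positivity)
  have hy2 : (y : ℝ) ≤ 2 * Real.exp (12 * l) := by
    have := Nat.ceil_lt_add_one (Real.exp_pos (12 * l)).le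
    rw [← hy] at this
    linarith
  have hy0 : (0 : ℝ) < y := by linarith
  have hly1 : 12 * l ≤ Real.log y := (Real.le_log_iff_exp_le hy0).2 hy1
  have hly2 : Real.log y ≤ 13 * l := by
    have h1 : Real.log y ≤ Real.log 2 + 12 * l := by
      have := Real.log_le_log hy0 hy2
      rwa [Real.log_mul (by norm_num) (Real.exp_pos _).ne', Real.log_exp] at this
    have h2 : Real.log 2 ≤ 1 := by
      have := Real.log_two_lt_d9; linarith
    linarith
  have hly0 : 0 < Real.log y := by linarith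
  have hx12 : x ^ 12 ≤ y := by
    refine le_trans (le_of_eq ?_) hy1
    rw [hxl, ← Real.exp_nat_mul]; norm_num
  have hy4 : x ^ 3 ≤ (y : ℝ) ^ (1 / 4 : ℝ) := by
    have h1 : (Real.exp (12 * l)) ^ (1 / 4 : ℝ) ≤ (y : ℝ) ^ (1 / 4 : ℝ) :=
      Real.rpow_le_rpow (Real.exp_pos _).le hy1 (by norm_num)
    refine le_trans (le_of_eq ?_) h1
    rw [← Real.exp_mul, hxl, ← Real.exp_nat_mul]
    congr 1; push_cast; ring
  have hx1 : 1 ≤ x := by linarith
  have hx2y : x ^ 2 ≤ y := (pow_le_pow_right₀ hx1 (by norm_num)).trans hx12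
  have hxbig : 1000000 * x ≤ x ^ 2 := by
    rw [pow_two]; exact mul_le_mul_of_nonneg_right b1 hx0.le
  have hyN : 1000000 ≤ y := by
    have : (1000000 : ℝ) ≤ y := by linarith
    exact_mod_cast this
  -- the degrees
  obtain ⟨k, hk⟩ : ∃ k : ℕ, k = ⌊θ * x / Real.log y⌋₊ := ⟨_, rfl⟩
  have hkup : (k : ℝ) * Real.log y ≤ θ * x := by
    have h1 : (k : ℝ) ≤ θ * x / Real.log y := by rw [hk]; exact Nat.floor_le (by positivity)
    rwa [le_div_iff₀ hly0] at h1
  obtain ⟨s, hs⟩ : ∃ s : ℝ, s = Real.sqrt (x / l) := ⟨_, rfl⟩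
  rw [← hs] at b5 b6 ⊢
  have hs0 : 0 ≤ s := by rw [hs]; exact Real.sqrt_nonneg _
  have hklow : c₂ * (x / l) / 2 ≤ k := by
    have h1 : θ * x / Real.log y < k + 1 := by rw [hk]; exact Nat.lt_floor_add_one _
    have h2 : c₂ * (x / l) ≤ θ * x / Real.log y := by
      rw [le_div_iff₀ hly0]
      calc c₂ * (x / l) * Real.log y ≤ c₂ * (x / l) * (13 * l) := mul_le_mul_of_nonneg_left hly2 (by positivity)
        _ = θ * x := by
          rw [hc₂]; field_simp
    linarith
  have hkx : (k : ℝ) ≤ x / 2 := by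
    have h1 : (k : ℝ) * 1 ≤ k * Real.log y := mul_le_mul_of_nonneg_left (by linarith) (Nat.cast_nonneg _)
    have h2 : θ * x ≤ 1 / 2 * x := mul_le_mul_of_nonneg_right (by rw [hθ]; norm_num) hx0.le
    linarith
  obtain ⟨j, hj⟩ : ∃ j : ℕ, j = ⌊Real.sqrt k / 24⌋₊ := ⟨_, rfl⟩
  have hsqk : Real.sqrt (c₂ * (x / l) / 2) ≤ Real.sqrt k := Real.sqrt_le_sqrt hklow
  have hsq48 : 48 ≤ Real.sqrt (c₂ * (x / l) / 2) := by
    rw [Real.le_sqrt (by norm_num) (by positivity)]
    linarith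
  have hjlow : c₃ * s ≤ j := by
    have h1 : Real.sqrt k / 24 < j + 1 := by rw [hj]; exact Nat.lt_floor_add_one _
    have h2 : Real.sqrt (c₂ * (x / l) / 2) / 24 - 1 ≥ Real.sqrt (c₂ * (x / l) / 2) / 48 := by linarith
    have h3 : Real.sqrt (c₂ * (x / l) / 2) = Real.sqrt (c₂ / 2) * s := by
      rw [hs, ← Real.sqrt_mul (by positivity)]
      congr 1; ring
    rw [hc₃]
    rw [h3] at h2 hsqk
    have h4 : Real.sqrt (c₂ / 2) * s / 24 ≤ Real.sqrt k / 24 := by linarith
    have h5 : Real.sqrt (c₂ / 2) / 48 * s = Real.sqrt (c₂ / 2) * s / 48 := by ring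
    linarith
  have hj1 : 1 ≤ j := by
    rw [hj, Nat.one_le_floor_iff, le_div_iff₀ (by norm_num)]
    linarith
  have hjk : 576 * j ^ 2 ≤ k := by
    have h1 : (j : ℝ) ≤ Real.sqrt k / 24 := by rw [hj]; exact Nat.floor_le (by positivity)
    have h2 : (j : ℝ) ^ 2 ≤ (Real.sqrt k / 24) ^ 2 := pow_le_pow_left₀ (Nat.cast_nonneg _) h1 2
    rw [div_pow, Real.sq_sqrt (Nat.cast_nonneg _)] at h2
    have h3 : (576 : ℝ) * j ^ 2 ≤ k := by linarith
    exact_mod_cast h3
  have hjk2 : 2 * j ≤ k := aux_jk hj1 hjk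
  have hk1 : 1 ≤ k := by omega
  have hkj : ((k + j : ℕ) : ℝ) ≤ 3 / 2 * k := by
    have : ((2 * j : ℕ) : ℝ) ≤ k := by exact_mod_cast hjk2
    push_cast at this ⊢
    linarith
  have hkjx : ((k + j : ℕ) : ℝ) ≤ x := by linarith
  -- powers of `y`
  have hypow : ∀ n : ℕ, (y : ℝ) ^ n = Real.exp (n * Real.log y) := by
    intro n
    rw [Real.exp_nat_mul, Real.exp_log hy0]
  have hyk : ∀ n : ℕ, ∀ t : ℝ, 0 ≤ t → (n : ℝ) ≤ t * k → (y : ℝ) ^ n ≤ Real.exp (t * θ * x) := by
    intro n t ht hn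
    rw [hypow]
    apply Real.exp_le_exp.2
    calc (n : ℝ) * Real.log y ≤ t * k * Real.log y := mul_le_mul_of_nonneg_right hn hly0.le
      _ = t * (k * Real.log y) := by ring
      _ ≤ t * (θ * x) := mul_le_mul_of_nonneg_left hkup ht
      _ = _ := by ring
  -- the lengths of the mollifiers
  obtain ⟨Y, hY⟩ : ∃ Y : ℕ, Y = ⌊Real.exp (x / 16)⌋₊ := ⟨_, rfl⟩
  have hYup : (Y : ℝ) ≤ Real.exp (x / 16) := by rw [hY]; exact Nat.floor_le (Real.exp_pos _).le
  have hYlow : Real.exp (x / 16) / 2 ≤ Y := by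
    have h1 : Real.exp (x / 16) < Y + 1 := by rw [hY]; exact Nat.lt_floor_add_one _
    have h2 : (2 : ℝ) ≤ Real.exp (x / 16) := by
      have := Real.add_one_le_exp (x / 16)
      linarith
    linarith
  have hY1 : 1 ≤ Y := by
    have h2 : (2 : ℝ) ≤ Real.exp (x / 16) := by
      have := Real.add_one_le_exp (x / 16)
      linarith
    have : (1 : ℝ) ≤ Y := by linarith
    exact_mod_cast this
  obtain ⟨z, hz⟩ : ∃ z : ℕ, z = ⌊δ * x⌋₊ := ⟨_, rfl⟩
  have hδx : Real.sqrt x * l ≤ δ * x := by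
    rw [le_div_iff₀ hl0] at b3; exact b3
  have hδx2 : 13000 ≤ δ * x := by
    refine le_trans ?_ hδx
    calc (13000 : ℝ) = 1000 * 13 := by norm_num
      _ ≤ Real.sqrt x * l := mul_le_mul hsx1000 hl13 (by norm_num) hsx0.le
  have hzup : (z : ℝ) ≤ δ * x := by rw [hz]; exact Nat.floor_le (by positivity)
  have hzlow : δ * x / 2 ≤ z := by
    have h1 : δ * x < z + 1 := by rw [hz]; exact Nat.lt_floor_add_one _
    linarith
  have hz2 : 2 ≤ z := by
    have : (2 : ℝ) ≤ z := by linarith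
    exact_mod_cast this
  have hz0 : (0 : ℝ) < z := by exact_mod_cast (by omega : 0 < z)
  have hzx : (z : ℝ) ≤ x / 200 := by
    have := mul_le_mul_of_nonneg_right hδ1 hx0.le
    linarith
  have hzx' : (z : ℝ) ≤ x := by linarith
  have hzy : z ≤ y := by
    have : (z : ℝ) ≤ y := by linarith
    exact_mod_cast this
  have hlz1 : l / 2 ≤ Real.log z := by
    have h1 : Real.sqrt x ≤ z := by
      have : Real.sqrt x * 2 ≤ Real.sqrt x * l := mul_le_mul_of_nonneg_left (by linarith) hsx0.le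
      linarith
    have h2 := Real.log_le_log hsx0 h1
    rw [Real.log_sqrt hx0.le, ← hl] at h2
    exact h2
  have hlz2 : Real.log z ≤ l := by
    rw [hl]; exact Real.log_le_log hz0 hzx'
  -- the order of the subgroup
  obtain ⟨γ, hγ⟩ : ∃ γ : ℝ, γ = c * x * m3 / l := ⟨_, rfl⟩
  rw [← hγ] at hG
  have hγl : γ * l = c * x * m3 := by rw [hγ]; field_simp
  have hγ0 : 0 ≤ γ := by rw [hγ]; positivity
  have hγx : γ ≤ x / 400 := by
    rw [hγ, div_le_iff₀ hl0]
    have h1 : c * x * m3 ≤ 1 / 200 * x * (l / 2) := by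
      apply mul_le_mul _ hm3l (by linarith) (by positivity)
      exact mul_le_mul_of_nonneg_right hc200 hx0.le
    linarith
  have hcm : c * m3 ≤ 1 / 200 * m3 := mul_le_mul_of_nonneg_right hc200 (by linarith)
  have hcm0 : 0 ≤ c * m3 := by positivity
  -- the exponent of the loss
  obtain ⟨g, hg⟩ : ∃ g : ℝ, g = 4 * (c * m3) := ⟨_, rfl⟩
  have hg0 : 0 ≤ g := by rw [hg]; positivity
  have hgm : g ≤ m3 := by rw [hg]; linarith
  obtain ⟨X0, hX0⟩ : ∃ X0 : ℝ, X0 = 4 / Real.sqrt δ * (Real.sqrt x / l) := ⟨_, rfl⟩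
  have hX00 : 0 < X0 := by rw [hX0]; positivity
  have hE : g + g * (X0 * Real.exp g) + X0 ≤ c₃ / 8 * s := by
    refine le_trans ?_ b5
    have hl4 : l ^ (1 / 4 : ℝ) = Real.exp (m3 * (1 / 4)) := by
      rw [Real.rpow_def_of_pos hl0, ← hm3]
    have h1 : 1 ≤ l ^ (1 / 4 : ℝ) := by rw [hl4]; exact Real.one_le_exp (by positivity)
    have h2 : g * Real.exp g ≤ l ^ (1 / 4 : ℝ) := by
      calc g * Real.exp g ≤ Real.exp g * Real.exp g := by
            apply mul_le_mul_of_nonneg_right _ (Real.exp_pos _).le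
            have := Real.add_one_le_exp g
            linarith
        _ = Real.exp (g + g) := (Real.exp_add _ _).symm
        _ ≤ Real.exp (m3 * (1 / 4)) := Real.exp_le_exp.2 (by rw [hg]; linarith)
        _ = _ := hl4.symm
    calc g + g * (X0 * Real.exp g) + X0 = g + X0 * (g * Real.exp g + 1) := by ring
      _ ≤ m3 + X0 * (l ^ (1 / 4 : ℝ) + l ^ (1 / 4 : ℝ)) := by
          apply add_le_add hgm
          apply mul_le_mul_of_nonneg_left _ hX00.le
          linarith
      _ = m3 + 8 / Real.sqrt δ * (Real.sqrt x / l * l ^ (1 / 4 : ℝ)) := by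
          rw [hX0]; ring
  have hX0q : Real.log q ≤ X0 * (Real.sqrt z * Real.log z) := by
    rw [← hx]
    have h1 : Real.sqrt δ * Real.sqrt x / 2 ≤ Real.sqrt z := by
      rw [Real.le_sqrt (by positivity) hz0.le, div_pow, mul_pow, Real.sq_sqrt hδ0.le, Real.sq_sqrt hx0.le]
      linarith
    have h2 : Real.sqrt δ * Real.sqrt x / 2 * (l / 2) ≤ Real.sqrt z * Real.log z :=
      mul_le_mul h1 hlz1 (by positivity) (Real.sqrt_nonneg _)
    calc x = X0 * (Real.sqrt δ * Real.sqrt x / 2 * (l / 2)) := by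
          rw [hX0]
          have e1 : 4 / Real.sqrt δ * (Real.sqrt x / l) * (Real.sqrt δ * Real.sqrt x / 2 * (l / 2)) =
              Real.sqrt x * Real.sqrt x := by
            field_simp
            ring
          rw [e1, hss]
      _ ≤ _ := mul_le_mul_of_nonneg_left h2 hX00.le
  -- the primes
  set I : Finset ℕ := Pool.Agent.H17HN.win (y ^ 2) with hI
  have hIall : ∀ p ∈ I, p.Prime ∧ y < p ∧ p ≤ y ^ 2 := by
    intro p hp
    have h1 := Pool.Agent.H17HN.mem_win.1 hp
    exact ⟨h1.2.1, lt_of_pow_lt_pow_left₀ 2 (Nat.zero_le _) h1.2.2, h1.1.2⟩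
  have hs18 : 1 / 18 ≤ ∑ p ∈ I, 1 / (p : ℝ) := by
    apply Pool.Agent.H17HN.win_sum
    calc 4 ^ 20 ≤ (1048576) ^ 2 := by norm_num
      _ ≤ y ^ 2 := by
        apply Nat.pow_le_pow_left
        have : (1048576 : ℝ) ≤ y := by
          linarith
        exact_mod_cast this
  have hyNpos : 0 < y := by omega
  -- sizes
  have hB' : (y : ℝ) ^ (2 * (k + j)) ≤ Real.exp (3 * θ * x) := by
    apply hyk _ 3 (by norm_num)
    push_cast at hkj ⊢
    linarith
  have hYB' : (Y : ℝ) * (y : ℝ) ^ (2 * (k + j)) ≤ Real.exp (x / 16 + 3 * θ * x) := by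
    rw [Real.exp_add]
    exact mul_le_mul hYup hB' (by positivity) (Real.exp_pos _).le
  have hyexp : (y : ℝ) ≤ Real.exp (13 * l) := by
    rw [← Real.log_le_iff_le_exp hy0]; exact hly2
  have hsizer : ((y : ℝ) * (((Y : ℝ) * (y : ℝ) ^ (2 * (k + j))) * ((Y : ℝ) * (y : ℝ) ^ (2 * (k + j))))) *
      ((y : ℝ) * (((Y : ℝ) * (y : ℝ) ^ (2 * (k + j))) * ((Y : ℝ) * (y : ℝ) ^ (2 * (k + j))))) < q := by
    have h1 : (y : ℝ) * (((Y : ℝ) * (y : ℝ) ^ (2 * (k + j))) * ((Y : ℝ) * (y : ℝ) ^ (2 * (k + j)))) ≤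
        Real.exp (13 * l + ((x / 16 + 3 * θ * x) + (x / 16 + 3 * θ * x))) := by
      rw [Real.exp_add, Real.exp_add (x / 16 + 3 * θ * x)]
      apply mul_le_mul hyexp _ (by positivity) (Real.exp_pos _).le
      exact mul_le_mul hYB' hYB' (by positivity) (Real.exp_pos _).le
    calc _ ≤ Real.exp (13 * l + ((x / 16 + 3 * θ * x) + (x / 16 + 3 * θ * x))) *
          Real.exp (13 * l + ((x / 16 + 3 * θ * x) + (x / 16 + 3 * θ * x))) :=
          mul_le_mul h1 h1 (by positivity) (Real.exp_pos _).le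
      _ = Real.exp ((13 * l + ((x / 16 + 3 * θ * x) + (x / 16 + 3 * θ * x))) +
          (13 * l + ((x / 16 + 3 * θ * x) + (x / 16 + 3 * θ * x)))) := (Real.exp_add _ _).symm
      _ < Real.exp x := by
          apply Real.exp_lt_exp.2
          rw [hθ]
          linarith
      _ = q := hqx.symm
  have hsize : (y * ((Y * y ^ (2 * (k + j))) * (Y * y ^ (2 * (k + j))))) *
      (y * ((Y * y ^ (2 * (k + j))) * (Y * y ^ (2 * (k + j))))) < q := by exact_mod_cast hsizer
  have h4z : (4 : ℝ) ^ z ≤ Real.exp (x / 100) := by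
    have h1 : (4 : ℝ) ^ z = Real.exp (z * Real.log 4) := by
      rw [Real.exp_nat_mul, Real.exp_log (by norm_num)]
    rw [h1]
    apply Real.exp_le_exp.2
    have hlog4 : Real.log 4 ≤ 2 := by
      have : (4 : ℝ) = 2 ^ 2 := by norm_num
      rw [this, Real.log_pow]
      have := Real.log_two_lt_d9
      push_cast; linarith
    calc (z : ℝ) * Real.log 4 ≤ x / 200 * 2 := mul_le_mul hzx hlog4 (Real.log_nonneg (by norm_num)) (by positivity)
      _ = _ := by ring
  have h2z : (2 : ℝ) ^ (Pz z).card + 1 ≤ 2 * Real.exp (x / 200) := by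
    have h1 : (2 : ℝ) ^ (Pz z).card ≤ 2 ^ z := pow_le_pow_right₀ (by norm_num) (card_Pz z)
    have h2 : (2 : ℝ) ^ z = Real.exp (z * Real.log 2) := by
      rw [Real.exp_nat_mul, Real.exp_log (by norm_num)]
    have h3 : (2 : ℝ) ^ z ≤ Real.exp (x / 200) := by
      rw [h2]
      apply Real.exp_le_exp.2
      have := Real.log_two_lt_d9
      calc (z : ℝ) * Real.log 2 ≤ x / 200 * 1 :=
            mul_le_mul hzx (by linarith) (Real.log_nonneg (by norm_num)) (by positivity)
        _ = _ := by ring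
    have h4 : 1 ≤ Real.exp (x / 200) := Real.one_le_exp (by positivity)
    linarith
  have hzY : ∀ T ⊆ Pz z, ms T * Y < q := by
    intro T hT
    have h1 : ((ms T : ℕ) : ℝ) ≤ Real.exp (x / 100) := by
      refine le_trans ?_ h4z
      exact_mod_cast ms_le_four z hT
    have h2 : ((ms T : ℕ) : ℝ) * Y < q := by
      calc ((ms T : ℕ) : ℝ) * Y ≤ Real.exp (x / 100) * Real.exp (x / 16) :=
            mul_le_mul h1 hYup (Nat.cast_nonneg _) (Real.exp_pos _).le
        _ = Real.exp (x / 100 + x / 16) := (Real.exp_add _ _).symm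
        _ < Real.exp x := Real.exp_lt_exp.2 (by linarith)
        _ = q := hqx.symm
    exact_mod_cast h2
  -- the harmonic sum
  have hΛ : ∑ a ∈ Icc 1 Y, 1 / (a : ℝ) ≤ 1 + x := by
    have h1 : (Y : ℝ) ≤ q := by
      rw [hqx]
      exact hYup.trans (Real.exp_le_exp.2 (by linarith))
    have h2 := harm_le Y (F := (q : ℝ)) (by exact_mod_cast hqp.one_lt.le) h1
    rw [← hx] at h2
    exact h2
  -- the errors
  obtain ⟨e0, he0⟩ : ∃ e0 : ℝ, e0 = C * Real.exp (x / 400) * (2 * Real.exp (-(x / 32))) +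
    4 * Real.exp (x / 16) * Real.exp (-(x / 2)) := ⟨_, rfl⟩
  have hrsq : rs q = Real.exp (-(x / 2)) := by
    rw [rs_rpow, hqx, ← Real.exp_mul]; congr 1; ring
  have h4Y : 4 * (Y : ℝ) * rs q ≤ 4 * Real.exp (x / 16) * Real.exp (-(x / 2)) := by
    rw [hrsq]
    exact mul_le_mul_of_nonneg_right (by linarith) (Real.exp_pos _).le
  have he : ∀ v : ℕ, Y < v → v < q → (v.divisors.card : ℝ) * rs v + 4 * Y * rs q ≤ e0 := by
    intro v hv hvq
    have h1 : (v.divisors.card : ℝ) ≤ C * Real.exp (x / 400) := by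
      refine (hC v (by omega)).trans (mul_le_mul_of_nonneg_left ?_ hC0.le)
      calc (v : ℝ) ^ (1 / 400 : ℝ) ≤ (q : ℝ) ^ (1 / 400 : ℝ) :=
            Real.rpow_le_rpow (Nat.cast_nonneg _) (by exact_mod_cast hvq.le) (by norm_num)
        _ = Real.exp (x / 400) := by rw [hqx, ← Real.exp_mul]; congr 1; ring
    have h2 : rs v ≤ 2 * Real.exp (-(x / 32)) := by
      have h3 : Real.exp (x / 32) / 2 ≤ Real.sqrt v := by
        rw [Real.le_sqrt (by positivity) (Nat.cast_nonneg _), div_pow]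
        have h5 : Real.exp (x / 32) ^ 2 = Real.exp (x / 16) := by
          rw [← Real.exp_nat_mul]; congr 1; push_cast; ring
        rw [h5]
        have h6 : (Y : ℝ) ≤ v := by exact_mod_cast hv.le
        have h7 := Real.exp_pos (x / 16)
        norm_num
        linarith
      unfold rs
      have h8 : 0 < Real.exp (x / 32) / 2 := by positivity
      have h9 := inv_anti₀ h8 h3
      refine h9.trans (le_of_eq ?_)
      rw [Real.exp_neg, inv_div]
      rfl
    have h10 : (v.divisors.card : ℝ) * rs v ≤ C * Real.exp (x / 400) * (2 * Real.exp (-(x / 32))) :=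
      mul_le_mul h1 h2 (rs_nonneg _) (by positivity)
    rw [he0]
    linarith
  have he' : 4 * (Y : ℝ) * rs q ≤ e0 := by
    rw [he0]
    have : 0 ≤ C * Real.exp (x / 400) * (2 * Real.exp (-(x / 32))) := by positivity
    linarith
  have he00 : 0 ≤ e0 := by rw [he0]; positivity
  have he0' : e0 ≤ (2 * C + 4) * Real.exp (-(x / 32) + x / 400) := by
    have h1 : Real.exp (x / 16) * Real.exp (-(x / 2)) ≤ Real.exp (-(x / 32) + x / 400) := by
      rw [← Real.exp_add]
      exact Real.exp_le_exp.2 (by linarith)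
    have h2 : Real.exp (x / 400) * Real.exp (-(x / 32)) = Real.exp (-(x / 32) + x / 400) := by
      rw [← Real.exp_add]; congr 1; ring
    calc e0 = 2 * C * (Real.exp (x / 400) * Real.exp (-(x / 32))) + 4 * (Real.exp (x / 16) * Real.exp (-(x / 2))) := by
          rw [he0]; ring
      _ ≤ 2 * C * Real.exp (-(x / 32) + x / 400) + 4 * Real.exp (-(x / 32) + x / 400) := by
          rw [h2]; linarith
      _ = _ := by ring
  have herr : Real.exp γ * ((y : ℝ) ^ (5 * (k + j)) * ((2 ^ (Pz z).card + 1) * e0)) ≤ 1 / 4 := by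
    have h1 : (y : ℝ) ^ (5 * (k + j)) ≤ Real.exp (8 * θ * x) := by
      apply hyk _ 8 (by norm_num)
      have : (0 : ℝ) ≤ k := Nat.cast_nonneg _
      push_cast at hkj ⊢
      linarith
    have h2 : Real.exp γ ≤ Real.exp (x / 400) := Real.exp_le_exp.2 hγx
    calc Real.exp γ * ((y : ℝ) ^ (5 * (k + j)) * ((2 ^ (Pz z).card + 1) * e0)) ≤
        Real.exp (x / 400) * (Real.exp (8 * θ * x) * ((2 * Real.exp (x / 200)) *
          ((2 * C + 4) * Real.exp (-(x / 32) + x / 400)))) := by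
          apply mul_le_mul h2 _ (by positivity) (Real.exp_pos _).le
          apply mul_le_mul h1 _ (by positivity) (Real.exp_pos _).le
          exact mul_le_mul h2z he0' he00 (by positivity)
      _ = (4 * C + 8) * (Real.exp (x / 400) * Real.exp (8 * θ * x) * Real.exp (x / 200) *
          Real.exp (-(x / 32) + x / 400)) := by ring
      _ = (4 * C + 8) * Real.exp (x / 400 + 8 * θ * x + x / 200 + (-(x / 32) + x / 400)) := by
          rw [← Real.exp_add, ← Real.exp_add, ← Real.exp_add]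
      _ ≤ (4 * C + 8) * Real.exp (-(x / 64)) := by
          apply mul_le_mul_of_nonneg_left _ (by positivity)
          apply Real.exp_le_exp.2
          rw [hθ]; linarith
      _ ≤ 1 / 4 := by
          rw [Real.exp_neg, ← div_eq_mul_inv, div_le_iff₀ (Real.exp_pos _)]
          linarith
  -- the conditions on the loss
  have hcy : (36 * ((k + j : ℕ) : ℝ)) * (2 * Real.log q) ≤ (y : ℝ) ^ (1 / 4 : ℝ) := by
    rw [← hx]
    refine le_trans ?_ hy4
    calc (36 * ((k + j : ℕ) : ℝ)) * (2 * x) ≤ (36 * x) * (2 * x) := by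
          apply mul_le_mul_of_nonneg_right _ (by positivity)
          linarith
      _ = 72 * x ^ 2 := by ring
      _ ≤ x * x ^ 2 := mul_le_mul_of_nonneg_right (by linarith) (by positivity)
      _ = _ := by ring
  have hxl' : l ≤ x := by linarith
  have hmain := one_coset H χ₀ I z y k j Y γ hG hIall hz2 hzy hj1 hjk
    (by
      have h1 : 36 * ((k + j : ℕ) : ℝ) ≤ y := by
        refine le_trans ?_ hx2y
        linarith
      exact_mod_cast h1) hs18
    (by
      have h1 : (y : ℝ) ^ (2 * j) ≤ Y := by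
        have h2 : (y : ℝ) ^ (2 * j) ≤ Real.exp (1 * θ * x) := by
          apply hyk _ 1 (by norm_num)
          have : ((2 * j : ℕ) : ℝ) ≤ k := by exact_mod_cast hjk2
          linarith
        refine h2.trans (le_trans ?_ hYlow)
        rw [le_div_iff₀ (by norm_num)]
        have h3 : (2 : ℝ) ≤ Real.exp (x / 16 - 1 * θ * x) := by
          have := Real.add_one_le_exp (x / 16 - 1 * θ * x)
          have h5 : 1 ≤ x / 16 - 1 * θ * x := by rw [hθ]; linarith
          linarith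
        calc Real.exp (1 * θ * x) * 2 ≤ Real.exp (1 * θ * x) * Real.exp (x / 16 - 1 * θ * x) :=
              mul_le_mul_of_nonneg_left h3 (Real.exp_pos _).le
          _ = _ := by rw [← Real.exp_add]; congr 1; ring
      exact_mod_cast h1) hsize hzY (1 + x) (by linarith) hΛ hcy (52 * (c * m3)) (by positivity)
    (by
      rw [← hx]
      calc γ * (4 * Real.log y) ≤ γ * (4 * (13 * l)) := mul_le_mul_of_nonneg_left (by linarith) hγ0
        _ = 52 * (γ * l) := by ring
        _ = 52 * (c * m3) * x := by rw [hγl]; ring)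
    (by
      refine le_trans ?_ hy4
      have h1 : Real.exp (2 * (52 * (c * m3))) ≤ x := by
        calc Real.exp (2 * (52 * (c * m3))) ≤ Real.exp m3 := Real.exp_le_exp.2 (by linarith)
          _ = l := hlm.symm
          _ ≤ x := hxl'
      calc 8 * Real.exp (2 * (52 * (c * m3))) ≤ 8 * x := by linarith
        _ ≤ x ^ 2 * x := by
          apply mul_le_mul_of_nonneg_right _ hx0.le
          linarith
        _ = _ := by ring)
    g hg0
    (by
      rw [← hx]
      calc γ * (4 * Real.log z) ≤ γ * (4 * l) := mul_le_mul_of_nonneg_left (by linarith) hγ0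
        _ = 4 * (γ * l) := by ring
        _ = g * x := by rw [hγl, hg]; ring)
    (by
      have h1 : Real.exp g ≤ l := by
        calc Real.exp g ≤ Real.exp m3 := Real.exp_le_exp.2 hgm
          _ = l := hlm.symm
      refine h1.trans ?_
      have h2 : l = (l ^ 4) ^ (1 / 4 : ℝ) := by
        rw [← Real.rpow_natCast, ← Real.rpow_mul hl0.le]; norm_num
      rw [h2]
      apply Real.rpow_le_rpow (by positivity) _ (by norm_num)
      linarith)
    X0 hX0q ((2 * x + 3) * Real.exp (c₃ / 8 * s))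
    (by
      have h1 : Real.exp (g + g * (X0 * Real.exp g) + X0) ≤ Real.exp (c₃ / 8 * s) := Real.exp_le_exp.2 hE
      have h2 : (Nat.clog z ((Y * y ^ (2 * (k + j))) * (Y * y ^ (2 * (k + j)))) : ℝ) ≤ 2 * x + 1 := by
        rw [hx]
        apply clog_bd hz2 _ hqp.two_le
        have hpos : 0 < (Y * y ^ (2 * (k + j))) * (Y * y ^ (2 * (k + j))) := by
          have : 0 < Y * y ^ (2 * (k + j)) := Nat.mul_pos (by omega) (Nat.pow_pos hyNpos)
          exact Nat.mul_pos this this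
        refine le_trans ?_ hsize.le
        refine le_trans (Nat.le_mul_of_pos_left _ hyNpos) (Nat.le_mul_of_pos_left _ (Nat.mul_pos hyNpos hpos))
      have h3 : 1 ≤ Real.exp (c₃ / 8 * s) := Real.one_le_exp (by positivity)
      calc 1 + ((Nat.clog z ((Y * y ^ (2 * (k + j))) * (Y * y ^ (2 * (k + j)))) : ℝ) + 1) *
          Real.exp (g + g * (X0 * Real.exp g) + X0) ≤ Real.exp (c₃ / 8 * s) + (2 * x + 1 + 1) * Real.exp (c₃ / 8 * s) := by
            apply add_le_add h3
            exact mul_le_mul (by linarith) h1 (Real.exp_pos _).le (by positivity)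
        _ = _ := by ring)
    (Real.exp (c₃ / 4 * s))
    (by
      have hz01 : Real.sqrt x ≤ δ * x / l := b3
      have h1 := prod_bd z (δ * x / l) l (by linarith) hl0
        (by
          have := Real.log_le_log hsx0 hz01
          rw [Real.log_sqrt hx0.le, ← hl] at this
          exact this)
        (by rw [div_mul_cancel₀ _ hl0.ne']; exact hzup)
      refine h1.trans (Real.exp_le_exp.2 ?_)
      have h2 : Real.sqrt (δ * x / l) = Real.sqrt δ * s := by
        rw [hs, ← Real.sqrt_mul hδ0.le]; congr 1; ring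
      rw [h2]
      have := mul_le_mul_of_nonneg_right hδ2 hs0
      linarith)
    e0 he he' herr
  obtain ⟨ψ, hψ, hL⟩ := hmain
  refine ⟨ψ, hψ, le_trans ?_ hL⟩
  rw [le_div_iff₀ (by positivity)]
  exact final_step b1 hxl hs0 hcc₃ b6 hjlow

end Pool.Agent.K4H20.TC
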