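import Mathlib
import Pool.Agent.K4H20.TC.T9

/-! A lower bound in every coset of every subgroup of index at most `q ^ δ`. -/

set_option autoImplicit false

namespace Pool.Agent.K4H20.TC
open Finset Pool.Agent.K4H49.AC Filter Topology
open Pool.Agent.R311.RES hiding EE
open scoped Classical

/-- the conditions on `x = log q` -/
structure Bn (δ C x : ℝ) : Prop where
  x1 : 1000000 ≤ x
  l1 : 4000000 * Real.log x ≤ x
  d1 : 50 ≤ x ^ δ
  err : 16 * C + 32 ≤ Real.exp (x / 50)

lemma Bn_ev (δ C : ℝ) (hδ : 0 < δ) : ∀ᶠ x : ℝ in atTop, Bn δ C x := by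
  have hexp : Tendsto (fun x : ℝ => Real.exp (x / 50)) atTop atTop :=
    Real.tendsto_exp_atTop.comp (tendsto_id.atTop_div_const (by norm_num))
  filter_upwards [eventually_ge_atTop (1000000 : ℝ), log_pow_small 4000000 1 1 (by norm_num),
    (tendsto_rpow_atTop hδ).eventually_ge_atTop 50, hexp.eventually_ge_atTop (16 * C + 32)] with x a1 a2 a3 a4
  rw [pow_one, Real.rpow_one] at a2
  exact ⟨a1, a2, a3, a4⟩

lemma final_nv {x l δ g X0 : ℝ} (b1 : 1000000 ≤ x) (hxl : x = Real.exp l) (hl : 13 ≤ l) (hlx : 4000000 * l ≤ x)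
    (hδ0 : 0 < δ) (hδ1 : δ ≤ 1 / 40) (hd : 50 ≤ x ^ δ) (hg0 : 0 ≤ g) (hg1 : g ≤ 4 * δ * l)
    (hg2 : Real.exp g ≤ x ^ (4 * δ)) (hX0 : X0 = 30 * (Real.sqrt x / l)) :
    4 * Real.exp (5 * Real.sqrt x) * ((2 * x + 3) * Real.exp (g + g * (X0 * Real.exp g) + X0) * Real.sqrt (1 + x)) ≤
      Real.exp (x ^ (1 / 2 + 5 * δ)) := by
  have hx0 : 0 < x := by linarith
  have hx1 : 1 ≤ x := by linarith
  have hl0 : 0 < l := by linarith
  have hsx0 : 0 < Real.sqrt x := Real.sqrt_pos.2 hx0
  have hlog : l = Real.log x := by rw [hxl, Real.log_exp]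
  have h1 : 4 * (2 * x + 3) * Real.sqrt (1 + x) ≤ Real.exp (4 + 4 * l) := by
    have h2 : Real.sqrt (1 + x) ≤ x := by
      rw [Real.sqrt_le_left hx0.le]; nlinarith
    have h3 : Real.exp (4 + 4 * l) = Real.exp 4 * x ^ 4 := by
      rw [Real.exp_add, hxl, ← Real.exp_nat_mul]; norm_num
    have h4 : (5 : ℝ) ≤ Real.exp 4 := by
      have := Real.add_one_le_exp (4 : ℝ)
      linarith
    rw [h3]
    have h6 : 4 * (2 * x + 3) * x ≤ 5 * x ^ 4 := by
      have h7 : 2 * x + 3 ≤ x * x := by nlinarith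
      have h8 : x * x * x ≤ x ^ 4 := by
        have : x * x * x * 1 ≤ x * x * x * x := mul_le_mul_of_nonneg_left (by linarith) (by positivity)
        nlinarith
      have h9 : (2 * x + 3) * x ≤ x * x * x := mul_le_mul_of_nonneg_right h7 hx0.le
      have h10 : 0 ≤ x ^ 4 := by positivity
      linarith
    calc 4 * (2 * x + 3) * Real.sqrt (1 + x) ≤ 4 * (2 * x + 3) * x := mul_le_mul_of_nonneg_left h2 (by positivity)
      _ ≤ 5 * x ^ 4 := h6
      _ ≤ _ := mul_le_mul_of_nonneg_right h4 (by positivity)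
  have hp : x ^ (1 / 2 + 5 * δ) = Real.sqrt x * x ^ (4 * δ) * x ^ δ := by
    rw [Real.sqrt_eq_rpow, ← Real.rpow_add hx0, ← Real.rpow_add hx0]
    congr 1; ring
  have hx4 : 1 ≤ x ^ (4 * δ) := Real.one_le_rpow hx1 (by positivity)
  have hS : Real.sqrt x ≤ Real.sqrt x * x ^ (4 * δ) := le_mul_of_one_le_right hsx0.le hx4
  have hS0 : 0 < Real.sqrt x * x ^ (4 * δ) := by positivity
  have hXle : X0 ≤ 30 * Real.sqrt x := by
    rw [hX0]
    have : Real.sqrt x / l ≤ Real.sqrt x := div_le_self hsx0.le (by linarith)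
    linarith
  have hX00 : 0 < X0 := by rw [hX0]; positivity
  have hgX : g * (X0 * Real.exp g) ≤ 3 * (Real.sqrt x * x ^ (4 * δ)) := by
    calc g * (X0 * Real.exp g) ≤ (4 * δ * l) * (X0 * x ^ (4 * δ)) := by
          apply mul_le_mul hg1 (mul_le_mul_of_nonneg_left hg2 hX00.le) (by positivity) (by positivity)
      _ = 120 * δ * (Real.sqrt x * x ^ (4 * δ)) := by
          rw [hX0]
          field_simp
          ring
      _ ≤ 3 * (Real.sqrt x * x ^ (4 * δ)) := mul_le_mul_of_nonneg_right (by linarith) hS0.le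
  have hls : l ≤ 2 * Real.sqrt x := by
    have h := Real.log_le_rpow_div hx0.le (show (0 : ℝ) < 1 / 2 by norm_num)
    rw [← Real.sqrt_eq_rpow, ← hlog] at h
    linarith
  have h4s : 4 ≤ Real.sqrt x := by
    rw [Real.le_sqrt (by norm_num) hx0.le]; linarith
  have hgl : g ≤ Real.sqrt x := by
    have h2 : 4 * δ * l ≤ 4 * (1 / 40) * l := mul_le_mul_of_nonneg_right (by linarith) hl0.le
    linarith
  calc 4 * Real.exp (5 * Real.sqrt x) * ((2 * x + 3) * Real.exp (g + g * (X0 * Real.exp g) + X0) * Real.sqrt (1 + x)) =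
      (Real.exp (5 * Real.sqrt x) * Real.exp (g + g * (X0 * Real.exp g) + X0)) *
        (4 * (2 * x + 3) * Real.sqrt (1 + x)) := by ring
    _ ≤ (Real.exp (5 * Real.sqrt x) * Real.exp (g + g * (X0 * Real.exp g) + X0)) * Real.exp (4 + 4 * l) :=
        mul_le_mul_of_nonneg_left h1 (by positivity)
    _ = Real.exp (5 * Real.sqrt x + (g + g * (X0 * Real.exp g) + X0) + (4 + 4 * l)) := by
        rw [← Real.exp_add, ← Real.exp_add]
    _ ≤ Real.exp (x ^ (1 / 2 + 5 * δ)) := by
        apply Real.exp_le_exp.2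
        rw [hp]
        have h5 : Real.sqrt x * x ^ (4 * δ) * 50 ≤ Real.sqrt x * x ^ (4 * δ) * x ^ δ :=
          mul_le_mul_of_nonneg_left hd hS0.le
        linarith

theorem core_nv (δ : ℝ) (hδ0 : 0 < δ) (hδ1 : δ ≤ 1 / 40) : ∃ q₀ : ℕ, ∀ (q : ℕ) [Fact q.Prime], q₀ ≤ q →
    ∀ (H : Subgroup (DirichletCharacter ℂ q)) (χ₀ : DirichletCharacter ℂ q),
      (Fintype.card (ann H) : ℝ) ≤ Real.exp (δ * Real.log q) →
      ∃ ψ ∈ H, Real.exp (-(Real.log q) ^ (1 / 2 + 5 * δ)) ≤
        ‖DirichletCharacter.LFunction (χ₀ * ψ) (1 / 2)‖ := by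
  obtain ⟨C, hC0, hC⟩ := _root_.H353.divisor_bound_real (1 / 100) (by norm_num)
  have hev := (Real.tendsto_log_atTop.comp tendsto_natCast_atTop_atTop).eventually (Bn_ev δ C hδ0)
  obtain ⟨q₀, hq₀⟩ := eventually_atTop.1 hev
  refine ⟨q₀, ?_⟩
  intro q _ hqq H χ₀ hG
  have hqp : q.Prime := Fact.out
  have hbig := hq₀ q hqq
  simp only [Function.comp_apply] at hbig
  obtain ⟨x, hx⟩ : ∃ x : ℝ, x = Real.log q := ⟨_, rfl⟩
  rw [← hx] at hbig hG ⊢
  obtain ⟨b1, b2, b3, b4⟩ := hbig
  have hx0 : 0 < x := by linarith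
  have hq0 : (0 : ℝ) < q := by exact_mod_cast hqp.pos
  have hqx : (q : ℝ) = Real.exp x := by rw [hx]; exact (Real.exp_log hq0).symm
  obtain ⟨l, hl⟩ : ∃ l : ℝ, l = Real.log x := ⟨_, rfl⟩
  rw [← hl] at b2
  have hxl : x = Real.exp l := by rw [hl]; exact (Real.exp_log hx0).symm
  have hl13 : 13 ≤ l := by
    rw [hl, Real.le_log_iff_exp_le hx0]
    exact exp13.trans b1
  have hl0 : 0 < l := by linarith
  have hsx0 : 0 < Real.sqrt x := Real.sqrt_pos.2 hx0
  have hss : Real.sqrt x * Real.sqrt x = x := Real.mul_self_sqrt hx0.le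
  have hsx1000 : 1000 ≤ Real.sqrt x := by
    rw [Real.le_sqrt (by norm_num) hx0.le]; linarith
  -- the size of the primes
  obtain ⟨y, hy⟩ : ∃ y : ℕ, y = ⌈Real.exp (12 * l)⌉₊ := ⟨_, rfl⟩
  have hy1 : Real.exp (12 * l) ≤ y := by rw [hy]; exact Nat.le_ceil _
  have hexp1 : 1 ≤ Real.exp (12 * l) := Real.one_le_exp (by positivity)
  have hy2 : (y : ℝ) ≤ 2 * Real.exp (12 * l) := by
    have := Nat.ceil_lt_add_one (Real.exp_pos (12 * l)).le
    rw [← hy] at this
    linarith
  have hy0 : (0 : ℝ) < y := by linarith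
  have hly1 : 12 * l ≤ Real.log y := (Real.le_log_iff_exp_le hy0).2 hy1
  have hly2 : Real.log y ≤ 13 * l := by
    have h1 : Real.log y ≤ Real.log 2 + 12 * l := by
      have := Real.log_le_log hy0 hy2
      rwa [Real.log_mul (by norm_num) (Real.exp_pos _).ne', Real.log_exp] at this
    have h2 : Real.log 2 ≤ 1 := by
      have := Real.log_two_lt_d9; linarith
    linarith
  have hly0 : 0 < Real.log y := by linarith
  have hx12 : x ^ 12 ≤ y := by
    refine le_trans (le_of_eq ?_) hy1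
    rw [hxl, ← Real.exp_nat_mul]; norm_num
  have hy4 : x ^ 3 ≤ (y : ℝ) ^ (1 / 4 : ℝ) := by
    have h1 : (Real.exp (12 * l)) ^ (1 / 4 : ℝ) ≤ (y : ℝ) ^ (1 / 4 : ℝ) :=
      Real.rpow_le_rpow (Real.exp_pos _).le hy1 (by norm_num)
    refine le_trans (le_of_eq ?_) h1
    rw [← Real.exp_mul, hxl, ← Real.exp_nat_mul]
    congr 1; push_cast; ring
  have hx1 : 1 ≤ x := by linarith
  have hx2y : x ^ 2 ≤ y := (pow_le_pow_right₀ hx1 (by norm_num)).trans hx12
  have hxbig : 1000000 * x ≤ x ^ 2 := by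
    rw [pow_two]; exact mul_le_mul_of_nonneg_right b1 hx0.le
  have hyN : 1000000 ≤ y := by
    have : (1000000 : ℝ) ≤ y := by linarith
    exact_mod_cast this
  have hyr1 : (1 : ℝ) ≤ y := by linarith
  -- powers of `y`
  have hypow : ∀ n : ℕ, (y : ℝ) ^ n = Real.exp (n * Real.log y) := by
    intro n
    rw [Real.exp_nat_mul, Real.exp_log hy0]
  have hyk : ∀ n : ℕ, (n : ℝ) ≤ 3000 → (y : ℝ) ^ n ≤ Real.exp (x / 100) := by
    intro n hn
    rw [hypow]
    apply Real.exp_le_exp.2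
    calc (n : ℝ) * Real.log y ≤ 3000 * (13 * l) := mul_le_mul hn hly2 hly0.le (by norm_num)
      _ ≤ x / 100 := by linarith
  -- the lengths of the mollifiers
  obtain ⟨Y, hY⟩ : ∃ Y : ℕ, Y = ⌊Real.exp (x / 5)⌋₊ := ⟨_, rfl⟩
  have hYup : (Y : ℝ) ≤ Real.exp (x / 5) := by rw [hY]; exact Nat.floor_le (Real.exp_pos _).le
  have hYlow : Real.exp (x / 5) / 2 ≤ Y := by
    have h1 : Real.exp (x / 5) < Y + 1 := by rw [hY]; exact Nat.lt_floor_add_one _
    have h2 : (2 : ℝ) ≤ Real.exp (x / 5) := by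
      have := Real.add_one_le_exp (x / 5)
      linarith
    linarith
  have hY1 : 1 ≤ Y := by
    have h2 : (2 : ℝ) ≤ Real.exp (x / 5) := by
      have := Real.add_one_le_exp (x / 5)
      linarith
    have : (1 : ℝ) ≤ Y := by linarith
    exact_mod_cast this
  obtain ⟨z, hz⟩ : ∃ z : ℕ, z = ⌊x / 100⌋₊ := ⟨_, rfl⟩
  have hzup : (z : ℝ) ≤ x / 100 := by rw [hz]; exact Nat.floor_le (by positivity)
  have hzlow : x / 200 ≤ z := by
    have h1 : x / 100 < z + 1 := by rw [hz]; exact Nat.lt_floor_add_one _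
    linarith
  have hz2 : 2 ≤ z := by
    have : (2 : ℝ) ≤ z := by linarith
    exact_mod_cast this
  have hz0 : (0 : ℝ) < z := by exact_mod_cast (by omega : 0 < z)
  have hz1 : (1 : ℝ) ≤ z := by exact_mod_cast (by omega : 1 ≤ z)
  have hzx' : (z : ℝ) ≤ x := by linarith
  have hzy : z ≤ y := by
    have : (z : ℝ) ≤ y := by linarith
    exact_mod_cast this
  have hlz1 : l / 2 ≤ Real.log z := by
    have h1 : Real.sqrt x ≤ z := by
      have : Real.sqrt x * 1000 ≤ Real.sqrt x * Real.sqrt x := mul_le_mul_of_nonneg_left hsx1000 hsx0.le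
      linarith
    have h2 := Real.log_le_log hsx0 h1
    rw [Real.log_sqrt hx0.le, ← hl] at h2
    exact h2
  have hlz2 : Real.log z ≤ l := by
    rw [hl]; exact Real.log_le_log hz0 hzx'
  have hlz0 : 0 ≤ Real.log z := by linarith
  -- the exponent of the loss
  obtain ⟨g, hg⟩ : ∃ g : ℝ, g = 4 * δ * Real.log z := ⟨_, rfl⟩
  have hg0 : 0 ≤ g := by rw [hg]; positivity
  have hgl : g ≤ 4 * δ * l := by rw [hg]; exact mul_le_mul_of_nonneg_left hlz2 (by positivity)
  have hgexp : Real.exp g = (z : ℝ) ^ (4 * δ) := by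
    rw [Real.rpow_def_of_pos hz0, hg]; congr 1; ring
  have hgx : Real.exp g ≤ x ^ (4 * δ) := by
    rw [hgexp]; exact Real.rpow_le_rpow hz0.le hzx' (by positivity)
  obtain ⟨X0, hX0⟩ : ∃ X0 : ℝ, X0 = 30 * (Real.sqrt x / l) := ⟨_, rfl⟩
  have hX00 : 0 < X0 := by rw [hX0]; positivity
  have hX0q : Real.log q ≤ X0 * (Real.sqrt z * Real.log z) := by
    rw [← hx]
    have h1 : Real.sqrt x / 15 ≤ Real.sqrt z := by
      rw [Real.le_sqrt (by positivity) hz0.le, div_pow, Real.sq_sqrt hx0.le]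
      linarith
    have h2 : Real.sqrt x / 15 * (l / 2) ≤ Real.sqrt z * Real.log z :=
      mul_le_mul h1 hlz1 (by positivity) (Real.sqrt_nonneg _)
    calc x = X0 * (Real.sqrt x / 15 * (l / 2)) := by
          rw [hX0]
          have e1 : 30 * (Real.sqrt x / l) * (Real.sqrt x / 15 * (l / 2)) = Real.sqrt x * Real.sqrt x := by
            field_simp
            ring
          rw [e1, hss]
      _ ≤ _ := mul_le_mul_of_nonneg_left h2 hX00.le
  -- the primes
  set I : Finset ℕ := Pool.Agent.H17HN.win (y ^ 2) with hI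
  have hIall : ∀ p ∈ I, p.Prime ∧ y < p ∧ p ≤ y ^ 2 := by
    intro p hp
    have h1 := Pool.Agent.H17HN.mem_win.1 hp
    exact ⟨h1.2.1, lt_of_pow_lt_pow_left₀ 2 (Nat.zero_le _) h1.2.2, h1.1.2⟩
  have hs18 : 1 / 18 ≤ ∑ p ∈ I, 1 / (p : ℝ) := by
    apply Pool.Agent.H17HN.win_sum
    calc 4 ^ 20 ≤ (1048576) ^ 2 := by norm_num
      _ ≤ y ^ 2 := by
        apply Nat.pow_le_pow_left
        have : (1048576 : ℝ) ≤ y := by linarith
        exact_mod_cast this
  have hyNpos : 0 < y := by omega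
  -- sizes
  obtain ⟨k, hk⟩ : ∃ k : ℕ, k = 576 := ⟨_, rfl⟩
  obtain ⟨j, hj⟩ : ∃ j : ℕ, j = 1 := ⟨_, rfl⟩
  have hkjr : ((k + j : ℕ) : ℝ) = 577 := by rw [hk, hj]; norm_num
  have hB' : (y : ℝ) ^ (2 * (k + j)) ≤ Real.exp (x / 100) := by
    apply hyk
    rw [hk, hj]; norm_num
  have hYB' : (Y : ℝ) * (y : ℝ) ^ (2 * (k + j)) ≤ Real.exp (x / 5 + x / 100) := by
    rw [Real.exp_add]
    exact mul_le_mul hYup hB' (by positivity) (Real.exp_pos _).le
  have hyexp : (y : ℝ) ≤ Real.exp (13 * l) := by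
    rw [← Real.log_le_iff_le_exp hy0]; exact hly2
  have hsizer : ((y : ℝ) * (((Y : ℝ) * (y : ℝ) ^ (2 * (k + j))) * ((Y : ℝ) * (y : ℝ) ^ (2 * (k + j))))) *
      ((y : ℝ) * (((Y : ℝ) * (y : ℝ) ^ (2 * (k + j))) * ((Y : ℝ) * (y : ℝ) ^ (2 * (k + j))))) < q := by
    have h1 : (y : ℝ) * (((Y : ℝ) * (y : ℝ) ^ (2 * (k + j))) * ((Y : ℝ) * (y : ℝ) ^ (2 * (k + j)))) ≤
        Real.exp (13 * l + ((x / 5 + x / 100) + (x / 5 + x / 100))) := by
      rw [Real.exp_add, Real.exp_add (x / 5 + x / 100)]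
      apply mul_le_mul hyexp _ (by positivity) (Real.exp_pos _).le
      exact mul_le_mul hYB' hYB' (by positivity) (Real.exp_pos _).le
    calc _ ≤ Real.exp (13 * l + ((x / 5 + x / 100) + (x / 5 + x / 100))) *
          Real.exp (13 * l + ((x / 5 + x / 100) + (x / 5 + x / 100))) :=
          mul_le_mul h1 h1 (by positivity) (Real.exp_pos _).le
      _ = Real.exp ((13 * l + ((x / 5 + x / 100) + (x / 5 + x / 100))) +
          (13 * l + ((x / 5 + x / 100) + (x / 5 + x / 100)))) := (Real.exp_add _ _).symm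
      _ < Real.exp x := by
          apply Real.exp_lt_exp.2
          linarith
      _ = q := hqx.symm
  have hsize : (y * ((Y * y ^ (2 * (k + j))) * (Y * y ^ (2 * (k + j))))) *
      (y * ((Y * y ^ (2 * (k + j))) * (Y * y ^ (2 * (k + j))))) < q := by exact_mod_cast hsizer
  have h4z : (4 : ℝ) ^ z ≤ Real.exp (x / 50) := by
    have h1 : (4 : ℝ) ^ z = Real.exp (z * Real.log 4) := by
      rw [Real.exp_nat_mul, Real.exp_log (by norm_num)]
    rw [h1]
    apply Real.exp_le_exp.2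
    have hlog4 : Real.log 4 ≤ 2 := by
      have : (4 : ℝ) = 2 ^ 2 := by norm_num
      rw [this, Real.log_pow]
      have := Real.log_two_lt_d9
      push_cast; linarith
    calc (z : ℝ) * Real.log 4 ≤ x / 100 * 2 := mul_le_mul hzup hlog4 (Real.log_nonneg (by norm_num)) (by positivity)
      _ = _ := by ring
  have h2z : (2 : ℝ) ^ (Pz z).card + 1 ≤ 2 * Real.exp (x / 100) := by
    have h1 : (2 : ℝ) ^ (Pz z).card ≤ 2 ^ z := pow_le_pow_right₀ (by norm_num) (card_Pz z)
    have h2 : (2 : ℝ) ^ z = Real.exp (z * Real.log 2) := by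
      rw [Real.exp_nat_mul, Real.exp_log (by norm_num)]
    have h3 : (2 : ℝ) ^ z ≤ Real.exp (x / 100) := by
      rw [h2]
      apply Real.exp_le_exp.2
      have := Real.log_two_lt_d9
      calc (z : ℝ) * Real.log 2 ≤ x / 100 * 1 :=
            mul_le_mul hzup (by linarith) (Real.log_nonneg (by norm_num)) (by positivity)
        _ = _ := by ring
    have h4 : 1 ≤ Real.exp (x / 100) := Real.one_le_exp (by positivity)
    linarith
  have hzY : ∀ T ⊆ Pz z, ms T * Y < q := by
    intro T hT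
    have h1 : ((ms T : ℕ) : ℝ) ≤ Real.exp (x / 50) := by
      refine le_trans ?_ h4z
      exact_mod_cast ms_le_four z hT
    have h2 : ((ms T : ℕ) : ℝ) * Y < q := by
      calc ((ms T : ℕ) : ℝ) * Y ≤ Real.exp (x / 50) * Real.exp (x / 5) :=
            mul_le_mul h1 hYup (Nat.cast_nonneg _) (Real.exp_pos _).le
        _ = Real.exp (x / 50 + x / 5) := (Real.exp_add _ _).symm
        _ < Real.exp x := Real.exp_lt_exp.2 (by linarith)
        _ = q := hqx.symm
    exact_mod_cast h2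
  -- the harmonic sum
  have hΛ : ∑ a ∈ Icc 1 Y, 1 / (a : ℝ) ≤ 1 + x := by
    have h1 : (Y : ℝ) ≤ q := by
      rw [hqx]
      exact hYup.trans (Real.exp_le_exp.2 (by linarith))
    have h2 := harm_le Y (F := (q : ℝ)) (by exact_mod_cast hqp.one_lt.le) h1
    rw [← hx] at h2
    exact h2
  -- the errors
  obtain ⟨e0, he0⟩ : ∃ e0 : ℝ, e0 = C * Real.exp (x / 100) * (2 * Real.exp (-(x / 10))) +
    4 * Real.exp (x / 5) * Real.exp (-(x / 2)) := ⟨_, rfl⟩
  have hrsq : rs q = Real.exp (-(x / 2)) := by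
    rw [rs_rpow, hqx, ← Real.exp_mul]; congr 1; ring
  have h4Y : 4 * (Y : ℝ) * rs q ≤ 4 * Real.exp (x / 5) * Real.exp (-(x / 2)) := by
    rw [hrsq]
    exact mul_le_mul_of_nonneg_right (by linarith) (Real.exp_pos _).le
  have he : ∀ v : ℕ, Y < v → v < q → (v.divisors.card : ℝ) * rs v + 4 * Y * rs q ≤ e0 := by
    intro v hv hvq
    have h1 : (v.divisors.card : ℝ) ≤ C * Real.exp (x / 100) := by
      refine (hC v (by omega)).trans (mul_le_mul_of_nonneg_left ?_ hC0.le)
      calc (v : ℝ) ^ (1 / 100 : ℝ) ≤ (q : ℝ) ^ (1 / 100 : ℝ) :=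
            Real.rpow_le_rpow (Nat.cast_nonneg _) (by exact_mod_cast hvq.le) (by norm_num)
        _ = Real.exp (x / 100) := by rw [hqx, ← Real.exp_mul]; congr 1; ring
    have h2 : rs v ≤ 2 * Real.exp (-(x / 10)) := by
      have h3 : Real.exp (x / 10) / 2 ≤ Real.sqrt v := by
        rw [Real.le_sqrt (by positivity) (Nat.cast_nonneg _), div_pow]
        have h5 : Real.exp (x / 10) ^ 2 = Real.exp (x / 5) := by
          rw [← Real.exp_nat_mul]; congr 1; push_cast; ring
        rw [h5]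
        have h6 : (Y : ℝ) ≤ v := by exact_mod_cast hv.le
        have h7 := Real.exp_pos (x / 5)
        norm_num
        linarith
      unfold rs
      have h8 : 0 < Real.exp (x / 10) / 2 := by positivity
      have h9 := inv_anti₀ h8 h3
      refine h9.trans (le_of_eq ?_)
      rw [Real.exp_neg, inv_div]
      rfl
    have h10 : (v.divisors.card : ℝ) * rs v ≤ C * Real.exp (x / 100) * (2 * Real.exp (-(x / 10))) :=
      mul_le_mul h1 h2 (rs_nonneg _) (by positivity)
    rw [he0]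
    linarith
  have he' : 4 * (Y : ℝ) * rs q ≤ e0 := by
    rw [he0]
    have : 0 ≤ C * Real.exp (x / 100) * (2 * Real.exp (-(x / 10))) := by positivity
    linarith
  have he00 : 0 ≤ e0 := by rw [he0]; positivity
  have he0' : e0 ≤ (2 * C + 4) * Real.exp (-(x / 10) + x / 100) := by
    have h1 : Real.exp (x / 5) * Real.exp (-(x / 2)) ≤ Real.exp (-(x / 10) + x / 100) := by
      rw [← Real.exp_add]
      exact Real.exp_le_exp.2 (by linarith)
    have h2 : Real.exp (x / 100) * Real.exp (-(x / 10)) = Real.exp (-(x / 10) + x / 100) := by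
      rw [← Real.exp_add]; congr 1; ring
    calc e0 = 2 * C * (Real.exp (x / 100) * Real.exp (-(x / 10))) + 4 * (Real.exp (x / 5) * Real.exp (-(x / 2))) := by
          rw [he0]; ring
      _ ≤ 2 * C * Real.exp (-(x / 10) + x / 100) + 4 * Real.exp (-(x / 10) + x / 100) := by
          rw [h2]; linarith
      _ = _ := by ring
  have herr : Real.exp (δ * x) * ((y : ℝ) ^ (5 * (k + j)) * ((2 ^ (Pz z).card + 1) * e0)) ≤ 1 / 4 := by
    have h1 : (y : ℝ) ^ (5 * (k + j)) ≤ Real.exp (x / 100) := by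
      apply hyk
      rw [hk, hj]; norm_num
    have h2 : Real.exp (δ * x) ≤ Real.exp (x / 40) := by
      apply Real.exp_le_exp.2
      calc δ * x ≤ 1 / 40 * x := mul_le_mul_of_nonneg_right hδ1 hx0.le
        _ = _ := by ring
    calc Real.exp (δ * x) * ((y : ℝ) ^ (5 * (k + j)) * ((2 ^ (Pz z).card + 1) * e0)) ≤
        Real.exp (x / 40) * (Real.exp (x / 100) * ((2 * Real.exp (x / 100)) *
          ((2 * C + 4) * Real.exp (-(x / 10) + x / 100)))) := by
          apply mul_le_mul h2 _ (by positivity) (Real.exp_pos _).le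
          apply mul_le_mul h1 _ (by positivity) (Real.exp_pos _).le
          exact mul_le_mul h2z he0' he00 (by positivity)
      _ = (4 * C + 8) * (Real.exp (x / 40) * Real.exp (x / 100) * Real.exp (x / 100) *
          Real.exp (-(x / 10) + x / 100)) := by ring
      _ = (4 * C + 8) * Real.exp (x / 40 + x / 100 + x / 100 + (-(x / 10) + x / 100)) := by
          rw [← Real.exp_add, ← Real.exp_add, ← Real.exp_add]
      _ ≤ (4 * C + 8) * Real.exp (-(x / 50)) := by
          apply mul_le_mul_of_nonneg_left _ (by positivity)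
          apply Real.exp_le_exp.2
          linarith
      _ ≤ 1 / 4 := by
          rw [Real.exp_neg, ← div_eq_mul_inv, div_le_iff₀ (Real.exp_pos _)]
          linarith
  -- the conditions on the loss
  have hcy : (36 * ((k + j : ℕ) : ℝ)) * (2 * Real.log q) ≤ (y : ℝ) ^ (1 / 4 : ℝ) := by
    rw [← hx, hkjr]
    refine le_trans ?_ hy4
    calc (36 * (577 : ℝ)) * (2 * x) = 41544 * x := by ring
      _ ≤ 1000000 * x := mul_le_mul_of_nonneg_right (by norm_num) hx0.le
      _ ≤ x ^ 2 := hxbig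
      _ ≤ x ^ 3 := pow_le_pow_right₀ hx1 (by norm_num)
  have hmain := one_coset H χ₀ I z y k j Y (δ * x) hG hIall hz2 hzy (by rw [hj]) (by rw [hj, hk]; norm_num)
    (by
      rw [hk, hj]
      omega) hs18
    (by
      have h1 : (y : ℝ) ^ (2 * j) ≤ Y := by
        have h2 : (y : ℝ) ^ (2 * j) ≤ Real.exp (x / 100) := by
          apply hyk
          rw [hj]; norm_num
        refine h2.trans (le_trans ?_ hYlow)
        rw [le_div_iff₀ (by norm_num)]
        have h3 : (2 : ℝ) ≤ Real.exp (x / 5 - x / 100) := by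
          have := Real.add_one_le_exp (x / 5 - x / 100)
          linarith
        calc Real.exp (x / 100) * 2 ≤ Real.exp (x / 100) * Real.exp (x / 5 - x / 100) :=
              mul_le_mul_of_nonneg_left h3 (Real.exp_pos _).le
          _ = _ := by rw [← Real.exp_add]; congr 1; ring
      exact_mod_cast h1) hsize hzY (1 + x) (by linarith) hΛ hcy (4 * δ * Real.log y) (by positivity)
    (by
      rw [← hx]
      exact le_of_eq (by ring))
    (by
      have e1 : Real.exp (2 * (4 * δ * Real.log y)) = (y : ℝ) ^ (8 * δ) := by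
        rw [Real.rpow_def_of_pos hy0]; congr 1; ring
      rw [e1]
      have h1 : (y : ℝ) ^ (8 * δ) ≤ (y : ℝ) ^ (1 / 5 : ℝ) :=
        Real.rpow_le_rpow_of_exponent_le hyr1 (by linarith)
      have h2 : (8 : ℝ) ≤ (y : ℝ) ^ (1 / 20 : ℝ) := by
        have h3 : (Real.exp (12 * l)) ^ (1 / 20 : ℝ) ≤ (y : ℝ) ^ (1 / 20 : ℝ) :=
          Real.rpow_le_rpow (Real.exp_pos _).le hy1 (by norm_num)
        refine le_trans ?_ h3
        rw [← Real.exp_mul]
        have := Real.add_one_le_exp (12 * l * (1 / 20))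
        linarith
      calc 8 * (y : ℝ) ^ (8 * δ) ≤ (y : ℝ) ^ (1 / 20 : ℝ) * (y : ℝ) ^ (1 / 5 : ℝ) :=
            mul_le_mul h2 h1 (by positivity) (by positivity)
        _ = _ := by rw [← Real.rpow_add hy0]; norm_num)
    g hg0
    (by
      rw [← hx, hg]
      exact le_of_eq (by ring))
    (by
      rw [hgexp]
      exact Real.rpow_le_rpow_of_exponent_le hz1 (by linarith))
    X0 hX0q ((2 * x + 3) * Real.exp (g + g * (X0 * Real.exp g) + X0))
    (by
      have h2 : (Nat.clog z ((Y * y ^ (2 * (k + j))) * (Y * y ^ (2 * (k + j)))) : ℝ) ≤ 2 * x + 1 := by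
        rw [hx]
        apply clog_bd hz2 _ hqp.two_le
        have hpos : 0 < (Y * y ^ (2 * (k + j))) * (Y * y ^ (2 * (k + j))) := by
          have : 0 < Y * y ^ (2 * (k + j)) := Nat.mul_pos (by omega) (Nat.pow_pos hyNpos)
          exact Nat.mul_pos this this
        refine le_trans ?_ hsize.le
        refine le_trans (Nat.le_mul_of_pos_left _ hyNpos) (Nat.le_mul_of_pos_left _ (Nat.mul_pos hyNpos hpos))
      have h3 : 1 ≤ Real.exp (g + g * (X0 * Real.exp g) + X0) := Real.one_le_exp (by positivity)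
      calc 1 + ((Nat.clog z ((Y * y ^ (2 * (k + j))) * (Y * y ^ (2 * (k + j)))) : ℝ) + 1) *
          Real.exp (g + g * (X0 * Real.exp g) + X0) ≤ Real.exp (g + g * (X0 * Real.exp g) + X0) +
            (2 * x + 1 + 1) * Real.exp (g + g * (X0 * Real.exp g) + X0) := by
            apply add_le_add h3
            exact mul_le_mul (by linarith) le_rfl (Real.exp_pos _).le (by positivity)
        _ = _ := by ring)
    (Real.exp (5 * Real.sqrt x))
    (by
      have hmx : l ≤ x / l := by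
        rw [le_div_iff₀ hl0]
        have h1 : l * l ≤ x := by
          have h2 : l ≤ Real.sqrt x := by
            have h := Real.log_le_rpow_div hx0.le (show (0 : ℝ) < 1 / 4 by norm_num)
            rw [← hl] at h
            have h3 : x ^ (1 / 4 : ℝ) * x ^ (1 / 4 : ℝ) = Real.sqrt x := by
              rw [← Real.rpow_add hx0, Real.sqrt_eq_rpow]; norm_num
            have h4 : (4 : ℝ) ≤ x ^ (1 / 4 : ℝ) := by
              have h5 : (256 : ℝ) ^ (1 / 4 : ℝ) = 4 := by
                rw [show (256 : ℝ) = 4 ^ (4 : ℕ) by norm_num, ← Real.rpow_natCast, ← Real.rpow_mul (by norm_num)]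
                norm_num
              exact h5.symm.le.trans (Real.rpow_le_rpow (by norm_num) (by linarith) (by norm_num))
            have h6 : 4 * x ^ (1 / 4 : ℝ) ≤ x ^ (1 / 4 : ℝ) * x ^ (1 / 4 : ℝ) :=
              mul_le_mul_of_nonneg_right h4 (by linarith)
            linarith
          calc l * l ≤ Real.sqrt x * Real.sqrt x := mul_le_mul h2 h2 hl0.le hsx0.le
            _ = x := hss
        exact h1
      have h1 := prod_bd z (x / l) l (by linarith) hl0
        (by
          have h2 : Real.sqrt x ≤ x / l := by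
            rw [le_div_iff₀ hl0]
            have h3 : l ≤ Real.sqrt x := by
              rw [Real.le_sqrt hl0.le hx0.le, pow_two]
              rwa [le_div_iff₀ hl0] at hmx
            calc Real.sqrt x * l ≤ Real.sqrt x * Real.sqrt x := mul_le_mul_of_nonneg_left h3 hsx0.le
              _ = x := hss
          have := Real.log_le_log hsx0 h2
          rw [Real.log_sqrt hx0.le, ← hl] at this
          exact this)
        (by rw [div_mul_cancel₀ _ hl0.ne']; exact hzx')
      refine h1.trans (Real.exp_le_exp.2 ?_)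
      have h2 : Real.sqrt (x / l) ≤ Real.sqrt x :=
        Real.sqrt_le_sqrt (div_le_self hx0.le (by linarith))
      linarith)
    e0 he he' herr
  obtain ⟨ψ, hψ, hL⟩ := hmain
  refine ⟨ψ, hψ, le_trans ?_ hL⟩
  rw [le_div_iff₀ (by positivity)]
  have hfin := final_nv b1 hxl hl13 b2 hδ0 hδ1 b3 hg0 hgl hgx hX0
  have h1 : (1 : ℝ) ≤ Real.exp j := Real.one_le_exp (Nat.cast_nonneg _)
  refine le_trans ?_ h1
  rw [Real.exp_neg, inv_mul_le_iff₀ (Real.exp_pos _), mul_one]
  exact hfin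

end Pool.Agent.K4H20.TC
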